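import Pool.Agent.Lib.MP_f64c7e_nt.FP.Defs

/-!
Cyclic walks on `ℝ × ℚ₃`: good words and the compact set swept by them.
-/

set_option autoImplicit false

open MeasureTheory Filter Topology
open scoped ENNReal

namespace Pool.Agent.Lib.MP_f64c7e_nt.FP

noncomputable section

theorem continuous_T {K : Type*} [Field K] [TopologicalSpace K] [IsTopologicalRing K] (b : Bool) :
    Continuous (T b : K → K) := by
  unfold T
  cases b
  · simp only [Bool.false_eq_true, if_false]
    exact continuous_id.div_const _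
  · simp only [if_true]
    exact ((continuous_const.mul continuous_id).add continuous_const).div_const _

theorem continuous_Tw {K : Type*} [Field K] [TopologicalSpace K] [IsTopologicalRing K]
    (w : List Bool) : Continuous (Tw w : K → K) := by
  induction w with
  | nil => exact continuous_id
  | cons b w ih => exact (continuous_T b).comp ih

theorem continuous_TXw (w : List Bool) : Continuous (TXw w) :=
  ((continuous_Tw w).comp continuous_fst).prodMk ((continuous_Tw w).comp continuous_snd)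

/-- The point of `ℝ × ℚ₃` defined by the fraction `b / Q`. -/
def pt (Q : ℕ) (b : ℤ) : X := ((b : ℝ) / Q, (b : ℚ_[3]) / Q)

theorem step_field {K : Type*} [Field K] [CharZero K] {Q : ℕ} (hQ : 0 < Q) {e : Bool} {b c : ℤ}
    (h : 2 * b = if e then 3 * c + Q else c) : (b : K) / Q = T e ((c : K) / Q) := by
  have hQ' : (Q : K) ≠ 0 := by exact_mod_cast hQ.ne'
  have h2 : (2 : K) ≠ 0 := two_ne_zero
  unfold T
  cases e
  · simp only [Bool.false_eq_true, if_false] at h ⊢
    have : (2 : K) * b = c := by exact_mod_cast h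
    rw [← this]; field_simp
  · simp only [if_true] at h ⊢
    have : (2 : K) * b = 3 * c + Q := by exact_mod_cast h
    field_simp
    linear_combination this

theorem pt_step {L₀ : ℕ} {δ : ℝ} {n Q : ℕ} {ε : ZMod n → Bool}
    {b : ZMod n → ℤ} (h : Sys L₀ δ n Q ε b)
    (i : ZMod n) : pt Q (b i) = TX (ε i) (pt Q (b (i - 1))) := by
  unfold pt TX
  rw [Prod.mk.injEq]
  exact ⟨step_field h.Qpos (h.step i), step_field h.Qpos (h.step i)⟩

theorem pt_word {L₀ : ℕ} {δ : ℝ} {n Q : ℕ} {ε : ZMod n → Bool}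
    {b : ZMod n → ℤ} (h : Sys L₀ δ n Q ε b) (L : ℕ) :
    ∀ i : ZMod n, pt Q (b i) =
      TXw (List.ofFn fun m : Fin L => ε (i - ((m : ℕ) : ZMod n))) (pt Q (b (i - (L : ZMod n)))) := by
  induction L with
  | zero => intro i; simp [TXw, Tw]
  | succ L ih =>
    intro i
    rw [List.ofFn_succ]
    have h1 := ih (i - 1)
    have h2 : (fun m : Fin L => ε (i - 1 - ((m : ℕ) : ZMod n))) =
        fun m : Fin L => ε (i - (((Fin.succ m : Fin (L + 1)) : ℕ) : ZMod n)) := by
      funext m
      congr 1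
      push_cast [Fin.val_succ]
      ring
    have h3 : i - 1 - (L : ZMod n) = i - ((L + 1 : ℕ) : ZMod n) := by push_cast; ring
    rw [h2, h3] at h1
    rw [pt_step h i, h1]
    simp [TXw, TX, Tw]

theorem pt_nonneg {L₀ : ℕ} {δ : ℝ} {n Q : ℕ} {ε : ZMod n → Bool}
    {b : ZMod n → ℤ} (h : Sys L₀ δ n Q ε b)
    (i : ZMod n) : 0 ≤ (pt Q (b i)).1 := by
  unfold pt
  have := h.nonneg i
  have h1 : (0 : ℝ) ≤ b i := by exact_mod_cast this
  positivity

theorem pt_norm {L₀ : ℕ} {δ : ℝ} {n Q : ℕ} {ε : ZMod n → Bool}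
    {b : ZMod n → ℤ} (h : Sys L₀ δ n Q ε b)
    (i : ZMod n) : ‖(pt Q (b i)).2‖ ≤ 1 := by
  unfold pt
  simp only [norm_div]
  have h1 : ‖(Q : ℚ_[3])‖ = 1 := by
    rw [Padic.norm_natCast_eq_one_iff]
    exact h.Q3.symm
  rw [h1, div_one]
  exact Padic.norm_int_le_one _

/-- The set of good words of length `L`. -/
def good (U : Set X) (K : ℝ) (L : ℕ) : Set (Fin L → Bool) :=
  {w | ∀ p : X, 0 ≤ p.1 → p.1 ≤ K → ‖p.2‖ ≤ 1 → TXw (List.ofFn w) p ∈ U}

/-- Number of windows that are good: lower bound by equidistribution. -/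
theorem good_count {L₀ : ℕ} {δ : ℝ} {n Q : ℕ} (hn : 0 < n) {ε : ZMod n → Bool} {b : ZMod n → ℤ}
    (h : Sys L₀ δ n Q ε b) (U : Set X) (K : ℝ) (L : ℕ) (hL : L ≤ L₀) :
    (Nat.card (good U K L) : ℝ) * (n / 2 ^ L - δ * n) ≤
      (Nat.card {i : ZMod n // (fun m : Fin L => ε (i - ((m : ℕ) : ZMod n))) ∈ good U K L} : ℝ) := by
  classical
  haveI : NeZero n := ⟨hn.ne'⟩
  have h1 : ∀ w : Fin L → Bool, (n / 2 ^ L - δ * n : ℝ) ≤
      ((Finset.univ.filter fun i : ZMod n => (fun m : Fin L => ε (i - ((m : ℕ) : ZMod n))) = w).card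
        : ℝ) := by
    intro w
    have h2 := h.freq L hL w
    rw [abs_le] at h2
    have h3 : Nat.card {i : ZMod n // ∀ m : Fin L, ε (i - ((m : ℕ) : ZMod n)) = w m} =
        (Finset.univ.filter fun i : ZMod n =>
          (fun m : Fin L => ε (i - ((m : ℕ) : ZMod n))) = w).card := by
      rw [Nat.card_eq_fintype_card, Fintype.card_subtype]
      congr 1
      ext i
      simp [funext_iff]
    rw [h3] at h2
    linarith [h2.1]
  have h4 : Nat.card {i : ZMod n // (fun m : Fin L => ε (i - ((m : ℕ) : ZMod n))) ∈ good U K L} =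
      ∑ w ∈ Finset.univ.filter (fun w : Fin L → Bool => w ∈ good U K L),
        (Finset.univ.filter fun i : ZMod n =>
          (fun m : Fin L => ε (i - ((m : ℕ) : ZMod n))) = w).card := by
    rw [Nat.card_eq_fintype_card, Fintype.card_subtype]
    rw [← Finset.card_biUnion]
    · congr 1
      ext i
      simp
    · intro w1 _ w2 _ hne
      rw [Function.onFun, Finset.disjoint_left]
      intro i hi1 hi2
      simp only [Finset.mem_filter, Finset.mem_univ, true_and] at hi1 hi2
      exact hne (hi1.symm.trans hi2)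
  rw [h4]
  have h5 : Nat.card (good U K L) =
      (Finset.univ.filter (fun w : Fin L → Bool => w ∈ good U K L)).card := by
    rw [Nat.card_eq_fintype_card, ← Set.toFinset_card]
    congr 1
    ext w; simp
  rw [h5]
  push_cast
  rw [← nsmul_eq_mul, ← Finset.sum_const]
  exact Finset.sum_le_sum fun w _ => h1 w

/-- The compact set swept by the good words. -/
def swept (U : Set X) (K : ℝ) (L : ℕ) : Set X :=
  ⋃ w ∈ good U K L, TXw (List.ofFn w) '' (Set.Icc 0 K ×ˢ Metric.closedBall 0 1)

theorem isCompact_swept (U : Set X) (K : ℝ) (L : ℕ) : IsCompact (swept U K L) := by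
  unfold swept
  refine Set.Finite.isCompact_biUnion (Set.toFinite _) fun w _ => ?_
  exact (isCompact_Icc.prod (isCompact_closedBall 0 1)).image (continuous_TXw _)

theorem swept_subset (U : Set X) (K : ℝ) (L : ℕ) : swept U K L ⊆ U := by
  unfold swept
  refine Set.iUnion₂_subset fun w hw => ?_
  rintro _ ⟨p, ⟨hp1, hp2⟩, rfl⟩
  exact hw p hp1.1 hp1.2 (by simpa using hp2)

/-- Every index with a good window is in the swept set or comes from a large point. -/
theorem good_split {L₀ : ℕ} {δ : ℝ} {n Q : ℕ} (hn : 0 < n) {ε : ZMod n → Bool} {b : ZMod n → ℤ}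
    (h : Sys L₀ δ n Q ε b) (U : Set X) (K : ℝ) (L : ℕ) :
    Nat.card {i : ZMod n // (fun m : Fin L => ε (i - ((m : ℕ) : ZMod n))) ∈ good U K L} ≤
      Nat.card {i : ZMod n // pt Q (b i) ∈ swept U K L} +
        Nat.card {i : ZMod n // K * Q < b i} := by
  classical
  haveI : NeZero n := ⟨hn.ne'⟩
  simp only [Nat.card_eq_fintype_card, Fintype.card_subtype]
  have h1 : (Finset.univ.filter fun i : ZMod n => K * Q < b (i - (L : ZMod n))).card =
      (Finset.univ.filter fun i : ZMod n => K * Q < b i).card := by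
    refine Finset.card_bij (fun i _ => i - (L : ZMod n)) ?_ ?_ ?_
    · intro i hi; simpa using hi
    · intro i _ j _ hij; simpa using hij
    · intro i hi
      exact ⟨i + (L : ZMod n), by simpa using hi, by simp⟩
  rw [← h1]
  refine (Finset.card_le_card ?_).trans (Finset.card_union_le _ _)
  intro i hi
  simp only [Finset.mem_filter, Finset.mem_univ, true_and, Finset.mem_union] at hi ⊢
  by_cases h2 : K * Q < b (i - (L : ZMod n))
  · exact Or.inr h2
  · refine Or.inl ?_
    rw [pt_word h L i]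
    unfold swept
    refine Set.mem_biUnion hi ⟨_, ⟨⟨pt_nonneg h _, ?_⟩, ?_⟩, rfl⟩
    · have hQ : (0 : ℝ) < Q := by exact_mod_cast h.Qpos
      show (b (i - (L : ZMod n)) : ℝ) / Q ≤ K
      rw [div_le_iff₀ hQ]
      exact not_lt.1 h2
    · simpa using pt_norm h (i - (L : ZMod n))


theorem Sys.mono {L₀ L₁ : ℕ} {δ₀ δ₁ : ℝ} (hL : L₁ ≤ L₀) (hδ : δ₀ ≤ δ₁) {n Q : ℕ}
    {ε : ZMod n → Bool} {b : ZMod n → ℤ} (h : Sys L₀ δ₀ n Q ε b) : Sys L₁ δ₁ n Q ε b where
  Qpos := h.Qpos
  Q3 := h.Q3
  inj := h.inj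
  nonneg := h.nonneg
  step := h.step
  freq := fun L hL' w => (h.freq L (hL'.trans hL) w).trans
    (mul_le_mul_of_nonneg_right hδ (Nat.cast_nonneg _))

end

end Pool.Agent.Lib.MP_f64c7e_nt.FP
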