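import Mathlib

/-!
Numbers all of whose prime factors are `3` modulo `8`, or all `5` modulo `8`: powers of `2` and `3`.
-/

set_option autoImplicit false

namespace Pool.Agent.Lib.MP_f64c7e_nt.FP

/-- If every prime factor of `q` divides some `B^m + 1` with `m` odd, so does `q` (`B` even). -/
theorem exists_odd_pow (B : ℕ) (hB : Even B) (q : ℕ) : q ≠ 0 →
    (∀ p : ℕ, p.Prime → p ∣ q → ∃ m, Odd m ∧ p ∣ B ^ m + 1) → ∃ m, Odd m ∧ q ∣ B ^ m + 1 := by
  induction q using induction_on_primes with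
  | zero => intro h; exact absurd rfl h
  | one => intro _ _; exact ⟨1, odd_one, one_dvd _⟩
  | prime_mul p a hp ih =>
    intro h0 h
    obtain ⟨m₁, hm₁, h1⟩ := ih (by rintro rfl; simp at h0) fun r hr hra =>
      h r hr (dvd_mul_of_dvd_right hra p)
    obtain ⟨m₂, hm₂, h2⟩ := h p hp (dvd_mul_right p a)
    have hp2 : p ≠ 2 := by
      rintro rfl
      have h3 : Odd (B ^ m₂ + 1) := by
        have : Even (B ^ m₂) := hB.pow_of_ne_zero hm₂.pos.ne'
        exact this.add_one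
      rw [Nat.odd_iff] at h3
      omega
    have hpo : Odd p := hp.odd_of_ne_two hp2
    set A : ℕ := B ^ (m₁ * m₂) with hA
    have hA1 : a ∣ A + 1 := by
      have h3 := Odd.nat_add_dvd_pow_add_pow (B ^ m₁) 1 hm₂
      rw [one_pow, ← pow_mul] at h3
      exact h1.trans h3
    have hA2 : p ∣ A + 1 := by
      have h3 := Odd.nat_add_dvd_pow_add_pow (B ^ m₂) 1 hm₁
      rw [one_pow, ← pow_mul, mul_comm m₂ m₁] at h3
      exact h2.trans h3
    refine ⟨m₁ * m₂ * p, (hm₁.mul hm₂).mul hpo, ?_⟩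
    have hAp : B ^ (m₁ * m₂ * p) = A ^ p := by rw [hA, ← pow_mul]
    rw [hAp]
    have h3 : ((p : ℕ) : ℤ) ∣ (A : ℤ) - (-1) := by
      rw [sub_neg_eq_add]; exact_mod_cast hA2
    have h4 := dvd_geom_sum₂_self h3
    have h5 := Commute.geom_sum₂_mul (Commute.all (A : ℤ) (-1)) p
    have h6 : ((p * a : ℕ) : ℤ) ∣ ((A ^ p + 1 : ℕ) : ℤ) := by
      have h7 : ((A ^ p + 1 : ℕ) : ℤ) = (A : ℤ) ^ p - (-1) ^ p := by
        rw [hpo.neg_one_pow]; push_cast; ring
      rw [h7, ← h5]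
      push_cast
      refine mul_dvd_mul h4 ?_
      rw [sub_neg_eq_add]
      exact_mod_cast hA1
    exact_mod_cast h6

theorem two_pow_half {p : ℕ} [Fact p.Prime] (h : p % 8 = 3 ∨ p % 8 = 5) :
    (2 : ZMod p) ^ (p / 2) = -1 := by
  have hp2 : p ≠ 2 := by rintro rfl; omega
  have h1 := legendreSym.eq_pow p 2
  have h2 := legendreSym.at_two hp2
  have h3 : ZMod.χ₈ (p : ZMod 8) = -1 := by
    rw [ZMod.χ₈_nat_eq_if_mod_eight]
    rcases h with h | h
    · rw [if_neg (by omega), if_neg (by omega)]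
    · rw [if_neg (by omega), if_neg (by omega)]
  rw [h2, h3] at h1
  push_cast at h1
  exact h1.symm

theorem three_pow_half {p : ℕ} [Fact p.Prime] (h : p % 24 = 19 ∨ p % 24 = 5) :
    (3 : ZMod p) ^ (p / 2) = -1 := by
  have hp2 : p ≠ 2 := by rintro rfl; omega
  have h1 := legendreSym.eq_pow p 3
  have h3 : legendreSym p 3 = -1 := by
    rcases h with h | h
    · have h4 := legendreSym.quadratic_reciprocity_three_mod_four (p := 3) (q := p) (by norm_num)
        (by omega)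
      have h5 : legendreSym 3 (p : ℤ) = 1 := by
        rw [legendreSym.mod]
        have : (p : ℤ) % (3 : ℕ) = 1 := by omega
        rw [this]
        exact legendreSym.at_one (p := 3)
      have h6 := legendreSym.quadratic_reciprocity_three_mod_four (p := p) (q := 3) (by omega)
        (by norm_num)
      rw [h5] at h6
      push_cast at h6 h4
      omega
    · have h4 := legendreSym.quadratic_reciprocity_one_mod_four (p := p) (q := 3) (by omega)
        (by norm_num)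
      have h5 : legendreSym 3 (p : ℤ) = -1 := by
        rw [legendreSym.mod]
        have : (p : ℤ) % (3 : ℕ) = 2 := by omega
        rw [this]
        decide
      rw [h5] at h4
      push_cast at h4
      exact h4.symm
  rw [h3] at h1
  push_cast at h1
  exact h1.symm

/-- The contradiction between `3^(s r) = -1` and `3^(s m) = 1`, `m` odd. -/
theorem clash {p : ℕ} [Fact p.Prime] (hp2 : p ≠ 2) {x : ZMod p} {s r m : ℕ} (hm : Odd m)
    (h1 : x ^ (s * r) = -1) (h2 : x ^ (s * m) = 1) : False := by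
  have h3 : (x ^ (s * r)) ^ m = (x ^ (s * m)) ^ r := by
    rw [← pow_mul, ← pow_mul]; ring_nf
  rw [h1, h2, one_pow, hm.neg_one_pow] at h3
  have h4 : (2 : ZMod p) = 0 := by linear_combination -h3
  have h5 : ((2 : ℕ) : ZMod p) = 0 := by exact_mod_cast h4
  rw [ZMod.natCast_eq_zero_iff] at h5
  exact hp2 ((Nat.prime_dvd_prime_iff_eq Fact.out Nat.prime_two).1 h5)

theorem pow_eq_neg_one_of_dvd {q B m : ℕ} (h : q ∣ B ^ m + 1) : (B : ZMod q) ^ m = -1 := by
  have h1 : ((B ^ m + 1 : ℕ) : ZMod q) = 0 := (ZMod.natCast_eq_zero_iff _ _).2 h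
  push_cast at h1
  linear_combination h1

theorem dvd_of_pow_eq_neg_one {q B m : ℕ} (h : (B : ZMod q) ^ m = -1) : q ∣ B ^ m + 1 := by
  rw [← ZMod.natCast_eq_zero_iff]
  push_cast
  rw [h]; ring

/-- Numbers composed of primes `3` modulo `8`. -/
theorem three_mod_eight {q : ℕ} (hq : q ≠ 0) (h : ∀ p : ℕ, p.Prime → p ∣ q → p % 8 = 3) :
    ∃ m, Odd m ∧ (2 : ZMod q) ^ m = -1 := by
  obtain ⟨m, hm, h1⟩ := exists_odd_pow 2 even_two q hq (by
    intro p hp hpq
    have h2 := h p hp hpq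
    have : Fact p.Prime := ⟨hp⟩
    refine ⟨p / 2, ?_, ?_⟩
    · rw [Nat.odd_iff]; omega
    · exact dvd_of_pow_eq_neg_one (by exact_mod_cast two_pow_half (Or.inl h2)))
  exact ⟨m, hm, by exact_mod_cast pow_eq_neg_one_of_dvd h1⟩

/-- Numbers composed of primes `5` modulo `8`. -/
theorem five_mod_eight {q : ℕ} (hq : q ≠ 0) (h : ∀ p : ℕ, p.Prime → p ∣ q → p % 8 = 5) :
    ∃ m, Odd m ∧ (2 : ZMod q) ^ (2 * m) = -1 := by
  obtain ⟨m, hm, h1⟩ := exists_odd_pow 4 (by decide) q hq (by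
    intro p hp hpq
    have h2 := h p hp hpq
    have : Fact p.Prime := ⟨hp⟩
    refine ⟨p / 4, ?_, ?_⟩
    · rw [Nat.odd_iff]; omega
    · apply dvd_of_pow_eq_neg_one
      have h3 := two_pow_half (p := p) (Or.inr h2)
      have h4 : p / 2 = 2 * (p / 4) := by omega
      rw [h4, pow_mul] at h3
      have h5 : ((4 : ℕ) : ZMod p) = 2 ^ 2 := by norm_num
      rw [h5]; exact h3)
  refine ⟨m, hm, ?_⟩
  have h2 := pow_eq_neg_one_of_dvd h1
  have h5 : ((4 : ℕ) : ZMod q) = 2 ^ 2 := by norm_num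
  rw [h5, ← pow_mul] at h2
  exact h2

/-- The arithmetic of the orders excludes prime factors `19` modulo `24` next to primes `3` modulo
`8`, and `5` modulo `24` next to primes `5` modulo `8`. -/
theorem no_class {q Q : ℕ} (hq : q ≠ 0)
    (hQ : ∀ p : ℕ, p.Prime → p ≠ 3 → p ∣ q → p ∣ Q)
    (hord : (∃ j : ℕ, (2 : ZMod q) ^ j = -1) →
      2 * orderOf (3 : ZMod Q) ∣ orderOf (2 : ZMod q)) :
    ((∀ p : ℕ, p.Prime → p ∣ q → p % 8 = 3) → ∀ p : ℕ, p.Prime → p ∣ q → p % 24 ≠ 19) ∧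
    ((∀ p : ℕ, p.Prime → p ∣ q → p % 8 = 5) → ∀ p : ℕ, p.Prime → p ∣ q → p % 24 ≠ 5) := by
  refine ⟨fun h p hp hpq hp24 => ?_, fun h p hp hpq hp24 => ?_⟩
  · have : Fact p.Prime := ⟨hp⟩
    obtain ⟨m, hm, h1⟩ := three_mod_eight hq h
    have h2 := hord ⟨m, h1⟩
    have h3 : orderOf (2 : ZMod q) ∣ 2 * m := by
      apply orderOf_dvd_of_pow_eq_one
      rw [mul_comm, pow_mul, h1]; ring
    have h4 : orderOf (3 : ZMod Q) ∣ m := Nat.dvd_of_mul_dvd_mul_left two_pos (h2.trans h3)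
    have h5 : (3 : ZMod Q) ^ m = 1 := orderOf_dvd_iff_pow_eq_one.1 h4
    have hp3 : p ≠ 3 := by rintro rfl; omega
    have h6 : (3 : ZMod p) ^ m = 1 := by
      have h7 := congrArg (ZMod.castHom (hQ p hp hp3 hpq) (ZMod p)) h5
      rw [map_pow, map_one, map_ofNat] at h7
      exact h7
    exact clash (p := p) (s := 1) (r := p / 2) (by rintro rfl; omega) hm
      (by rw [one_mul]; exact three_pow_half (Or.inl hp24)) (by rw [one_mul]; exact h6)
  · have : Fact p.Prime := ⟨hp⟩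
    obtain ⟨m, hm, h1⟩ := five_mod_eight hq h
    have h2 := hord ⟨2 * m, h1⟩
    have h3 : orderOf (2 : ZMod q) ∣ 2 * (2 * m) := by
      apply orderOf_dvd_of_pow_eq_one
      rw [mul_comm 2 (2 * m), pow_mul, h1]; ring
    have h4 : orderOf (3 : ZMod Q) ∣ 2 * m := Nat.dvd_of_mul_dvd_mul_left two_pos (h2.trans h3)
    have h5 : (3 : ZMod Q) ^ (2 * m) = 1 := orderOf_dvd_iff_pow_eq_one.1 h4
    have hp3 : p ≠ 3 := by rintro rfl; omega
    have h6 : (3 : ZMod p) ^ (2 * m) = 1 := by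
      have h7 := congrArg (ZMod.castHom (hQ p hp hp3 hpq) (ZMod p)) h5
      rw [map_pow, map_one, map_ofNat] at h7
      exact h7
    have h8 : p / 2 = 2 * (p / 4) := by omega
    exact clash (p := p) (s := 2) (r := p / 4) (by rintro rfl; omega) hm
      (by rw [← h8]; exact three_pow_half (Or.inr hp24)) h6

end Pool.Agent.Lib.MP_f64c7e_nt.FP
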