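import Pool.Agent.Lib.MP_f64c7e_nt.FP.Defs

/-!
Coalescence: after suitable words the affine map `x ↦ 3^j x + δ` disappears (part 1 of the paper,
finding 4049).
-/

set_option autoImplicit false

namespace Pool.Agent.Lib.MP_f64c7e_nt.FP

namespace Coal

theorem Tw_append {K : Type} [Field K] (w : List Bool) (b : Bool) (x : K) :
    Tw (w ++ [b]) x = Tw w (T b x) := by
  induction w with
  | nil => rfl
  | cons a w ih =>
    show T a (Tw (w ++ [b]) x) = T a (Tw w (T b x))
    rw [ih]

theorem T_injective {K : Type} [Field K] [CharZero K] (b : Bool) {x y : K}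
    (h : T b x = T b y) : x = y := by
  have h2 : (2 : K) ≠ 0 := two_ne_zero
  have h3 : (3 : K) ≠ 0 := three_ne_zero
  cases b
  · have h' : x / 2 = y / 2 := by simpa [T] using h
    field_simp at h'
    exact h'
  · have h' : (3 * x + 1) / 2 = (3 * y + 1) / 2 := by simpa [T] using h
    have h4 : 3 * x + 1 = 3 * y + 1 := by
      field_simp at h'
      exact h'
    have h5 : 3 * x = 3 * y := by linear_combination h4
    exact mul_left_cancel₀ h3 h5

theorem Tw_injective {K : Type} [Field K] [CharZero K] (w : List Bool) {x y : K}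
    (h : Tw w x = Tw w y) : x = y := by
  induction w with
  | nil => exact h
  | cons a w ih => exact ih (T_injective a h)

/-- Two words of the same length absorb the map `(j, δ)`. -/
def P (j : ℕ) (δ : ℤ) : Prop := ∃ w v : List Bool, w.length = v.length ∧
  ∀ (K : Type) [Field K] [CharZero K] (x : K), Tw w (3 ^ j * x + (δ : K)) = Tw v x

theorem P_zero : P 0 0 := ⟨[], [], rfl, fun K _ _ x => by simp [Tw]⟩

theorem P_step {j j' : ℕ} {δ δ' : ℤ} (a b : Bool) (h : P j' δ')
    (hs : ∀ (K : Type) [Field K] [CharZero K] (x : K),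
      T a (3 ^ j * x + (δ : K)) = 3 ^ j' * T b x + (δ' : K)) : P j δ := by
  obtain ⟨w, v, hl, hw⟩ := h
  refine ⟨w ++ [a], v ++ [b], by simp [hl], fun K _ _ x => ?_⟩
  rw [Tw_append, Tw_append, hs K x, hw K (T b x)]

theorem P_neg {δ : ℤ} (h : P 0 δ) : P 0 (-δ) := by
  obtain ⟨w, v, hl, hw⟩ := h
  refine ⟨v, w, hl.symm, fun K _ _ x => ?_⟩
  have h1 := hw K (x + ((-δ : ℤ) : K))
  have h2 : (3 : K) ^ 0 * (x + ((-δ : ℤ) : K)) + (δ : K) = x := by push_cast; ring
  rw [h2] at h1
  have h3 : (3 : K) ^ 0 * x + ((-δ : ℤ) : K) = x + ((-δ : ℤ) : K) := by ring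
  rw [h3, ← h1]

theorem P_even {j : ℕ} {e : ℤ} (h : P j e) : P j (2 * e) :=
  P_step false false h fun K _ _ x => by
    have h2 : (2 : K) ≠ 0 := two_ne_zero
    simp only [T, Bool.false_eq_true, if_false]
    push_cast
    field_simp

theorem P_down {i : ℕ} {e : ℤ} (h : P i e) : P (i + 1) (3 ^ i + 2 * e) :=
  P_step false true h fun K _ _ x => by
    have h2 : (2 : K) ≠ 0 := two_ne_zero
    simp only [T, Bool.false_eq_true, if_false, if_true]
    push_cast
    field_simp
    ring

theorem P_both {j : ℕ} {e : ℤ} (he : 2 * e = 1 - 3 ^ j) (h : P j e) : P j 0 :=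
  P_step true true h fun K _ _ x => by
    have h2 : (2 : K) ≠ 0 := two_ne_zero
    have h3 : (2 : K) * (e : K) = 1 - 3 ^ j := by exact_mod_cast congrArg (Int.cast : ℤ → K) he
    simp only [T, if_true]
    push_cast
    field_simp
    linear_combination (-1 : K) * h3

theorem P_up {δ e : ℤ} (he : 2 * e = 3 * δ + 1) (h : P 1 e) : P 0 δ :=
  P_step true false h fun K _ _ x => by
    have h2 : (2 : K) ≠ 0 := two_ne_zero
    have h3 : (2 : K) * (e : K) = 3 * (δ : K) + 1 := by
      exact_mod_cast congrArg (Int.cast : ℤ → K) he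
    simp only [T, Bool.false_eq_true, if_false, if_true]
    field_simp
    linear_combination (-1 : K) * h3

theorem P_one (n : ℕ) (ih : ∀ m : ℕ, m < n → P 0 (m : ℤ)) :
    ∀ e : ℕ, 0 < e → e < 2 * n + 1 → P 1 (e : ℤ) := by
  intro e
  induction e using Nat.strong_induction_on with
  | _ e ihe =>
    intro h0 h1
    rcases Nat.even_or_odd' e with ⟨f, hf | hf⟩
    · have h := P_even (ihe f (by omega) (by omega) (by omega))
      rw [hf]
      push_cast
      exact h
    · have h := P_down (ih f (by omega))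
      rw [hf]
      have h2 : ((2 * f + 1 : ℕ) : ℤ) = 3 ^ 0 + 2 * (f : ℤ) := by push_cast; ring
      rw [h2]
      exact h

theorem P_nat (n : ℕ) : P 0 (n : ℤ) := by
  induction n using Nat.strong_induction_on with
  | _ n ih =>
    rcases Nat.eq_zero_or_pos n with h0 | h0
    · rw [h0]; exact P_zero
    · rcases Nat.even_or_odd' n with ⟨f, hf | hf⟩
      · have h := P_even (ih f (by omega))
        rw [hf]
        push_cast
        exact h
      · have h := P_one n ih (3 * f + 2) (by omega) (by omega)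
        refine P_up ?_ h
        rw [hf]
        push_cast
        ring

theorem P_int (δ : ℤ) : P 0 δ := by
  rcases Int.eq_nat_or_neg δ with ⟨n, h | h⟩
  · rw [h]; exact P_nat n
  · rw [h]; exact P_neg (P_nat n)

theorem P_ne (j : ℕ) (ih : ∀ δ : ℤ, P j δ) : ∀ (n : ℕ) (δ : ℤ), δ.natAbs = n → δ ≠ 0 →
    P (j + 1) δ := by
  intro n
  induction n using Nat.strong_induction_on with
  | _ n ihn =>
    intro δ hn h0
    rcases Int.even_or_odd' δ with ⟨f, hf | hf⟩
    · have h := P_even (ihn f.natAbs (by omega) f rfl (by omega))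
      rw [hf]
      exact h
    · have ho : Odd ((3 : ℤ) ^ j) := Odd.pow (by decide)
      obtain ⟨m, hm⟩ := ho
      have h := P_down (ih (f - m))
      have h2 : δ = 3 ^ j + 2 * (f - m) := by rw [hf, hm]; ring
      rw [h2]
      exact h

theorem P_all (j : ℕ) : ∀ δ : ℤ, P j δ := by
  induction j with
  | zero => exact P_int
  | succ j ih =>
    intro δ
    by_cases h0 : δ = 0
    · have ho : Odd ((3 : ℤ) ^ (j + 1)) := Odd.pow (by decide)
      obtain ⟨m, hm⟩ := ho
      have h1 : (1 : ℤ) < 3 ^ (j + 1) := one_lt_pow₀ (by norm_num) (by omega)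
      rw [h0]
      refine P_both (e := -m) (by rw [hm]; ring) (P_ne j ih _ (-m) rfl ?_)
      omega
    · exact P_ne j ih _ δ rfl h0

end Coal

/-- Coalescence. -/
theorem coal (j : ℕ) (δ : ℤ) (h : ¬ (j = 0 ∧ δ = 0)) : ∃ w v : List Bool,
    w.length = v.length ∧ w ≠ v ∧
      ∀ (K : Type) [Field K] [CharZero K] (x : K), Tw w (3 ^ j * x + (δ : K)) = Tw v x := by
  obtain ⟨w, v, hl, hw⟩ := Coal.P_all j δ
  refine ⟨w, v, hl, ?_, hw⟩
  rintro rfl
  apply h
  have h0 : (3 : ℚ) ^ j * 0 + (δ : ℚ) = 0 := Coal.Tw_injective w (hw ℚ 0)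
  have h1 : (3 : ℚ) ^ j * 1 + (δ : ℚ) = 1 := Coal.Tw_injective w (hw ℚ 1)
  have hδ : δ = 0 := by
    have : (δ : ℚ) = 0 := by linarith
    exact_mod_cast this
  refine ⟨?_, hδ⟩
  by_contra hj
  have h2 : (1 : ℚ) < 3 ^ j := one_lt_pow₀ (by norm_num) hj
  rw [hδ] at h1
  push_cast at h1
  linarith

end Pool.Agent.Lib.MP_f64c7e_nt.FP
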