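import Pool.Agent.Lib.MP_f64c7e_nt.FP.Defs

/-!
Equidistribution of cosets of large subgroups of `(ℤ/Q)ˣ` in `ℝ/ℤ` (helper94).

Parseval on `ℤ/Q` and the size of the orbit give square-root cancellation for the exponential sum
over a coset of a subgroup; the passage to intervals is the density of trigonometric polynomials.
-/

set_option autoImplicit false

open MeasureTheory

namespace Pool.Agent.Lib.MP_f64c7e_nt.FP

namespace Eq94

lemma card_ann (Q : ℕ) [NeZero Q] (m : ℤ) (hm : m ≠ 0) :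
    (Finset.univ.filter fun x : ZMod Q => (m : ZMod Q) * x = 0).card ≤ m.natAbs := by
  classical
  have h : (Finset.univ.filter fun x : ZMod Q => (m : ZMod Q) * x = 0)
      = (Finset.univ.filter fun x : ZMod Q => m.natAbs • x = 0) := by
    ext x
    simp only [Finset.mem_filter, Finset.mem_univ, true_and]
    rw [nsmul_eq_mul]
    rcases Int.natAbs_eq m with h | h
    · rw [h]; simp
    · rw [h]; simp
  rw [h]
  exact IsAddCyclic.card_nsmul_eq_zero_le (Int.natAbs_pos.2 hm)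

lemma expsum (Q : ℕ) [NeZero Q] (Γ : Subgroup (ZMod Q)ˣ) [Fintype Γ] (b₀ : (ZMod Q)ˣ) (m : ℤ) (hm : m ≠ 0) :
    ‖∑ g : Γ, ZMod.stdAddChar ((m : ZMod Q) * ((b₀ * (g : (ZMod Q)ˣ) : (ZMod Q)ˣ) : ZMod Q))‖ ^ 2
      ≤ (m.natAbs : ℝ) * Q := by
  classical
  set n : ℕ := Fintype.card Γ with hn
  have hn0 : 0 < n := Fintype.card_pos
  set f : ZMod Q → ℂ := fun t => ∑ g : Γ,
    ZMod.stdAddChar ((m : ZMod Q) * (t * (((g : (ZMod Q)ˣ)) : ZMod Q))) with hf
  have h0 : (∑ g : Γ, ZMod.stdAddChar ((m : ZMod Q) * ((b₀ * (g : (ZMod Q)ˣ) : (ZMod Q)ˣ) : ZMod Q)))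
      = f b₀ := by
    simp only [hf, Units.val_mul]
  rw [h0]
  have hinv : ∀ γ : Γ, f ((b₀ : ZMod Q) * ((γ : (ZMod Q)ˣ) : ZMod Q)) = f b₀ := by
    intro γ
    simp only [hf]
    refine Fintype.sum_equiv (Equiv.mulLeft γ) _ _ ?_
    intro g
    simp only [Equiv.coe_mulLeft, Subgroup.coe_mul, Units.val_mul]
    congr 1
    ring
  have hle : (n : ℝ) * ‖f b₀‖ ^ 2 ≤ ∑ t : ZMod Q, ‖f t‖ ^ 2 := by
    have h1 : (n : ℝ) * ‖f b₀‖ ^ 2
        = ∑ γ : Γ, ‖f ((b₀ : ZMod Q) * ((γ : (ZMod Q)ˣ) : ZMod Q))‖ ^ 2 := by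
      simp only [hinv]
      simp [hn]
    rw [h1]
    have hinj : Function.Injective
        (fun γ : Γ => (b₀ : ZMod Q) * ((γ : (ZMod Q)ˣ) : ZMod Q)) := by
      intro a b hab
      have := (Units.mul_right_inj b₀).1 hab
      exact Subtype.ext (Units.ext this)
    rw [← Finset.sum_image (s := Finset.univ)
      (g := fun γ : Γ => (b₀ : ZMod Q) * ((γ : (ZMod Q)ˣ) : ZMod Q))
      (f := fun t => ‖f t‖ ^ 2) (fun a _ b _ hab => hinj hab)]
    exact Finset.sum_le_sum_of_subset_of_nonneg (Finset.subset_univ _) (fun _ _ _ => by positivity)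
  have hpars : ((∑ t : ZMod Q, ‖f t‖ ^ 2 : ℝ) : ℂ)
      = ∑ g : Γ, ∑ g' : Γ, if (m : ZMod Q) * (((g : (ZMod Q)ˣ)) : ZMod Q)
          - (m : ZMod Q) * (((g' : (ZMod Q)ˣ)) : ZMod Q) = 0 then (Q : ℂ) else 0 := by
    have h2 : ∀ t : ZMod Q, ((‖f t‖ ^ 2 : ℝ) : ℂ) = ∑ g : Γ, ∑ g' : Γ,
        ZMod.stdAddChar (t * ((m : ZMod Q) * (((g : (ZMod Q)ˣ)) : ZMod Q)
          - (m : ZMod Q) * (((g' : (ZMod Q)ˣ)) : ZMod Q))) := by
      intro t
      have h3 : ((‖f t‖ ^ 2 : ℝ) : ℂ) = f t * (starRingEnd ℂ) (f t) := by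
        rw [Complex.mul_conj, Complex.normSq_eq_norm_sq]
      rw [h3]
      simp only [hf, map_sum]
      rw [Finset.sum_mul_sum]
      refine Finset.sum_congr rfl fun g _ => Finset.sum_congr rfl fun g' _ => ?_
      have h4 : (starRingEnd ℂ) (ZMod.stdAddChar ((m : ZMod Q) * (t * (((g' : (ZMod Q)ˣ)) : ZMod Q))))
          = ZMod.stdAddChar (-((m : ZMod Q) * (t * (((g' : (ZMod Q)ˣ)) : ZMod Q)))) := by
        rw [AddChar.map_neg_eq_conj]
      rw [h4, ← AddChar.map_add_eq_mul]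
      congr 1
      ring
    push_cast
    have h5 : ∀ t : ZMod Q, ((‖f t‖ : ℂ) ^ 2) = ((‖f t‖ ^ 2 : ℝ) : ℂ) := by
      intro t; push_cast; rfl
    simp only [h5, h2]
    rw [Finset.sum_comm]
    refine Finset.sum_congr rfl fun g _ => ?_
    rw [Finset.sum_comm]
    refine Finset.sum_congr rfl fun g' _ => ?_
    rw [AddChar.sum_mulShift _ (ZMod.isPrimitive_stdAddChar Q)]
    simp [ZMod.card]
  have hcard : ∀ g : Γ, (Finset.univ.filter fun g' : Γ =>
      (m : ZMod Q) * (((g : (ZMod Q)ˣ)) : ZMod Q)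
          - (m : ZMod Q) * (((g' : (ZMod Q)ˣ)) : ZMod Q) = 0).card ≤ m.natAbs := by
    intro g
    refine le_trans ?_ (card_ann Q m hm)
    refine Finset.card_le_card_of_injOn
      (fun g' : Γ => (((g : (ZMod Q)ˣ)) : ZMod Q) - (((g' : (ZMod Q)ˣ)) : ZMod Q)) ?_ ?_
    · intro g' hg'
      simp only [Finset.coe_filter, Finset.mem_univ, true_and, Set.mem_ofPred_eq] at hg' ⊢
      rw [mul_sub]; exact hg'
    · intro a _ b _ hab
      have h6 : (((a : (ZMod Q)ˣ)) : ZMod Q) = (((b : (ZMod Q)ˣ)) : ZMod Q) := by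
        simpa using hab
      exact Subtype.ext (Units.ext h6)
  have hfin : (∑ t : ZMod Q, ‖f t‖ ^ 2 : ℝ) ≤ (n : ℝ) * (m.natAbs * Q) := by
    have h7 : (∑ t : ZMod Q, ‖f t‖ ^ 2 : ℝ)
        = ∑ g : Γ, ∑ g' : Γ, if (m : ZMod Q) * (((g : (ZMod Q)ˣ)) : ZMod Q)
          - (m : ZMod Q) * (((g' : (ZMod Q)ˣ)) : ZMod Q) = 0 then (Q : ℝ) else 0 := by
      have := hpars
      apply Complex.ofReal_injective
      rw [this]
      push_cast
      refine Finset.sum_congr rfl fun g _ => Finset.sum_congr rfl fun g' _ => ?_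
      split_ifs <;> simp
    rw [h7]
    calc (∑ g : Γ, ∑ g' : Γ, if (m : ZMod Q) * (((g : (ZMod Q)ˣ)) : ZMod Q)
          - (m : ZMod Q) * (((g' : (ZMod Q)ˣ)) : ZMod Q) = 0 then (Q : ℝ) else 0)
        ≤ ∑ g : Γ, (m.natAbs : ℝ) * Q := by
          refine Finset.sum_le_sum fun g _ => ?_
          rw [← Finset.sum_filter, Finset.sum_const, nsmul_eq_mul]
          have := hcard g
          gcongr
      _ = (n : ℝ) * (m.natAbs * Q) := by simp [hn]
  have hlast : (n : ℝ) * ‖f b₀‖ ^ 2 ≤ (n : ℝ) * (m.natAbs * Q) := hle.trans hfin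
  exact le_of_mul_le_mul_left hlast (by exact_mod_cast hn0)

/-- The mean of `φ` over the shifted coset `b₀ Γ / Q - z` is close to the integral of `φ` as soon
as `|Γ| ≥ ρ √Q`. -/
def P (φ : C(UnitAddCircle, ℂ)) : Prop :=
  ∀ ε : ℝ, 0 < ε → ∃ ρ : ℝ, 0 < ρ ∧ ∀ (Q : ℕ) [NeZero Q] (Γ : Subgroup (ZMod Q)ˣ) [Fintype Γ]
    (b₀ : (ZMod Q)ˣ) (z : UnitAddCircle), ρ * √Q ≤ Fintype.card Γ →
    ‖(∑ g : Γ, φ (ZMod.toAddCircle ((b₀ * (g : (ZMod Q)ˣ) : (ZMod Q)ˣ) : ZMod Q) - z))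
      - Fintype.card Γ * ∫ x, φ x ∂(AddCircle.haarAddCircle)‖ ≤ ε * Fintype.card Γ

lemma int_fourier (m : ℤ) (hm : m ≠ 0) :
    ∫ x : UnitAddCircle, fourier m x ∂(AddCircle.haarAddCircle) = 0 := by
  have h := congrFun (fourierCoeff_fourier (T := (1 : ℝ)) m) 0
  rw [fourierCoeff] at h
  simpa [Pi.single_apply, hm, hm.symm] using h

lemma P_fourier (m : ℤ) : P (fourier m) := by
  intro ε hε
  by_cases hm : m = 0
  · subst hm
    refine ⟨1, one_pos, ?_⟩
    intro Q _ Γ _ b₀ z _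
    simp
    positivity
  · refine ⟨√(m.natAbs) / ε, ?_, ?_⟩
    · have : 0 < m.natAbs := Int.natAbs_pos.2 hm
      positivity
    · intro Q _ Γ _ b₀ z hΓ
      rw [int_fourier m hm, mul_zero, sub_zero]
      have h1 : ∀ g : Γ, fourier m
          (ZMod.toAddCircle ((b₀ * (g : (ZMod Q)ˣ) : (ZMod Q)ˣ) : ZMod Q) - z)
          = ZMod.stdAddChar ((m : ZMod Q) * ((b₀ * (g : (ZMod Q)ˣ) : (ZMod Q)ˣ) : ZMod Q))
            * fourier m (-z) := by
        intro g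
        rw [sub_eq_add_neg, fourier_apply, fourier_apply, smul_add, AddCircle.toCircle_add]
        rw [← zsmul_eq_mul, ← map_zsmul, ZMod.stdAddChar_apply]
        rfl
      simp only [h1]
      rw [← Finset.sum_mul, norm_mul]
      have h2 : ‖fourier m (-z)‖ = 1 := by
        rw [fourier_apply]; exact Circle.norm_coe _
      rw [h2, mul_one]
      have h3 := expsum Q Γ b₀ m hm
      have h4 : ‖∑ g : Γ, ZMod.stdAddChar ((m : ZMod Q) * ((b₀ * (g : (ZMod Q)ˣ) : (ZMod Q)ˣ) : ZMod Q))‖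
          ≤ √((m.natAbs : ℝ) * Q) := Real.le_sqrt_of_sq_le h3
      refine h4.trans ?_
      rw [Real.sqrt_mul (by positivity)]
      rw [div_mul_eq_mul_div, div_le_iff₀ hε] at hΓ
      linarith

lemma P_zero : P 0 := by
  intro ε hε
  refine ⟨1, one_pos, ?_⟩
  intro Q _ Γ _ b₀ z _
  simp
  positivity

lemma integrable_C (φ : C(UnitAddCircle, ℂ)) :
    Integrable (fun x => φ x) (AddCircle.haarAddCircle) :=
  φ.continuous.integrable_of_hasCompactSupport (HasCompactSupport.of_compactSpace _)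

lemma P_add {φ ψ : C(UnitAddCircle, ℂ)} (h1 : P φ) (h2 : P ψ) : P (φ + ψ) := by
  intro ε hε
  obtain ⟨ρ₁, hρ₁, H1⟩ := h1 (ε / 2) (by positivity)
  obtain ⟨ρ₂, hρ₂, H2⟩ := h2 (ε / 2) (by positivity)
  refine ⟨max ρ₁ ρ₂, lt_max_of_lt_left hρ₁, ?_⟩
  intro Q _ Γ _ b₀ z hΓ
  have e1 := H1 Q Γ b₀ z (le_trans (by gcongr; exact le_max_left _ _) hΓ)
  have e2 := H2 Q Γ b₀ z (le_trans (by gcongr; exact le_max_right _ _) hΓ)
  simp only [ContinuousMap.add_apply]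
  rw [integral_add (integrable_C φ) (integrable_C ψ), Finset.sum_add_distrib]
  have e3 : ∀ a b c d n : ℂ, a + b - n * (c + d) = (a - n * c) + (b - n * d) := by
    intros; ring
  rw [e3]
  refine (norm_add_le _ _).trans ?_
  linarith

lemma P_smul {φ : C(UnitAddCircle, ℂ)} (c : ℂ) (h1 : P φ) : P (c • φ) := by
  intro ε hε
  obtain ⟨ρ₁, hρ₁, H1⟩ := h1 (ε / (‖c‖ + 1)) (by positivity)
  refine ⟨ρ₁, hρ₁, ?_⟩
  intro Q _ Γ _ b₀ z hΓ
  have e1 := H1 Q Γ b₀ z hΓ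
  simp only [ContinuousMap.smul_apply, smul_eq_mul]
  rw [integral_const_mul, ← Finset.mul_sum]
  have e3 : ∀ a b n : ℂ, c * a - n * (c * b) = c * (a - n * b) := by
    intros; ring
  rw [e3, norm_mul]
  have hc : ‖c‖ * (ε / (‖c‖ + 1)) ≤ ε := by
    rw [← mul_div_assoc, div_le_iff₀ (by positivity)]
    nlinarith [norm_nonneg c]
  calc ‖c‖ * _ ≤ ‖c‖ * (ε / (‖c‖ + 1) * Fintype.card Γ) := by gcongr
    _ = (‖c‖ * (ε / (‖c‖ + 1))) * Fintype.card Γ := by ring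
    _ ≤ ε * Fintype.card Γ := by gcongr

lemma P_span (φ : C(UnitAddCircle, ℂ))
    (h : φ ∈ Submodule.span ℂ (Set.range (fun m : ℤ => (fourier m : C(UnitAddCircle, ℂ))))) :
    P φ := by
  induction h using Submodule.span_induction with
  | mem x hx =>
    obtain ⟨m, rfl⟩ := hx
    exact P_fourier m
  | zero => exact P_zero
  | add x y _ _ hx hy => exact P_add hx hy
  | smul a x _ hx => exact P_smul a hx

lemma P_all (φ : C(UnitAddCircle, ℂ)) : P φ := by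
  intro ε hε
  have hmem : φ ∈ closure ((Submodule.span ℂ
      (Set.range (fun m : ℤ => (fourier m : C(UnitAddCircle, ℂ)))) :
        Submodule ℂ C(UnitAddCircle, ℂ)) : Set C(UnitAddCircle, ℂ)) := by
    have h := span_fourier_closure_eq_top (T := (1 : ℝ))
    rw [← Submodule.topologicalClosure_coe, h]
    trivial
  obtain ⟨ψ, hψ, hd⟩ := Metric.mem_closure_iff.1 hmem (ε / 3) (by positivity)
  obtain ⟨ρ, hρ, H⟩ := P_span ψ hψ (ε / 3) (by positivity)
  refine ⟨ρ, hρ, ?_⟩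
  intro Q _ Γ _ b₀ z hΓ
  have e1 := H Q Γ b₀ z hΓ
  have hpt : ∀ x, ‖φ x - ψ x‖ ≤ ε / 3 := by
    intro x
    have := ContinuousMap.dist_apply_le_dist (f := φ) (g := ψ) x
    rw [dist_eq_norm] at this
    linarith
  have h2 : ‖(∑ g : Γ, φ (ZMod.toAddCircle ((b₀ * (g : (ZMod Q)ˣ) : (ZMod Q)ˣ) : ZMod Q) - z))
      - ∑ g : Γ, ψ (ZMod.toAddCircle ((b₀ * (g : (ZMod Q)ˣ) : (ZMod Q)ˣ) : ZMod Q) - z)‖
      ≤ (ε / 3) * Fintype.card Γ := by
    rw [← Finset.sum_sub_distrib]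
    refine (norm_sum_le _ _).trans ?_
    refine (Finset.sum_le_sum fun g _ => hpt _).trans ?_
    simp
    linarith
  have h3 : ‖(∫ x, φ x ∂(AddCircle.haarAddCircle)) - ∫ x, ψ x ∂(AddCircle.haarAddCircle)‖
      ≤ ε / 3 := by
    rw [← integral_sub (integrable_C φ) (integrable_C ψ)]
    refine (norm_integral_le_of_norm_le_const (Filter.Eventually.of_forall hpt)).trans ?_
    simp
  set A := (∑ g : Γ, φ (ZMod.toAddCircle ((b₀ * (g : (ZMod Q)ˣ) : (ZMod Q)ˣ) : ZMod Q) - z))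
  set B := (∑ g : Γ, ψ (ZMod.toAddCircle ((b₀ * (g : (ZMod Q)ˣ) : (ZMod Q)ˣ) : ZMod Q) - z))
  set I := ∫ x, φ x ∂(AddCircle.haarAddCircle)
  set J := ∫ x, ψ x ∂(AddCircle.haarAddCircle)
  have e3 : A - Fintype.card Γ * I = (A - B) + (B - Fintype.card Γ * J)
      - Fintype.card Γ * (I - J) := by ring
  rw [e3]
  refine (norm_sub_le _ _).trans ?_
  have e4 : ‖(Fintype.card Γ : ℂ) * (I - J)‖ ≤ (ε / 3) * Fintype.card Γ := by
    rw [norm_mul, Complex.norm_natCast, mul_comm]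
    gcongr
  have e5 := norm_add_le (A - B) (B - Fintype.card Γ * J)
  linarith

end Eq94

/-- **Equidistribution of cosets of large subgroups of `(ℤ/Q)ˣ`**: for `|Γ| ≥ ρ √Q` an interval
of length `τ` of the circle contains at most `(τ + η) |Γ|` points of `b₀ Γ / Q`. -/
theorem equi (τ η : ℝ) (hτ : 0 < τ) (hη : 0 < η) : ∃ ρ : ℝ, 0 < ρ ∧ ∀ (Q : ℕ) [NeZero Q]
    (Γ : Subgroup (ZMod Q)ˣ) (b₀ : (ZMod Q)ˣ) (z : ℝ), ρ * √Q ≤ Nat.card Γ →
    (Nat.card {g : Γ // ∃ t : ℝ, z ≤ t ∧ t ≤ z + τ ∧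
      ZMod.toAddCircle ((b₀ * (g : (ZMod Q)ˣ) : (ZMod Q)ˣ) : ZMod Q) = (t : UnitAddCircle)} : ℝ)
      ≤ (τ + η) * Nat.card Γ := by
  classical
  set δ : ℝ := η / 4 with hδ
  have hδ0 : 0 < δ := by positivity
  let φr : UnitAddCircle → ℝ := fun x => max 0 (min 1 ((τ / 2 + δ - ‖x‖) / δ))
  have hφr : Continuous φr := by
    refine continuous_const.max (continuous_const.min ?_)
    exact (continuous_const.sub continuous_norm).div_const _
  let φ : C(UnitAddCircle, ℂ) := ⟨fun x => (φr x : ℂ), Complex.continuous_ofReal.comp hφr⟩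
  have hφ0 : ∀ x, 0 ≤ φr x := fun x => le_max_left _ _
  have hφ1 : ∀ x, φr x ≤ 1 := fun x => max_le zero_le_one (min_le_left _ _)
  have hφin : ∀ x : UnitAddCircle, ‖x‖ ≤ τ / 2 → φr x = 1 := by
    intro x hx
    have : 1 ≤ (τ / 2 + δ - ‖x‖) / δ := by
      rw [le_div_iff₀ hδ0]; linarith
    simp only [φr]
    rw [min_eq_left this, max_eq_right zero_le_one]
  have hφout : ∀ x : UnitAddCircle, τ / 2 + δ < ‖x‖ → φr x = 0 := by
    intro x hx
    have : (τ / 2 + δ - ‖x‖) / δ ≤ 0 := by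
      apply div_nonpos_of_nonpos_of_nonneg <;> linarith
    simp only [φr]
    exact max_eq_left ((min_le_right _ _).trans this)
  have hvol : (volume : Measure UnitAddCircle) = AddCircle.haarAddCircle := by
    have := AddCircle.volume_eq_smul_haarAddCircle (T := (1 : ℝ))
    rw [this]; simp
  have hint : ∫ x, φ x ∂(AddCircle.haarAddCircle) = ((∫ x, φr x ∂(volume : Measure UnitAddCircle) : ℝ) : ℂ) := by
    rw [hvol]
    exact integral_complex_ofReal
  have hI0 : 0 ≤ ∫ x, φr x ∂(volume : Measure UnitAddCircle) := integral_nonneg hφ0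
  have hI : ∫ x, φr x ∂(volume : Measure UnitAddCircle) ≤ τ + η / 2 := by
    have h1 : ∀ x, φr x ≤ (Metric.closedBall (0 : UnitAddCircle) (τ / 2 + δ)).indicator 1 x := by
      intro x
      by_cases hx : ‖x‖ ≤ τ / 2 + δ
      · rw [Set.indicator_of_mem (by simpa using hx)]
        exact hφ1 x
      · rw [hφout x (not_le.1 hx)]
        exact Set.indicator_nonneg (fun _ _ => zero_le_one) x
    have h2 : ∫ x, φr x ∂(volume : Measure UnitAddCircle)
        ≤ ∫ x, (Metric.closedBall (0 : UnitAddCircle) (τ / 2 + δ)).indicator 1 x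
            ∂(volume : Measure UnitAddCircle) := by
      refine integral_mono ?_ ?_ h1
      · exact hφr.integrable_of_hasCompactSupport (HasCompactSupport.of_compactSpace _)
      · exact (integrable_const (1 : ℝ)).indicator measurableSet_closedBall
    refine h2.trans ?_
    rw [integral_indicator_one measurableSet_closedBall, Measure.real,
      AddCircle.volume_closedBall]
    rw [ENNReal.toReal_ofReal (by positivity)]
    refine (min_le_right _ _).trans ?_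
    rw [hδ]; linarith
  obtain ⟨ρ, hρ, H⟩ := Eq94.P_all φ (η / 2) (by positivity)
  refine ⟨ρ, hρ, ?_⟩
  intro Q _ Γ b₀ z hΓ
  rw [Nat.card_eq_fintype_card (α := Γ)] at hΓ ⊢
  have e1 := H Q Γ b₀ ((z + τ / 2 : ℝ) : UnitAddCircle) hΓ
  have hS : (∑ g : Γ, φ (ZMod.toAddCircle ((b₀ * (g : (ZMod Q)ˣ) : (ZMod Q)ˣ) : ZMod Q)
      - ((z + τ / 2 : ℝ) : UnitAddCircle)))
      = ((∑ g : Γ, φr (ZMod.toAddCircle ((b₀ * (g : (ZMod Q)ˣ) : (ZMod Q)ˣ) : ZMod Q)
      - ((z + τ / 2 : ℝ) : UnitAddCircle)) : ℝ) : ℂ) := by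
    push_cast
    rfl
  rw [hS, hint] at e1
  have e2 : ‖(((∑ g : Γ, φr (ZMod.toAddCircle ((b₀ * (g : (ZMod Q)ˣ) : (ZMod Q)ˣ) : ZMod Q)
      - ((z + τ / 2 : ℝ) : UnitAddCircle)))
      - Fintype.card Γ * ∫ x, φr x ∂(volume : Measure UnitAddCircle) : ℝ) : ℂ)‖
      ≤ η / 2 * Fintype.card Γ := by
    push_cast at e1 ⊢
    exact e1
  rw [Complex.norm_real, Real.norm_eq_abs] at e2
  have e3 := (abs_le.1 e2).2
  have e4 : (Nat.card {g : Γ // ∃ t : ℝ, z ≤ t ∧ t ≤ z + τ ∧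
      ZMod.toAddCircle ((b₀ * (g : (ZMod Q)ˣ) : (ZMod Q)ˣ) : ZMod Q) = (t : UnitAddCircle)} : ℝ)
      ≤ ∑ g : Γ, φr (ZMod.toAddCircle ((b₀ * (g : (ZMod Q)ˣ) : (ZMod Q)ˣ) : ZMod Q)
      - ((z + τ / 2 : ℝ) : UnitAddCircle)) := by
    rw [Nat.card_eq_fintype_card, Fintype.card_subtype]
    rw [Finset.card_eq_sum_ones, Nat.cast_sum, Finset.sum_filter]
    refine Finset.sum_le_sum fun g _ => ?_
    split_ifs with hg
    · obtain ⟨t, ht1, ht2, ht⟩ := hg
      rw [ht, ← AddCircle.coe_sub]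
      rw [hφin]
      · simp
      · rw [UnitAddCircle.norm_eq]
        have h6 : |(t - (z + τ / 2)) - round (t - (z + τ / 2))| ≤ |t - (z + τ / 2)| := by
          simpa using round_le (t - (z + τ / 2)) 0
        refine h6.trans ?_
        rw [abs_le]; constructor <;> linarith
    · exact hφ0 _
  have e5 : (Fintype.card Γ : ℝ) * ∫ x, φr x ∂(volume : Measure UnitAddCircle)
      ≤ Fintype.card Γ * (τ + η / 2) := by gcongr
  nlinarith

end Pool.Agent.Lib.MP_f64c7e_nt.FP
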