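import Pool.Agent.Lib.MP_f64c7e_nt.FP.Count20
import Pool.Agent.Lib.MP_f64c7e_nt.FP.Equi

/-!
Counting points of a coset of a large subgroup in a compact set of `ℝ × ℚ₃`.
-/

set_option autoImplicit false

open MeasureTheory

namespace Pool.Agent.Lib.MP_f64c7e_nt.FP

/-- Cosets of large subgroups have at most their share of points in compact sets. -/
theorem count2 (F U : Set X) (hF : IsCompact F) (hU : IsOpen U) (hFU : F ⊆ U) (hfin : vol U ≠ ⊤)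
    (η : ℝ) (hη : 0 < η) : ∃ ρ : ℝ, 0 < ρ ∧ ∀ (Q : ℕ) [NeZero Q] (Γ : Subgroup (ZMod Q)ˣ)
      (b₀ : (ZMod Q)ˣ), Nat.Coprime Q 3 → (∃ g ∈ Γ, ((g : (ZMod Q)ˣ) : ZMod Q) = 3) →
      ρ * √Q ≤ Nat.card Γ → ∀ S : Finset ℤ,
      (∀ b ∈ S, (((b : ℝ) / Q, (b : ℚ_[3]) / Q) : X) ∈ F) →
      (∀ b ∈ S, ∃ g ∈ Γ, (b : ZMod Q) = ((b₀ * g : (ZMod Q)ˣ) : ZMod Q)) →
      (S.card : ℝ) ≤ ((vol U).toReal + η) * Nat.card Γ :=
  count2_of (fun τ η hτ hη => equi τ η hτ hη) F U hF hU hFU hfin η hη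

end Pool.Agent.Lib.MP_f64c7e_nt.FP
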