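import Pool.Agent.Lib.MP_f64c7e_nt.FP.Defs

/-!
Tightness: in a cyclic walk with nearly equidistributed windows of digits, few values `b i / Q`
are large. Potential argument: `log (max (b i / Q + 1) A)` drops by `m * log (8/7)` along a window
of length `5 m` with at most `3 m` ones which starts high, and increases by at most
`5 m * log (3/2)` along every other window.
-/

set_option autoImplicit false

namespace Pool.Agent.Lib.MP_f64c7e_nt.FP

noncomputable section

open Finset

namespace Tight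

/-- Number of ones in the window of length `L` ending at `i`. -/
def ones {n : ℕ} (ε : ZMod n → Bool) (L : ℕ) (i : ZMod n) : ℕ :=
  ∑ m : Fin L, if ε (i - ((m : ℕ) : ZMod n)) = true then 1 else 0

lemma ones_succ {n : ℕ} (ε : ZMod n → Bool) (L : ℕ) (i : ZMod n) :
    ones ε (L + 1) i = ones ε L i + if ε (i - (L : ZMod n)) = true then 1 else 0 := by
  unfold ones
  rw [Fin.sum_univ_castSucc]
  simp only [Fin.val_castSucc, Fin.val_last]

lemma ones_le {n : ℕ} (ε : ZMod n → Bool) (L : ℕ) (i : ZMod n) : ones ε L i ≤ L := by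
  unfold ones
  calc _ ≤ ∑ m : Fin L, 1 := Finset.sum_le_sum fun m _ => by split_ifs <;> simp
    _ = L := by simp

/-- The shifted value. -/
def Y {n : ℕ} (Q : ℕ) (b : ZMod n → ℤ) (i : ZMod n) : ℝ := (b i : ℝ) / Q + 1

variable {L₀ : ℕ} {δ : ℝ} {n Q : ℕ} {ε : ZMod n → Bool} {b : ZMod n → ℤ}

lemma one_le_Y (h : Sys L₀ δ n Q ε b) (i : ZMod n) : 1 ≤ Y Q b i := by
  have h1 : (0 : ℝ) ≤ b i := by exact_mod_cast h.nonneg i
  have h2 : (0 : ℝ) ≤ (b i : ℝ) / Q := div_nonneg h1 (Nat.cast_nonneg _)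
  unfold Y
  linarith

lemma Y_true (h : Sys L₀ δ n Q ε b) {i : ZMod n} (hi : ε i = true) :
    Y Q b i = 3 / 2 * Y Q b (i - 1) := by
  have h1 := h.step i
  rw [if_pos hi] at h1
  have h2 : (2 : ℝ) * b i = 3 * b (i - 1) + Q := by exact_mod_cast h1
  have hQ : (0 : ℝ) < Q := by exact_mod_cast h.Qpos
  unfold Y
  field_simp
  linarith

lemma Y_false (h : Sys L₀ δ n Q ε b) {i : ZMod n} (hi : ¬ ε i = true) :
    Y Q b i = (Y Q b (i - 1) + 1) / 2 := by
  have h1 := h.step i
  rw [if_neg hi] at h1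
  have h2 : (2 : ℝ) * b i = b (i - 1) := by exact_mod_cast h1
  have hQ : (0 : ℝ) < Q := by exact_mod_cast h.Qpos
  unfold Y
  field_simp
  linarith

lemma window (h : Sys L₀ δ n Q ε b) (L : ℕ) (i : ZMod n) :
    Y Q b i ≤ 3 ^ ones ε L i / 2 ^ L * Y Q b (i - (L : ZMod n)) + (3 / 2) ^ L ∧
      Y Q b i ≤ (3 / 2) ^ L * Y Q b (i - (L : ZMod n)) := by
  induction L with
  | zero => simp [ones]
  | succ L ih =>
    obtain ⟨h1, h2⟩ := ih
    have hy := one_le_Y h (i - (L : ZMod n) - 1)
    have hk : (3 : ℝ) ^ ones ε L i ≤ 3 ^ L :=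
      pow_le_pow_right₀ (by norm_num) (ones_le ε L i)
    have hk' : (3 : ℝ) ^ ones ε L i / 2 ^ L ≤ (3 / 2) ^ L := by
      rw [div_pow]; gcongr
    have hp : (0 : ℝ) < 3 ^ ones ε L i / 2 ^ L := by positivity
    have hq : (0 : ℝ) < (3 / 2) ^ L := by positivity
    have hs : (i - ((L + 1 : ℕ) : ZMod n)) = i - (L : ZMod n) - 1 := by push_cast; ring
    rw [hs, ones_succ]
    by_cases hε : ε (i - (L : ZMod n)) = true
    · rw [Y_true h hε] at h1 h2
      rw [if_pos hε]
      constructor
      · calc Y Q b i ≤ _ := h1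
          _ ≤ _ := by
            rw [pow_succ, pow_succ, pow_succ]
            have : (3 : ℝ) ^ ones ε L i / 2 ^ L * (3 / 2 * Y Q b (i - (L : ZMod n) - 1))
              = 3 ^ ones ε L i * 3 / (2 ^ L * 2) * Y Q b (i - (L : ZMod n) - 1) := by
              field_simp
            rw [this]
            linarith
      · calc Y Q b i ≤ _ := h2
          _ = _ := by rw [pow_succ]; ring
    · rw [Y_false h hε] at h1 h2
      rw [if_neg hε]
      constructor
      · calc Y Q b i ≤ _ := h1
          _ ≤ _ := by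
            rw [add_zero, pow_succ, pow_succ]
            have : (3 : ℝ) ^ ones ε L i / 2 ^ L * ((Y Q b (i - (L : ZMod n) - 1) + 1) / 2)
              = 3 ^ ones ε L i / (2 ^ L * 2) * Y Q b (i - (L : ZMod n) - 1)
                + 3 ^ ones ε L i / 2 ^ L / 2 := by
              field_simp
            rw [this]
            linarith
      · calc Y Q b i ≤ _ := h2
          _ ≤ _ := by
            rw [pow_succ]
            nlinarith

/-- Number of ones of a word. -/
def wones {L : ℕ} (w : Fin L → Bool) : ℕ := ∑ m : Fin L, if w m = true then 1 else 0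

lemma sum_words (L : ℕ) : ∑ w : Fin L → Bool, (3 / 2 : ℝ) ^ wones w = (5 / 2) ^ L := by
  have h := Finset.prod_univ_sum (κ := fun _ : Fin L => Bool) (t := fun _ : Fin L => (univ : Finset Bool))
    (f := fun _ (c : Bool) => if c = true then (3 / 2 : ℝ) else 1)
  rw [Fintype.piFinset_univ] at h
  have h1 : ∀ w : Fin L → Bool, (∏ i : Fin L, if w i = true then (3 / 2 : ℝ) else 1)
      = (3 / 2 : ℝ) ^ wones w := by
    intro w
    unfold wones
    rw [← Finset.prod_pow_eq_pow_sum]
    refine Finset.prod_congr rfl fun i _ => ?_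
    split_ifs <;> simp
  simp only [h1] at h
  rw [← h]
  simp
  norm_num

lemma bad_words (m : ℕ) :
    (((univ.filter fun w : Fin (5 * m) → Bool => 3 * m < wones w).card : ℕ) : ℝ) / 2 ^ (5 * m)
      ≤ (25000 / 27648) ^ m := by
  have h := sum_words (5 * m)
  have h1 : (((univ.filter fun w : Fin (5 * m) → Bool => 3 * m < wones w).card : ℕ) : ℝ)
      * (3 / 2) ^ (3 * m) ≤ (5 / 2) ^ (5 * m) := by
    rw [← h, ← nsmul_eq_mul, ← Finset.sum_const]
    calc _ ≤ ∑ w ∈ univ.filter (fun w : Fin (5 * m) → Bool => 3 * m < wones w),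
          (3 / 2 : ℝ) ^ wones w := by
          refine Finset.sum_le_sum fun w hw => ?_
          rw [mem_filter] at hw
          exact pow_le_pow_right₀ (by norm_num) hw.2.le
      _ ≤ _ := Finset.sum_le_sum_of_subset_of_nonneg (filter_subset _ _)
          (fun _ _ _ => by positivity)
  have h2 : (5 / 2 : ℝ) ^ (5 * m) = (25000 / 27648) ^ m * (3 / 2) ^ (3 * m) * 2 ^ (5 * m) := by
    rw [pow_mul, pow_mul, pow_mul, ← mul_pow, ← mul_pow]
    norm_num
  rw [h2] at h1
  rw [div_le_iff₀ (by positivity)]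
  have h3 : (0 : ℝ) < (3 / 2) ^ (3 * m) := by positivity
  nlinarith

lemma bad_windows [NeZero n] (h : Sys L₀ δ n Q ε b) (m : ℕ) (hm : 5 * m ≤ L₀) :
    ((univ.filter fun i : ZMod n => 3 * m < ones ε (5 * m) i).card : ℝ)
      ≤ ((25000 / 27648) ^ m + 2 ^ (5 * m) * δ) * n := by
  classical
  have hf := Finset.card_eq_sum_card_fiberwise
    (s := univ.filter fun i : ZMod n => 3 * m < ones ε (5 * m) i)
    (t := univ.filter fun w : Fin (5 * m) → Bool => 3 * m < wones w)
    (f := fun i => fun j : Fin (5 * m) => ε (i - ((j : ℕ) : ZMod n)))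
    (by
      intro i hi
      simp only [coe_filter, mem_univ, true_and, Set.mem_ofPred_eq] at hi ⊢
      exact hi)
  rw [hf]
  push_cast
  have hw : ∀ w ∈ univ.filter (fun w : Fin (5 * m) → Bool => 3 * m < wones w),
      (((univ.filter fun i : ZMod n => 3 * m < ones ε (5 * m) i).filter
        fun i => (fun j : Fin (5 * m) => ε (i - ((j : ℕ) : ZMod n))) = w).card : ℝ)
        ≤ n / 2 ^ (5 * m) + δ * n := by
    intro w _
    have h1 := h.freq (5 * m) hm w
    have h2 : (((univ.filter fun i : ZMod n => 3 * m < ones ε (5 * m) i).filter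
        fun i => (fun j : Fin (5 * m) => ε (i - ((j : ℕ) : ZMod n))) = w).card : ℝ)
        ≤ (Nat.card {i : ZMod n // ∀ m_1 : Fin (5 * m), ε (i - ((m_1 : ℕ) : ZMod n)) = w m_1} : ℝ) := by
      rw [Nat.card_eq_fintype_card, Fintype.card_subtype]
      exact_mod_cast Finset.card_le_card (by
        intro i hi
        simp only [mem_filter, mem_univ, true_and] at hi ⊢
        intro j
        exact congrFun hi.2 j)
    have h3 := (abs_le.1 h1).2
    linarith
  refine (Finset.sum_le_sum hw).trans ?_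
  rw [Finset.sum_const, nsmul_eq_mul]
  have h4 := bad_words m
  have h5 : (((univ.filter fun w : Fin (5 * m) → Bool => 3 * m < wones w).card : ℕ) : ℝ)
      ≤ 2 ^ (5 * m) := by
    have : (univ.filter fun w : Fin (5 * m) → Bool => 3 * m < wones w).card
        ≤ Fintype.card (Fin (5 * m) → Bool) := Finset.card_le_univ _
    rw [Fintype.card_fun, Fintype.card_fin, Fintype.card_bool] at this
    exact_mod_cast this
  have hδ : 0 ≤ δ * n := (abs_nonneg _).trans (h.freq 0 (Nat.zero_le _) (fun _ => true))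
  have hn : (0 : ℝ) ≤ n := Nat.cast_nonneg _
  calc _ = (((univ.filter fun w : Fin (5 * m) → Bool => 3 * m < wones w).card : ℕ) : ℝ)
        / 2 ^ (5 * m) * n
        + (((univ.filter fun w : Fin (5 * m) → Bool => 3 * m < wones w).card : ℕ) : ℝ)
          * (δ * n) := by ring
    _ ≤ (25000 / 27648) ^ m * n + 2 ^ (5 * m) * (δ * n) := by gcongr
    _ = _ := by ring

lemma log_const : 5 * Real.log (3 / 2) ≤ 16 * Real.log (8 / 7) := by
  have h1 : 5 * Real.log (3 / 2) = Real.log ((3 / 2) ^ 5) := by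
    rw [Real.log_pow]; norm_num
  have h2 : 16 * Real.log (8 / 7) = Real.log ((8 / 7) ^ 16) := by
    rw [Real.log_pow]; norm_num
  rw [h1, h2]
  exact Real.log_le_log (by norm_num) (by norm_num)

/-- The potential argument. -/
lemma high [NeZero n] (h : Sys L₀ δ n Q ε b) (m : ℕ) (hm : 0 < m) (A : ℝ)
    (hA : A = (3 / 2) ^ (5 * m) / ((7 / 8) ^ m - (27 / 32) ^ m)) :
    ((univ.filter fun i : ZMod n => A / (7 / 8) ^ m ≤ Y Q b i).card : ℝ)
      ≤ 17 * ((univ.filter fun i : ZMod n => 3 * m < ones ε (5 * m) i).card : ℝ) := by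
  classical
  set r : ℝ := (27 / 32) ^ m with hr
  set ρ : ℝ := (7 / 8) ^ m with hρ
  have hrρ : r < ρ := pow_lt_pow_left₀ (by norm_num) (by norm_num) hm.ne'
  have hr0 : 0 < r := by positivity
  have hρ0 : 0 < ρ := by positivity
  have hρ1 : ρ ≤ 1 := pow_le_one₀ (by norm_num) (by norm_num)
  have hApos : 0 < A := by
    rw [hA]; exact div_pos (by positivity) (by linarith)
  have hA' : (3 / 2 : ℝ) ^ (5 * m) = (ρ - r) * A := by
    rw [hA]; field_simp [(sub_pos.2 hrρ).ne']
  set s : ZMod n := ((5 * m : ℕ) : ZMod n) with hs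
  set H : ZMod n → ℝ := fun i => Real.log (max (Y Q b i) A) with hH
  have hlogρ : Real.log ρ = -(m * Real.log (8 / 7)) := by
    rw [hρ, Real.log_pow, show (7 / 8 : ℝ) = (8 / 7)⁻¹ by norm_num, Real.log_inv]
    ring
  have hl87 : 0 < Real.log (8 / 7) := Real.log_pos (by norm_num)
  -- one step of the potential
  have hstep : ∀ i : ZMod n, H i - H (i - s) ≤
      (if 3 * m < ones ε (5 * m) i then 5 * m * Real.log (3 / 2) else 0)
        - (if ¬ (3 * m < ones ε (5 * m) i) ∧ A / ρ ≤ Y Q b (i - s)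
            then m * Real.log (8 / 7) else 0) := by
    intro i
    obtain ⟨h1, h2⟩ := window h (5 * m) i
    rw [← hs] at h1 h2
    set Z : ℝ := max (Y Q b (i - s)) A with hZ
    have hZ1 : Y Q b (i - s) ≤ Z := le_max_left _ _
    have hZ2 : A ≤ Z := le_max_right _ _
    have hZ0 : 0 < Z := hApos.trans_le hZ2
    have hi0 : 0 < max (Y Q b i) A := lt_max_of_lt_right hApos
    by_cases hbad : 3 * m < ones ε (5 * m) i
    · rw [if_pos hbad, if_neg (by tauto), sub_zero]
      have h3 : max (Y Q b i) A ≤ (3 / 2) ^ (5 * m) * Z := by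
        have h4 : (1 : ℝ) ≤ (3 / 2) ^ (5 * m) := one_le_pow₀ (by norm_num)
        refine max_le (h2.trans (by gcongr)) ?_
        nlinarith
      have h5 : H i ≤ 5 * m * Real.log (3 / 2) + H (i - s) := by
        calc H i ≤ Real.log ((3 / 2) ^ (5 * m) * Z) := Real.log_le_log hi0 h3
          _ = _ := by
            rw [Real.log_mul (by positivity) hZ0.ne', Real.log_pow]
            push_cast
            rfl
      linarith
    · rw [if_neg hbad]
      have hk : (3 : ℝ) ^ ones ε (5 * m) i / 2 ^ (5 * m) ≤ r := by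
        have h3 : (3 : ℝ) ^ ones ε (5 * m) i ≤ 3 ^ (3 * m) :=
          pow_le_pow_right₀ (by norm_num) (not_lt.1 hbad)
        have h4 : r = 3 ^ (3 * m) / 2 ^ (5 * m) := by
          rw [hr, pow_mul, pow_mul, ← div_pow]; norm_num
        rw [h4]
        gcongr
      have h3 : Y Q b i ≤ ρ * Z := by
        have hY := one_le_Y h (i - s)
        calc Y Q b i ≤ _ := h1
          _ ≤ r * Z + (ρ - r) * Z := by
            rw [hA']
            have h6 : 0 ≤ ρ - r := by linarith
            gcongr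
          _ = ρ * Z := by ring
      by_cases hb : A / ρ ≤ Y Q b (i - s)
      · rw [if_pos ⟨hbad, hb⟩]
        have h4 : A ≤ ρ * Z := by
          rw [div_le_iff₀ hρ0] at hb
          nlinarith
        have h5 : H i ≤ Real.log ρ + H (i - s) := by
          calc H i ≤ Real.log (ρ * Z) := Real.log_le_log hi0 (max_le h3 h4)
            _ = _ := by rw [Real.log_mul hρ0.ne' hZ0.ne']
        rw [hlogρ] at h5
        linarith
      · rw [if_neg (by tauto)]
        have h5 : H i ≤ H (i - s) := by
          refine Real.log_le_log hi0 (max_le ?_ hZ2)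
          nlinarith
        linarith
  have hsum : ∑ i : ZMod n, (H i - H (i - s)) = 0 := by
    rw [Finset.sum_sub_distrib, sub_eq_zero]
    exact ((Equiv.subRight s).sum_comp H).symm
  have hle := Finset.sum_le_sum fun (i : ZMod n) (_ : i ∈ univ) => hstep i
  rw [hsum, Finset.sum_sub_distrib, ← Finset.sum_filter, ← Finset.sum_filter, Finset.sum_const,
    Finset.sum_const, nsmul_eq_mul, nsmul_eq_mul] at hle
  set Bd := univ.filter fun i : ZMod n => 3 * m < ones ε (5 * m) i with hBd
  set Gd := univ.filter fun i : ZMod n =>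
    ¬ (3 * m < ones ε (5 * m) i) ∧ A / ρ ≤ Y Q b (i - s) with hGd
  have hGB : (Gd.card : ℝ) ≤ 16 * Bd.card := by
    have h1 : (Gd.card : ℝ) * (m * Real.log (8 / 7)) ≤ Bd.card * (5 * m * Real.log (3 / 2)) := by
      linarith
    have h2 : (Bd.card : ℝ) * (5 * m * Real.log (3 / 2))
        ≤ Bd.card * (m * (16 * Real.log (8 / 7))) := by
      have := log_const
      have hm0 : (0 : ℝ) < m := by exact_mod_cast hm
      have : m * (5 * Real.log (3 / 2)) ≤ m * (16 * Real.log (8 / 7)) :=
        mul_le_mul_of_nonneg_left this hm0.le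
      calc _ = (Bd.card : ℝ) * (m * (5 * Real.log (3 / 2))) := by ring
        _ ≤ _ := mul_le_mul_of_nonneg_left this (Nat.cast_nonneg _)
    have hm0 : (0 : ℝ) < m * Real.log (8 / 7) := mul_pos (by exact_mod_cast hm) hl87
    have h3 : (Gd.card : ℝ) * (m * Real.log (8 / 7))
        ≤ 16 * Bd.card * (m * Real.log (8 / 7)) := by
      calc _ ≤ _ := h1.trans h2
        _ = _ := by ring
    exact le_of_mul_le_mul_right h3 hm0
  have hcard : (univ.filter fun i : ZMod n => A / ρ ≤ Y Q b i).card ≤ Bd.card + Gd.card := by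
    have h1 : (univ.filter fun i : ZMod n => A / ρ ≤ Y Q b i).card
        = (univ.filter fun i : ZMod n => A / ρ ≤ Y Q b (i - s)).card := by
      refine Finset.card_bij' (fun i _ => i + s) (fun i _ => i - s) ?_ ?_ ?_ ?_
      · intro i hi
        simp only [mem_filter, mem_univ, true_and] at hi ⊢
        rwa [add_sub_cancel_right]
      · intro i hi
        simp only [mem_filter, mem_univ, true_and] at hi ⊢
        exact hi
      · intro i _
        exact add_sub_cancel_right i s
      · intro i _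
        exact sub_add_cancel i s
    rw [h1]
    refine (Finset.card_le_card ?_).trans (Finset.card_union_le _ _)
    intro i hi
    simp only [hBd, hGd, mem_union, mem_filter, mem_univ, true_and] at hi ⊢
    by_cases hb : 3 * m < ones ε (5 * m) i
    · exact Or.inl hb
    · exact Or.inr ⟨hb, hi⟩
  have hcard' : ((univ.filter fun i : ZMod n => A / ρ ≤ Y Q b i).card : ℝ)
      ≤ Bd.card + Gd.card := by exact_mod_cast hcard
  linarith

end Tight

open Tight in
/-- Tightness of the values `b i / Q`. -/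
theorem tight' (η : ℝ) (hη : 0 < η) : ∃ (K : ℝ) (L₀ : ℕ) (δ : ℝ), 0 < δ ∧
    ∀ (n Q : ℕ) (ε : ZMod n → Bool) (b : ZMod n → ℤ), 0 < n → Sys L₀ δ n Q ε b →
      (Nat.card {i : ZMod n // K * Q < b i} : ℝ) ≤ η * n := by
  obtain ⟨m, hm⟩ := exists_pow_lt_of_lt_one (show (0 : ℝ) < η / 34 by positivity)
    (show (25000 / 27648 : ℝ) < 1 by norm_num)
  have hm1 : (25000 / 27648 : ℝ) ^ (m + 1) ≤ η / 34 := by
    refine (pow_le_pow_of_le_one (by norm_num) (by norm_num) (Nat.le_succ m)).trans hm.le
  set M : ℕ := m + 1 with hM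
  have hM0 : 0 < M := Nat.succ_pos _
  set A : ℝ := (3 / 2) ^ (5 * M) / ((7 / 8) ^ M - (27 / 32) ^ M) with hA
  refine ⟨A / (7 / 8) ^ M, 5 * M, η / 34 / 2 ^ (5 * M), by positivity, ?_⟩
  intro n Q ε b hn h
  have : NeZero n := ⟨hn.ne'⟩
  have h1 := high h M hM0 A hA
  have h2 := bad_windows h M le_rfl
  have h3 : (Nat.card {i : ZMod n // A / (7 / 8) ^ M * Q < b i} : ℝ)
      ≤ ((univ.filter fun i : ZMod n => A / (7 / 8) ^ M ≤ Y Q b i).card : ℝ) := by
    classical
    rw [Nat.card_eq_fintype_card, Fintype.card_subtype]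
    have hQ : (0 : ℝ) < Q := by exact_mod_cast h.Qpos
    exact_mod_cast Finset.card_le_card (by
      intro i hi
      simp only [mem_filter, mem_univ, true_and] at hi ⊢
      unfold Y
      have h4 : A / (7 / 8) ^ M < (b i : ℝ) / Q := by rwa [lt_div_iff₀ hQ]
      linarith)
  have h4 : (2 : ℝ) ^ (5 * M) * (η / 34 / 2 ^ (5 * M)) = η / 34 := by
    field_simp
  rw [h4] at h2
  have hn0 : (0 : ℝ) ≤ n := Nat.cast_nonneg _
  calc _ ≤ _ := h3
    _ ≤ _ := h1
    _ ≤ 17 * (((25000 / 27648) ^ M + η / 34) * n) := by gcongr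
    _ ≤ 17 * ((η / 34 + η / 34) * n) := by gcongr
    _ = η * n := by ring

end

end Pool.Agent.Lib.MP_f64c7e_nt.FP
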