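import Pool.Agent.Lib.MP_f64c7e_nt.FP.Endgame
import Pool.Agent.Lib.MP_f64c7e_nt.FP.Tight
import Pool.Agent.Lib.MP_f64c7e_nt.FP.Count2

/-!
The core theorem: a long cyclic walk with equidistributed windows whose numerators lie in one coset of
a subgroup `Γ` of `(ℤ/Q)ˣ` containing `3` has fewer than `|Γ| / C` points.
-/

set_option autoImplicit false

open MeasureTheory Filter Topology
open scoped ENNReal

namespace Pool.Agent.Lib.MP_f64c7e_nt.FP

noncomputable section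

/-- A cyclic walk in a coset of `Γ` has at most a bounded multiple of `|Γ|` points. -/
theorem card_le_of_coset : ∃ (L₀ : ℕ) (δ K : ℝ), 0 < δ ∧ 0 ≤ K ∧
    ∀ (n Q : ℕ) [NeZero Q] (ε : ZMod n → Bool) (b : ZMod n → ℤ) (Γ : Subgroup (ZMod Q)ˣ)
    (b₀ : (ZMod Q)ˣ), 0 < n → Sys L₀ δ n Q ε b →
    (∀ i, ∃ g ∈ Γ, (b i : ZMod Q) = ((b₀ * g : (ZMod Q)ˣ) : ZMod Q)) →
    (n : ℝ) ≤ 2 * (K + 1) * Nat.card Γ := by
  classical
  obtain ⟨K, L₀, δ, hδ, hK⟩ := tight' (1 / 2) (by norm_num)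
  refine ⟨L₀, δ, max K 0, hδ, le_max_right _ _, fun n Q _ ε b Γ b₀ hn h hcos => ?_⟩
  haveI : NeZero n := ⟨hn.ne'⟩
  have hQ : (0 : ℤ) < Q := by exact_mod_cast h.Qpos
  have hQR : (0 : ℝ) < Q := by exact_mod_cast h.Qpos
  set M : ℕ := ⌊max K 0⌋₊ with hM
  have h1 := hK n Q ε b hn h
  rw [Nat.card_eq_fintype_card, Fintype.card_subtype] at h1
  choose g hg hbg using hcos
  -- the small points
  have h2 : Nat.card {i : ZMod n // ¬ (K * Q < b i)} ≤ Nat.card (Γ × Fin (M + 1)) := by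
    have hlt : ∀ i : {i : ZMod n // ¬ (K * Q < b i)}, (b i.1 / Q).toNat < M + 1 := by
      intro i
      have h3 : (b i.1 : ℝ) ≤ K * Q := not_lt.1 i.2
      have h4 : (b i.1 : ℝ) ≤ max K 0 * Q :=
        h3.trans (mul_le_mul_of_nonneg_right (le_max_left _ _) hQR.le)
      have h5 : ((b i.1 / Q : ℤ) : ℝ) ≤ max K 0 := by
        have h6 : (b i.1 / Q) * Q ≤ b i.1 := Int.ediv_mul_le _ hQ.ne'
        have h7 : ((b i.1 / Q : ℤ) : ℝ) * Q ≤ max K 0 * Q := le_trans (by exact_mod_cast h6) h4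
        exact le_of_mul_le_mul_right h7 hQR
      have h6 : (0 : ℤ) ≤ b i.1 / Q := Int.ediv_nonneg (h.nonneg _) hQ.le
      have h7 : (((b i.1 / Q).toNat : ℕ) : ℝ) ≤ max K 0 := by
        have : (((b i.1 / Q).toNat : ℕ) : ℤ) = b i.1 / Q := Int.toNat_of_nonneg h6
        have h8 : (((b i.1 / Q).toNat : ℕ) : ℝ) = ((b i.1 / Q : ℤ) : ℝ) := by exact_mod_cast this
        rw [h8]; exact h5
      have h8 : (b i.1 / Q).toNat ≤ M := Nat.le_floor h7
      omega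
    refine Nat.card_le_card_of_injective
      (fun i : {i : ZMod n // ¬ (K * Q < b i)} =>
        ((⟨g i.1, hg i.1⟩ : Γ), (⟨(b i.1 / Q).toNat, hlt i⟩ : Fin (M + 1)))) ?_
    intro i j hij
    simp only [Prod.mk.injEq, Subtype.mk.injEq, Fin.mk.injEq] at hij
    obtain ⟨h3, h4⟩ := hij
    have h5 : ((b i.1 : ℤ) : ZMod Q) = ((b j.1 : ℤ) : ZMod Q) := by
      rw [hbg i.1, hbg j.1, h3]
    have h6 : b i.1 ≡ b j.1 [ZMOD Q] := (ZMod.intCast_eq_intCast_iff _ _ _).1 h5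
    have h7 : b i.1 / Q = b j.1 / Q := by
      have a1 := Int.toNat_of_nonneg (Int.ediv_nonneg (h.nonneg i.1) hQ.le)
      have a2 := Int.toNat_of_nonneg (Int.ediv_nonneg (h.nonneg j.1) hQ.le)
      rw [← a1, ← a2, h4]
    have h8 : b i.1 = b j.1 := by
      have a1 := Int.mul_ediv_add_emod (b i.1) Q
      have a2 := Int.mul_ediv_add_emod (b j.1) Q
      have a3 : b i.1 % Q = b j.1 % Q := h6
      rw [← a1, ← a2, h7, a3]
    exact Subtype.ext (h.inj h8)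
  have h3 : (Finset.univ.filter fun i : ZMod n => K * Q < b i).card +
      (Finset.univ.filter fun i : ZMod n => ¬ (K * Q < b i)).card = n := by
    rw [Finset.card_filter_add_card_filter_not]
    simp [ZMod.card]
  have h4 : Nat.card {i : ZMod n // ¬ (K * Q < b i)} =
      (Finset.univ.filter fun i : ZMod n => ¬ (K * Q < b i)).card := by
    rw [Nat.card_eq_fintype_card, Fintype.card_subtype]
  rw [h4, Nat.card_prod, Nat.card_eq_fintype_card (α := Fin (M + 1)), Fintype.card_fin] at h2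
  have h5 : ((Finset.univ.filter fun i : ZMod n => K * Q < b i).card : ℝ) +
      ((Finset.univ.filter fun i : ZMod n => ¬ (K * Q < b i)).card : ℝ) = n := by
    exact_mod_cast h3
  have h6 : ((Finset.univ.filter fun i : ZMod n => ¬ (K * Q < b i)).card : ℝ) ≤
      Nat.card Γ * ((M : ℝ) + 1) := by exact_mod_cast h2
  have h7 : (M : ℝ) ≤ max K 0 := Nat.floor_le (le_max_right _ _)
  have h8 : (Nat.card Γ : ℝ) * ((M : ℝ) + 1) ≤ Nat.card Γ * (max K 0 + 1) :=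
    mul_le_mul_of_nonneg_left (by linarith) (Nat.cast_nonneg _)
  linarith

/-- The main inequality. -/
theorem words_bound2 {C : ℕ} (hC : C ≠ 0) (hbad : ∀ (L₀ : ℕ) (δ ρ : ℝ), 0 < δ → 0 < ρ →
    ∃ (n Q : ℕ) (_ : NeZero Q) (ε : ZMod n → Bool) (b : ZMod n → ℤ) (Γ : Subgroup (ZMod Q)ˣ)
      (b₀ : (ZMod Q)ˣ), 0 < n ∧ Sys L₀ δ n Q ε b ∧
      (∃ g ∈ Γ, ((g : (ZMod Q)ˣ) : ZMod Q) = 3) ∧
      (∀ i, ∃ g ∈ Γ, (b i : ZMod Q) = ((b₀ * g : (ZMod Q)ˣ) : ZMod Q)) ∧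
      Nat.card Γ ≤ C * n ∧ ρ * √Q ≤ n)
    (U : Set X) (hU : IsOpen U) (hfin : vol U ≠ ⊤) (η : ℝ) (hη : 0 < η) :
    ∃ K : ℝ, ∀ L : ℕ, (Nat.card (good U K L) : ℝ) / 2 ^ L ≤ C * (vol U).toReal + 2 * η := by
  classical
  have hCR : (0 : ℝ) < C := by exact_mod_cast Nat.pos_of_ne_zero hC
  obtain ⟨K, L₂, δ₂, hδ₂, hK⟩ := tight' (η / 2) (by positivity)
  obtain ⟨L₁, δ₁, K₁, hδ₁, hK₁, hlarge⟩ := card_le_of_coset
  refine ⟨K, fun L => ?_⟩
  obtain ⟨ρ₁, hρ₁, hcount⟩ := count2 (swept U K L) U (isCompact_swept U K L) hU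
    (swept_subset U K L) hfin (η / (2 * C)) (by positivity)
  have hδ₃ : 0 < η / 2 ^ L := by positivity
  obtain ⟨n, Q, hNZ, ε, b, Γ, b₀, hn3, h, h3Γ, hcos, hΓ, hρ⟩ :=
    hbad (max L (max L₁ L₂)) (min (η / 2 ^ L) (min δ₁ δ₂)) (2 * (K₁ + 1) * ρ₁)
      (lt_min hδ₃ (lt_min hδ₁ hδ₂)) (by positivity)
  have hs1 : Sys L₁ δ₁ n Q ε b := h.mono ((le_max_left _ _).trans (le_max_right _ _))
    ((min_le_right _ _).trans (min_le_left _ _))
  have hs2 : Sys L₂ δ₂ n Q ε b := h.mono ((le_max_right _ _).trans (le_max_right _ _))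
    ((min_le_right _ _).trans (min_le_right _ _))
  have hs3 : Sys L (η / 2 ^ L) n Q ε b := h.mono (le_max_left _ _) (min_le_left _ _)
  haveI : NeZero n := ⟨hn3.ne'⟩
  have hnR : (0 : ℝ) < n := by exact_mod_cast hn3
  have h1 := good_count hn3 hs3 U K L le_rfl
  have h2 := good_split hn3 h U K L
  have h3 := hK n Q ε b hn3 hs2
  have hρ' : ρ₁ * √Q ≤ Nat.card Γ := by
    have h4 := hlarge n Q ε b Γ b₀ hn3 hs1 hcos
    have h5 : (2 * (K₁ + 1)) * (ρ₁ * √Q) ≤ 2 * (K₁ + 1) * Nat.card Γ := by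
      calc (2 * (K₁ + 1)) * (ρ₁ * √Q) = 2 * (K₁ + 1) * ρ₁ * √Q := by ring
        _ ≤ n := hρ
        _ ≤ 2 * (K₁ + 1) * Nat.card Γ := h4
    exact le_of_mul_le_mul_left h5 (by positivity)
  -- the count of points in the swept set
  have h4 : (Nat.card {i : ZMod n // pt Q (b i) ∈ swept U K L} : ℝ) ≤
      ((vol U).toReal + η / (2 * C)) * Nat.card Γ := by
    have h5 := hcount Q Γ b₀ h.Q3 h3Γ hρ'
      ((Finset.univ.filter fun i : ZMod n => pt Q (b i) ∈ swept U K L).image b) (by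
        intro c hc
        simp only [Finset.mem_image, Finset.mem_filter, Finset.mem_univ, true_and] at hc
        obtain ⟨i, hi, rfl⟩ := hc
        exact hi) (by
        intro c hc
        simp only [Finset.mem_image, Finset.mem_filter, Finset.mem_univ, true_and] at hc
        obtain ⟨i, hi, rfl⟩ := hc
        exact hcos i)
    rw [Finset.card_image_of_injective _ h.inj] at h5
    rwa [Nat.card_eq_fintype_card, Fintype.card_subtype]
  have h5 : ((vol U).toReal + η / (2 * C)) * (Nat.card Γ : ℝ) ≤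
      (C * (vol U).toReal + η / 2) * n := by
    calc ((vol U).toReal + η / (2 * C)) * (Nat.card Γ : ℝ) ≤
          ((vol U).toReal + η / (2 * C)) * (C * n) :=
          mul_le_mul_of_nonneg_left (by exact_mod_cast hΓ)
            (add_nonneg ENNReal.toReal_nonneg (by positivity))
      _ = (C * (vol U).toReal + η / 2) * n := by field_simp
  have h6 : (Nat.card (good U K L) : ℝ) ≤ 2 ^ L := by
    have : Nat.card (good U K L) ≤ Nat.card (Fin L → Bool) :=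
      Nat.card_le_card_of_injective _ Subtype.val_injective
    have h7 : Nat.card (Fin L → Bool) = 2 ^ L := by simp
    rw [h7] at this
    exact_mod_cast this
  have h8 : (Nat.card {i : ZMod n //
      (fun m : Fin L => ε (i - ((m : ℕ) : ZMod n))) ∈ good U K L} : ℝ) ≤
      (C * (vol U).toReal + η / 2) * n + η / 2 * n := by
    have : (Nat.card {i : ZMod n //
      (fun m : Fin L => ε (i - ((m : ℕ) : ZMod n))) ∈ good U K L} : ℝ) ≤
      (Nat.card {i : ZMod n // pt Q (b i) ∈ swept U K L} : ℝ) +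
        (Nat.card {i : ZMod n // K * Q < b i} : ℝ) := by exact_mod_cast h2
    linarith
  have h9 : (Nat.card (good U K L) : ℝ) * (η / 2 ^ L * n) ≤ η * n := by
    calc (Nat.card (good U K L) : ℝ) * (η / 2 ^ L * n) ≤ 2 ^ L * (η / 2 ^ L * n) :=
          mul_le_mul_of_nonneg_right h6 (by positivity)
      _ = η * n := by field_simp
  have h10 : (Nat.card (good U K L) : ℝ) / 2 ^ L * n ≤ (C * (vol U).toReal + 2 * η) * n := by
    have : (Nat.card (good U K L) : ℝ) / 2 ^ L * n = (Nat.card (good U K L) : ℝ) * (n / 2 ^ L) := by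
      ring
    rw [this]
    nlinarith
  exact le_of_mul_le_mul_right h10 hnR

/-- The core theorem, coset form. -/
theorem core2 (C : ℕ) : ∃ (L₀ : ℕ) (δ ρ : ℝ), 0 < δ ∧ 0 < ρ ∧
    ∀ (n Q : ℕ) [NeZero Q] (ε : ZMod n → Bool) (b : ZMod n → ℤ) (Γ : Subgroup (ZMod Q)ˣ)
    (b₀ : (ZMod Q)ˣ), 0 < n → Sys L₀ δ n Q ε b →
    (∃ g ∈ Γ, ((g : (ZMod Q)ˣ) : ZMod Q) = 3) →
    (∀ i, ∃ g ∈ Γ, (b i : ZMod Q) = ((b₀ * g : (ZMod Q)ˣ) : ZMod Q)) →
    Nat.card Γ ≤ C * n → ρ * √Q ≤ n → False := by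
  classical
  by_contra hcon
  push Not at hcon
  have hbad : ∀ (L₀ : ℕ) (δ ρ : ℝ), 0 < δ → 0 < ρ →
    ∃ (n Q : ℕ) (_ : NeZero Q) (ε : ZMod n → Bool) (b : ZMod n → ℤ) (Γ : Subgroup (ZMod Q)ˣ)
      (b₀ : (ZMod Q)ˣ), 0 < n ∧ Sys L₀ δ n Q ε b ∧
      (∃ g ∈ Γ, ((g : (ZMod Q)ˣ) : ZMod Q) = 3) ∧
      (∀ i, ∃ g ∈ Γ, (b i : ZMod Q) = ((b₀ * g : (ZMod Q)ˣ) : ZMod Q)) ∧
      Nat.card Γ ≤ C * n ∧ ρ * √Q ≤ n := by
    intro L₀ δ ρ hδ hρ
    obtain ⟨n, Q, hQ, ε, b, Γ, b₀, h1, h2, h3, h4, h5, h6, -⟩ := hcon L₀ δ ρ hδ hρ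
    exact ⟨n, Q, hQ, ε, b, Γ, b₀, h1, h2, h3, h4, h5, h6⟩
  have hC : C ≠ 0 := by
    rintro rfl
    obtain ⟨n, Q, hQ, ε, b, Γ, b₀, h1, h2, h3, h4, h5, h6⟩ := hbad 0 1 1 one_pos one_pos
    rw [zero_mul, Nat.le_zero] at h5
    exact (Nat.card_pos (α := Γ)).ne' h5
  exact not_words_bound C hC fun U hU hfin η hη => words_bound2 hC hbad U hU hfin η hη

end

end Pool.Agent.Lib.MP_f64c7e_nt.FP
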