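import Pool.Agent.Lib.MP_f64c7e_nt.FP.Haar

/-!
Counting points of a coset of a large subgroup in a compact set of `ℝ × ℚ₃`, from the
equidistribution of cosets in the circle.
-/

set_option autoImplicit false

open MeasureTheory Set
open scoped ENNReal NNReal

namespace Pool.Agent.Lib.MP_f64c7e_nt.FP

namespace H70

/-- The statement of `equi`: cosets of large subgroups have at most their share in arcs. -/
def EquiS : Prop := ∀ (τ η : ℝ) (_ : 0 < τ) (_ : 0 < η), ∃ ρ : ℝ, 0 < ρ ∧ ∀ (Q : ℕ) [NeZero Q]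
    (Γ : Subgroup (ZMod Q)ˣ) (b₀ : (ZMod Q)ˣ) (z : ℝ), ρ * √Q ≤ Nat.card Γ →
    (Nat.card {g : Γ // ∃ t : ℝ, z ≤ t ∧ t ≤ z + τ ∧
      ZMod.toAddCircle ((b₀ * (g : (ZMod Q)ˣ) : (ZMod Q)ˣ) : ZMod Q) = (t : UnitAddCircle)} : ℝ)
      ≤ (τ + η) * Nat.card Γ

/-- The box of level `l` containing `p`. -/
noncomputable def bx (l : ℕ) (p : X) : Set X :=
  Set.Ico ((⌊3 ^ l * p.1⌋ : ℝ) / 3 ^ l) (((⌊3 ^ l * p.1⌋ : ℝ) + 1) / 3 ^ l) ×ˢ
    Metric.closedBall p.2 ((3 : ℝ) ^ (-(l : ℤ)))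

theorem mem_Ico_floor (l : ℕ) (x y : ℝ) :
    y ∈ Set.Ico ((⌊3 ^ l * x⌋ : ℝ) / 3 ^ l) (((⌊3 ^ l * x⌋ : ℝ) + 1) / 3 ^ l) ↔
      ⌊3 ^ l * y⌋ = ⌊3 ^ l * x⌋ := by
  have h3 : (0 : ℝ) < 3 ^ l := by positivity
  rw [Set.mem_Ico, div_le_iff₀ h3, lt_div_iff₀ h3, Int.floor_eq_iff, mul_comm y]

theorem mem_bx (l : ℕ) (p : X) : p ∈ bx l p :=
  ⟨(mem_Ico_floor l _ _).2 rfl, Metric.mem_closedBall_self (by positivity)⟩

theorem bx_eq (l : ℕ) (p q : X) (h : q ∈ bx l p) : bx l q = bx l p := by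
  obtain ⟨h1, h2⟩ := h
  have h3 := (mem_Ico_floor l _ _).1 h1
  have h4 := IsUltrametricDist.closedBall_eq_of_mem h2
  unfold bx
  rw [h3, h4]

theorem bx_meas (l : ℕ) (p : X) : MeasurableSet (bx l p) :=
  measurableSet_Ico.prod Metric.isClosed_closedBall.measurableSet

theorem bx_vol (l : ℕ) (p : X) : vol (bx l p) = ENNReal.ofReal ((1 / 9) ^ l) := by
  have h3 : (0 : ℝ) < 3 ^ l := by positivity
  unfold bx
  rw [vol_box _ _ _ _ (by gcongr; linarith)]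
  have h : (((⌊3 ^ l * p.1⌋ : ℝ) + 1) / 3 ^ l - (⌊3 ^ l * p.1⌋ : ℝ) / 3 ^ l) = 1 / 3 ^ l := by
    ring
  rw [h, show (3 : ℝ≥0∞) ^ l = ENNReal.ofReal (3 ^ l) by
    rw [ENNReal.ofReal_pow (by norm_num)]; simp, ← ENNReal.ofReal_div_of_pos h3]
  congr 1
  rw [div_div, ← mul_pow, div_pow, one_pow]
  norm_num

theorem bx_sub (l : ℕ) (F : Set X) (p : X) (hp : p ∈ F) (δ : ℝ) (hδ : (1 / 3) ^ l ≤ δ) :
    bx l p ⊆ Metric.cthickening δ F := by
  rintro q ⟨h1, h2⟩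
  have h3 : (0 : ℝ) < 3 ^ l := by positivity
  refine Metric.mem_cthickening_of_dist_le _ p _ _ hp ?_
  refine le_trans ?_ hδ
  rw [Prod.dist_eq]
  refine max_le ?_ ?_
  · have h4 := (mem_Ico_floor l _ _).1 h1
    have h5 := Int.abs_sub_lt_one_of_floor_eq_floor h4
    rw [← mul_sub, abs_mul, abs_of_pos h3] at h5
    rw [Real.dist_eq, one_div, inv_pow, ← one_div, le_div_iff₀ h3, mul_comm]
    exact h5.le
  · have h4 := Metric.mem_closedBall.1 h2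
    rw [zpow_neg, zpow_natCast] at h4
    rwa [one_div, inv_pow]

/-- Few boxes of level `l` meet a set whose thickening has finite volume. -/
theorem card_boxes (l : ℕ) (U : Set X) (hfin : vol U ≠ ⊤) (T : Finset (Set X))
    (hT : ∀ B ∈ T, ∃ p, B = bx l p ∧ B ⊆ U) :
    (T.card : ℝ) * (1 / 9) ^ l ≤ (vol U).toReal := by
  have h1 : vol (⋃ B ∈ T, B) = ∑ B ∈ T, vol B := by
    refine measure_biUnion_finset ?_ ?_
    · intro B hB B' hB' hne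
      refine Set.disjoint_left.2 fun x hx hx' => hne ?_
      obtain ⟨p, rfl, -⟩ := hT B hB
      obtain ⟨p', rfl, -⟩ := hT B' hB'
      change x ∈ bx l p at hx
      change x ∈ bx l p' at hx'
      rw [← bx_eq l p x hx, ← bx_eq l p' x hx']
    · intro B hB
      obtain ⟨p, rfl, -⟩ := hT B hB
      exact bx_meas l p
  have h2 : vol (⋃ B ∈ T, B) ≤ vol U := by
    refine measure_mono (Set.iUnion₂_subset fun B hB => ?_)
    obtain ⟨p, -, h⟩ := hT B hB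
    exact h
  have h3 : ∑ B ∈ T, vol B = T.card * ENNReal.ofReal ((1 / 9) ^ l) := by
    rw [← nsmul_eq_mul, ← Finset.sum_const]
    refine Finset.sum_congr rfl fun B hB => ?_
    obtain ⟨p, rfl, -⟩ := hT B hB
    exact bx_vol l p
  rw [h1, h3] at h2
  have h4 := ENNReal.toReal_mono hfin h2
  rw [ENNReal.toReal_mul, ENNReal.toReal_natCast, ENNReal.toReal_ofReal (by positivity)] at h4
  exact h4

/-- The number of points of a coset in one box. -/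
theorem card_box (l : ℕ) (Q : ℕ) [NeZero Q] (Γ : Subgroup (ZMod Q)ˣ) (b₀ : (ZMod Q)ˣ)
    (hQ3 : Nat.Coprime Q 3) (h3Γ : ∃ g ∈ Γ, ((g : (ZMod Q)ˣ) : ZMod Q) = 3) (M : ℝ)
    (hM : ∀ z : ℝ, (Nat.card {g : Γ // ∃ t : ℝ, z ≤ t ∧ t ≤ z + (1 / 9) ^ l ∧
      ZMod.toAddCircle ((b₀ * (g : (ZMod Q)ˣ) : (ZMod Q)ˣ) : ZMod Q) = (t : UnitAddCircle)} : ℝ)
      ≤ M) (S : Finset ℤ)
    (hS : ∀ b ∈ S, ∀ b' ∈ S, (((b' : ℝ) / Q, (b' : ℚ_[3]) / Q) : X) ∈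
      bx l (((b : ℝ) / Q, (b : ℚ_[3]) / Q) : X))
    (hSΓ : ∀ b ∈ S, ∃ g ∈ Γ, (b : ZMod Q) = ((b₀ * g : (ZMod Q)ˣ) : ZMod Q)) :
    (S.card : ℝ) ≤ M := by
  classical
  rcases S.eq_empty_or_nonempty with rfl | hne
  · simp only [Finset.card_empty, Nat.cast_zero]
    exact le_trans (Nat.cast_nonneg _) (hM 0)
  obtain ⟨b1, hb1, hmin⟩ := S.exists_min_image id hne
  simp only [id] at hmin
  obtain ⟨γ, hγ, hγ3⟩ := h3Γ
  have hQ0 : (0 : ℝ) < Q := Nat.cast_pos.2 (NeZero.pos Q)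
  have hp3 : (0 : ℝ) < 3 ^ l := by positivity
  -- differences inside a box
  have hdiff : ∀ b ∈ S, ∃ t : ℤ, 0 ≤ t ∧ b = b1 + 3 ^ l * t ∧ (t : ℝ) / Q ≤ (1 / 9) ^ l ∧
      3 ^ l * t < Q := by
    intro b hb
    obtain ⟨h1, h2⟩ := hS b1 hb1 b hb
    have h3 := (mem_Ico_floor l _ _).1 h1
    have h4 := Int.abs_sub_lt_one_of_floor_eq_floor h3
    have h5 : 3 ^ l * ((b : ℝ) - b1) < Q := by
      have h6 := (abs_lt.1 h4).2
      have h7 : 3 ^ l * ((b : ℝ) - b1) = (3 ^ l * ((b : ℝ) / Q) - 3 ^ l * ((b1 : ℝ) / Q)) * Q := by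
        field_simp
      rw [h7]
      calc _ < 1 * (Q : ℝ) := mul_lt_mul_of_pos_right h6 hQ0
        _ = Q := one_mul _
    have h6 : ‖((b - b1 : ℤ) : ℚ_[3])‖ ≤ (3 : ℝ) ^ (-(l : ℤ)) := by
      have h7 := Metric.mem_closedBall.1 h2
      rw [dist_eq_norm, ← sub_div, norm_div,
        (Padic.norm_natCast_eq_one_iff (p := 3) (n := Q)).2 hQ3.symm, div_one] at h7
      rw [Int.cast_sub]
      exact h7
    have h7 : ((3 : ℤ) ^ l) ∣ b - b1 := by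
      have h8 := (Padic.norm_int_le_pow_iff_dvd (p := 3) (b - b1) l).1 (by exact_mod_cast h6)
      exact_mod_cast h8
    obtain ⟨t, ht⟩ := h7
    have hpz : (0 : ℤ) < 3 ^ l := by positivity
    have ht0 : 0 ≤ t := by
      have h8 : 0 ≤ b - b1 := sub_nonneg.2 (hmin b hb)
      rw [ht] at h8
      exact nonneg_of_mul_nonneg_right h8 hpz
    have h8 : (b : ℝ) - b1 = 3 ^ l * t := by
      have h9 : ((b - b1 : ℤ) : ℝ) = ((3 ^ l * t : ℤ) : ℝ) := by rw [ht]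
      push_cast at h9
      exact h9
    refine ⟨t, ht0, by rw [← ht]; ring, ?_, ?_⟩
    · rw [h8] at h5
      rw [div_le_iff₀ hQ0, one_div, inv_pow, inv_mul_eq_div, le_div_iff₀ (by positivity)]
      calc (t : ℝ) * 9 ^ l = 3 ^ l * (3 ^ l * t) := by
            rw [show (9 : ℝ) = 3 * 3 by norm_num, mul_pow]; ring
        _ ≤ Q := h5.le
    · have h9 : (3 : ℝ) ^ l * t < Q := by
        refine lt_of_le_of_lt ?_ h5
        rw [h8]
        have h10 : (1 : ℝ) ≤ 3 ^ l := one_le_pow₀ (by norm_num)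
        have h11 : (0 : ℝ) ≤ 3 ^ l * t := by positivity
        nlinarith
      exact_mod_cast h9
  -- the circle coordinate
  obtain ⟨z, hz⟩ : ∃ z : ℝ, (z : UnitAddCircle) =
      ZMod.toAddCircle ((((γ ^ l)⁻¹ : (ZMod Q)ˣ) : ZMod Q) * (b1 : ZMod Q)) :=
    QuotientAddGroup.mk_surjective _
  have hg : ∀ b ∈ S, ∃ g : {g : Γ // ∃ t : ℝ, z ≤ t ∧ t ≤ z + (1 / 9) ^ l ∧
      ZMod.toAddCircle ((b₀ * (g : (ZMod Q)ˣ) : (ZMod Q)ˣ) : ZMod Q) = (t : UnitAddCircle)},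
      (b : ZMod Q) = ((b₀ * ((g.1 : Γ) : (ZMod Q)ˣ) * γ ^ l : (ZMod Q)ˣ) : ZMod Q) := by
    intro b hb
    obtain ⟨g, hgΓ, hg⟩ := hSΓ b hb
    obtain ⟨t, ht0, ht1, ht2, -⟩ := hdiff b hb
    have h1 : ((b₀ * (g * (γ ^ l)⁻¹) : (ZMod Q)ˣ) : ZMod Q) =
        (((γ ^ l)⁻¹ : (ZMod Q)ˣ) : ZMod Q) * (b : ZMod Q) := by
      rw [hg, ← Units.val_mul]
      congr 1
      rw [← mul_assoc, mul_comm]
    have h2 : (((γ ^ l)⁻¹ : (ZMod Q)ˣ) : ZMod Q) * ((3 ^ l * t : ℤ) : ZMod Q) = (t : ZMod Q) := by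
      have h3 : ((3 ^ l * t : ℤ) : ZMod Q) = ((γ ^ l : (ZMod Q)ˣ) : ZMod Q) * (t : ZMod Q) := by
        rw [Units.val_pow_eq_pow_val, hγ3]
        push_cast
        ring
      rw [h3, Units.inv_mul_cancel_left]
    refine ⟨⟨⟨g * (γ ^ l)⁻¹, Γ.mul_mem hgΓ (Γ.inv_mem (Γ.pow_mem hγ l))⟩, z + t / Q, ?_, ?_, ?_⟩,
      ?_⟩
    · have : (0 : ℝ) ≤ t / Q := by positivity
      linarith
    · linarith
    · change ZMod.toAddCircle ((b₀ * (g * (γ ^ l)⁻¹) : (ZMod Q)ˣ) : ZMod Q) = _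
      rw [h1, ht1, Int.cast_add, mul_add, h2, map_add, ← hz, ZMod.toAddCircle_intCast]
      rfl
    · change _ = ((b₀ * (g * (γ ^ l)⁻¹) * γ ^ l : (ZMod Q)ˣ) : ZMod Q)
      refine hg.trans ?_
      congr 1
      rw [mul_assoc, inv_mul_cancel_right]
  choose f hf using hg
  refine le_trans ?_ (hM z)
  rw [Nat.cast_le]
  have hinj : Function.Injective (fun b : S => f (b : ℤ) b.2) := by
    rintro ⟨b, hb⟩ ⟨b', hb'⟩ h
    have h1 : (b : ZMod Q) = (b' : ZMod Q) := by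
      have h' : f b hb = f b' hb' := h
      rw [hf b hb, hf b' hb', h']
    obtain ⟨t, ht0, ht1, -, ht2⟩ := hdiff b hb
    obtain ⟨t', ht0', ht1', -, ht2'⟩ := hdiff b' hb'
    rw [ZMod.intCast_eq_intCast_iff_dvd_sub] at h1
    have hpz : (0 : ℤ) < 3 ^ l := by positivity
    have h2 : (0 : ℤ) ≤ 3 ^ l * t := by positivity
    have h3 : (0 : ℤ) ≤ 3 ^ l * t' := by positivity
    have h4 : b' - b = 0 := by
      refine Int.eq_zero_of_abs_lt_dvd h1 ?_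
      rw [ht1, ht1', abs_lt]
      constructor <;> linarith
    ext
    simp only
    linarith
  have h5 := Nat.card_le_card_of_injective _ hinj
  rwa [Nat.card_eq_fintype_card, Fintype.card_coe] at h5

end H70

/-- Counting points of a coset of a large subgroup in a compact set, from `equi`. -/
theorem count2_of (hequi : H70.EquiS) (F U : Set X) (hF : IsCompact F) (hU : IsOpen U)
    (hFU : F ⊆ U) (hfin : vol U ≠ ⊤) (η : ℝ) (hη : 0 < η) :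
    ∃ ρ : ℝ, 0 < ρ ∧ ∀ (Q : ℕ) [NeZero Q] (Γ : Subgroup (ZMod Q)ˣ)
      (b₀ : (ZMod Q)ˣ), Nat.Coprime Q 3 → (∃ g ∈ Γ, ((g : (ZMod Q)ˣ) : ZMod Q) = 3) →
      ρ * √Q ≤ Nat.card Γ → ∀ S : Finset ℤ,
      (∀ b ∈ S, (((b : ℝ) / Q, (b : ℚ_[3]) / Q) : X) ∈ F) →
      (∀ b ∈ S, ∃ g ∈ Γ, (b : ZMod Q) = ((b₀ * g : (ZMod Q)ˣ) : ZMod Q)) →
      (S.card : ℝ) ≤ ((vol U).toReal + η) * Nat.card Γ := by
  classical
  obtain ⟨δ, hδ, hδU⟩ := hF.exists_cthickening_subset_open hU hFU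
  obtain ⟨l, hl⟩ := exists_pow_lt_of_lt_one hδ (show (1 / 3 : ℝ) < 1 by norm_num)
  set V := (vol U).toReal with hV
  have hV0 : 0 ≤ V := ENNReal.toReal_nonneg
  have h9 : (0 : ℝ) < (1 / 9) ^ l := by positivity
  obtain ⟨ρ, hρ, h⟩ := hequi ((1 / 9) ^ l) (η * (1 / 9) ^ l / (V + 1)) h9 (by positivity)
  refine ⟨ρ, hρ, fun Q _ Γ b₀ hQ3 h3Γ hΓ S hSF hSΓ => ?_⟩
  set pt : ℤ → X := fun b => ((b : ℝ) / Q, (b : ℚ_[3]) / Q) with hpt
  set T : Finset (Set X) := S.image (fun b => H70.bx l (pt b)) with hT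
  have h1 : (T.card : ℝ) * (1 / 9) ^ l ≤ V := by
    refine H70.card_boxes l U hfin T fun B hB => ?_
    obtain ⟨b, hb, rfl⟩ := Finset.mem_image.1 hB
    exact ⟨pt b, rfl, (H70.bx_sub l F _ (hSF b hb) δ hl.le).trans hδU⟩
  have h2 : ∀ B ∈ T, ((S.filter fun b => H70.bx l (pt b) = B).card : ℝ) ≤
      ((1 / 9) ^ l + η * (1 / 9) ^ l / (V + 1)) * Nat.card Γ := by
    intro B _
    refine H70.card_box l Q Γ b₀ hQ3 h3Γ _ (fun z => h Q Γ b₀ z hΓ) _ ?_ ?_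
    · intro b hb b' hb'
      have e1 := (Finset.mem_filter.1 hb).2
      have e2 := (Finset.mem_filter.1 hb').2
      change pt b' ∈ H70.bx l (pt b)
      rw [e1, ← e2]
      exact H70.mem_bx l _
    · intro b hb
      exact hSΓ b (Finset.mem_filter.1 hb).1
  have h3 : (S.card : ℝ) ≤ T.card * (((1 / 9) ^ l + η * (1 / 9) ^ l / (V + 1)) * Nat.card Γ) := by
    rw [Finset.card_eq_sum_card_image (fun b => H70.bx l (pt b)) S, Nat.cast_sum,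
      ← nsmul_eq_mul, ← Finset.sum_const]
    exact Finset.sum_le_sum h2
  refine h3.trans ?_
  have h4 : (0 : ℝ) ≤ Nat.card Γ := Nat.cast_nonneg _
  rw [← mul_assoc]
  refine mul_le_mul_of_nonneg_right ?_ h4
  have h5 : (T.card : ℝ) * ((1 / 9) ^ l + η * (1 / 9) ^ l / (V + 1)) =
      (T.card * (1 / 9) ^ l) * (1 + η / (V + 1)) := by ring
  rw [h5]
  calc _ ≤ V * (1 + η / (V + 1)) := mul_le_mul_of_nonneg_right h1 (by positivity)
    _ = V + V / (V + 1) * η := by ring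
    _ ≤ V + 1 * η := by
        gcongr
        rw [div_le_one (by positivity)]
        linarith
    _ = V + η := by ring

end Pool.Agent.Lib.MP_f64c7e_nt.FP
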