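import Pool.Agent.Lib.MP_f64c7e_nt.FP.Orders

/-!
Exact constraints on the denominators of rational fixed points, with the number `k` of odd digits
of a period.
-/

set_option autoImplicit false

namespace Pool.Agent.Lib.MP_f64c7e_nt.FP

namespace Orders

open Per2

/-- The number of odd terms of a tail in a period, read off from the residues. -/
theorem kk_residue {q : ℕ} (hq : Odd q) {u c : ℕ → ℤ} (h : Rec q u c) (b : ℕ)
    (ho : ∀ i, -(q : ℤ) < u (b + i) ∧ u (b + i) < 0) :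
    kk (fun i => u (b + i)) 0 (orderOf (2 : ZMod q)) =
      ((Finset.range (orderOf (2 : ZMod q))).filter
        fun j => (-(u 0) * 2 ^ j) % (q : ℤ) % 2 = 1).card := by
  have hn0 : 0 < orderOf (2 : ZMod q) := order_pos hq
  have hdvd : (q : ℤ) ∣ 2 ^ orderOf (2 : ZMod q) - 1 :=
    intCast_two_pow _ 1 (by rw [pow_orderOf_eq_one]; norm_num)
  set n := orderOf (2 : ZMod q) with hn
  have hdvdm : ∀ s : ℕ, (q : ℤ) ∣ 2 ^ (n * s) - 1 := by
    intro s
    rw [pow_mul]
    exact hdvd.trans (sub_one_dvd_pow_sub_one _ _)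
  have hwper : ∀ j, (-(u 0) * 2 ^ (j + n)) % (q : ℤ) = (-(u 0) * 2 ^ j) % (q : ℤ) := by
    intro j
    apply Int.ModEq.eq
    apply Int.modEq_iff_dvd.2
    obtain ⟨r, hr⟩ := hdvd
    refine ⟨u 0 * 2 ^ j * r, ?_⟩
    rw [pow_add]
    linear_combination (u 0 * 2 ^ j) * hr
  obtain ⟨M, hM⟩ : ∃ M, M = n * (b + 1) - b := ⟨_, rfl⟩
  have hbn : b ≤ n * b := Nat.le_mul_of_pos_left b hn0
  have hM1 : M + b = n * (b + 1) := by
    rw [hM, mul_add, mul_one]
    omega
  have hM2 : n ≤ M := by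
    rw [mul_add, mul_one] at hM1
    omega
  have hval : ∀ t < n, (-(u 0) * 2 ^ (M - t)) % (q : ℤ) = -u (b + t) := by
    intro t ht
    have e1 : (b + t) + (M - t) = n * (b + 1) := by omega
    obtain ⟨r, hr⟩ := dvd_step h (b + t) 0
    rw [zero_add] at hr
    obtain ⟨s, hs⟩ := hdvdm (b + 1)
    rw [← e1, pow_add] at hs
    obtain ⟨h2, h3⟩ := ho t
    have h4 : (-(u 0) * 2 ^ (M - t)) % (q : ℤ) = (-u (b + t)) % (q : ℤ) := by
      apply Int.ModEq.eq
      apply Int.modEq_iff_dvd.2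
      refine ⟨s * u (b + t) - r * 2 ^ (M - t), ?_⟩
      linear_combination (u (b + t)) * hs - 2 ^ (M - t) * hr
    rw [h4]
    exact Int.emod_eq_of_lt (by omega) (by omega)
  have hpp : Function.Periodic (fun j : ℕ => (-(u 0) * 2 ^ j) % (q : ℤ) % 2 = 1) n := by
    intro j
    show ((-(u 0) * 2 ^ (j + n)) % (q : ℤ) % 2 = 1) = ((-(u 0) * 2 ^ j) % (q : ℤ) % 2 = 1)
    rw [hwper]
  have h5 := Nat.filter_Ico_card_eq_of_periodic (M + 1 - n) n
    (fun j : ℕ => (-(u 0) * 2 ^ j) % (q : ℤ) % 2 = 1) hpp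
  rw [Nat.count_eq_card_filter_range] at h5
  rw [← h5, kk_eq_card]
  refine Finset.card_nbij' (fun t => M - t) (fun t => M - t) ?_ ?_ ?_ ?_
  · intro t ht
    simp only [Finset.coe_filter, Finset.mem_range, Set.mem_ofPred_eq, zero_add,
      Finset.mem_Ico] at ht ⊢
    refine ⟨⟨by omega, by omega⟩, ?_⟩
    rw [hval t ht.1]
    omega
  · intro t ht
    simp only [Finset.coe_filter, Finset.mem_range, Set.mem_ofPred_eq, zero_add,
      Finset.mem_Ico] at ht ⊢
    obtain ⟨⟨h6, h7⟩, h8⟩ := ht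
    refine ⟨by omega, ?_⟩
    have h9 := hval (M - t) (by omega)
    have e2 : M - (M - t) = t := by omega
    rw [e2] at h9
    rw [h9] at h8
    omega
  · intro t ht
    simp only [Finset.coe_filter, Finset.mem_range, Set.mem_ofPred_eq] at ht
    show M - (M - t) = t
    omega
  · intro t ht
    simp only [Finset.coe_filter, Finset.mem_Ico, Set.mem_ofPred_eq] at ht
    show M - (M - t) = t
    omega

theorem pow_ne {k n : ℕ} (hn : 0 < n) : (3 : ℤ) ^ k ≠ 2 ^ n := by
  intro h6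
  have h7 : Odd ((3 : ℤ) ^ k) := Odd.pow (by decide)
  rw [h6] at h7
  have h8 : Even ((2 : ℤ) ^ n) := (Int.even_pow.2 ⟨even_two, hn.ne'⟩)
  exact (Int.not_odd_iff_even.2 h8) h7

end Orders

open Per2 Orders in
/-- **Exact constraints**, with the number `k` of odd digits of a period. -/
theorem order_constraint2 (q : ℕ) (hq : Odd q) (h1 : 1 < q) (u c : ℕ → ℤ) (h : Walk q u c)
    (hodd : Odd (u 0)) (hcop : IsCoprime (u 0) (q : ℤ)) (n k : ℕ)
    (hn : n = orderOf (2 : ZMod q))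
    (hk : k = ((Finset.range n).filter
      fun j => (-(u 0) * 2 ^ j) % (q : ℤ) % 2 = 1).card) :
    (3 : ZMod (ordCompl[3] q)) ^ k = 1 ∧ 0 < k ∧ k < n ∧ (0 < u 0 → 3 ^ k < 2 ^ n) ∧
    (u 0 < 0 → 2 ^ n < 3 ^ k) ∧
    ((∃ j : ℕ, (2 : ZMod q) ^ j = -1) → 2 * k = n) := by
  have hodd' : u 0 % 2 = 1 := Int.odd_iff.1 hodd
  have hn0 : 0 < n := by rw [hn]; exact order_pos hq
  have hcount : ∀ b, (∀ i, -(q : ℤ) < u (b + i) ∧ u (b + i) < 0) →
      kk (fun i => u (b + i)) 0 n = k := by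
    intro b hb
    rw [hk, hn]
    exact kk_residue hq h.rec b hb
  obtain ⟨b, d, hcd, hU, hcopU, hcopd, hrec⟩ := reduce hq h1 h hcop
  set Q : ℕ := ordCompl[3] q with hQ
  set U : ℕ → ℤ := fun i => u (b + i) with hUdef
  have hRU : Rec q U (fun i => c (b + i)) := fun i => h.rec (b + i)
  have hper : ∀ i, U (i + n) = U i := fun i => by rw [hn]; exact per hRU hU i
  have hdrec : ∀ i, 2 * d (i + 1) = (if U i % 2 = 1 then 3 * d i + (Q : ℕ) else d i) :=
    fun i => (hrec i).2.2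
  have hdper : ∀ i, d (i + n) = d i := fun i => c_periodic U d Q n hper hdrec i
  have hkU : kk U 0 n = k := hcount b hU
  have hQq : Q ∣ q := Nat.ordCompl_dvd q 3
  have hgk : (3 : ZMod Q) ^ k = 1 := by
    obtain ⟨r, -, hr⟩ := walk U d Q hdrec 0 n
    rw [hdper 0, hkU] at hr
    have h2 : (Q : ℤ) ∣ (2 ^ n - 3 ^ k) * d 0 := ⟨r, by linear_combination hr⟩
    have h3 : (Q : ℤ) ∣ 2 ^ n - 3 ^ k := (hcopd 0).symm.dvd_of_dvd_mul_right h2
    have h4 : (q : ℤ) ∣ 2 ^ n - 1 :=
      intCast_two_pow _ 1 (by rw [hn, pow_orderOf_eq_one]; norm_num)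
    have h5 : (Q : ℤ) ∣ 2 ^ n - 1 := (Int.natCast_dvd_natCast.2 hQq).trans h4
    have h6 : (Q : ℤ) ∣ 3 ^ k - 1 := by
      have := dvd_sub h5 h3
      have e : (2 : ℤ) ^ n - 1 - (2 ^ n - 3 ^ k) = 3 ^ k - 1 := by ring
      rwa [e] at this
    have h7 : (((3 ^ k - 1 : ℤ)) : ZMod Q) = 0 := (ZMod.intCast_zmod_eq_zero_iff_dvd _ _).2 h6
    push_cast at h7
    exact sub_eq_zero.1 h7
  have hk1 : 0 < k := by
    rw [← hkU]
    apply kk_pos
    apply first_period hn0 hper (fun z => z % 2 = 1)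
    obtain ⟨i, hi, hi'⟩ := exists_odd_step h.rec b (by have := (hU 0).2; simpa using this.ne)
    obtain ⟨j, rfl⟩ := Nat.exists_eq_add_of_le hi
    exact ⟨j, hi'⟩
  have hk2 : k < n := by
    rw [← hkU]
    apply kk_lt
    exact first_period hn0 hper (fun z => ¬ z % 2 = 1) (exists_even hRU hU)
  refine ⟨hgk, hk1, hk2, ?_, ?_, ?_⟩
  · intro hpos
    have hs := sign_pos h hodd' (by omega)
    have hcper : ∀ i, c (b + (i + n)) = c (b + i) := by
      intro i
      have := hdper i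
      rw [hcd, hcd, this]
    have hE0 : 0 < c (b + 0) - u (b + 0) := by
      have h2 := (hs (b + (0 + n))).2.2 (by omega)
      have h3 := hper 0
      simp only [hUdef] at h3
      rw [hcper, h3] at h2
      exact h2
    obtain ⟨r, hr, hr'⟩ := walkD hRU (fun i => (hU i).1) 0 n
    have h3 := hper 0
    rw [hkU] at hr'
    simp only [hUdef] at h3 hr'
    rw [hcper, h3] at hr'
    have h4 : (3 : ℤ) ^ k ≤ 2 ^ n := by
      by_contra hcon
      push Not at hcon
      nlinarith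
    have h6 : (3 : ℤ) ^ k < 2 ^ n := lt_of_le_of_ne h4 (pow_ne hn0)
    exact_mod_cast h6
  · intro hneg
    have hu1 : ¬ (-(q : ℤ) < u 0) := fun hh =>
      no_unit_interval q hq u c h hh (by omega) hodd
    have hu2 : u 0 ≠ -(q : ℤ) := by
      intro h2
      rw [h2] at hcop
      have h3 : IsCoprime (q : ℤ) (q : ℤ) := (IsCoprime.neg_left_iff _ _).1 hcop
      have h4 := isCoprime_self.1 h3
      rw [Int.isUnit_iff] at h4
      omega
    have hu3 : u 0 < -(q : ℤ) := by omega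
    -- the first time in the interval
    obtain ⟨a', ha'⟩ := eventually_unit q hq u c h
    have hex : ∃ a, -(q : ℤ) ≤ u a := ⟨a', (ha' a' le_rfl).1⟩
    obtain ⟨a, ha1, ha2⟩ : ∃ a, -(q : ℤ) ≤ u a ∧ ∀ i < a, u i < -(q : ℤ) := by
      classical
      refine ⟨Nat.find hex, Nat.find_spec hex, fun i hi => ?_⟩
      have := Nat.find_min hex hi
      omega
    have ha0 : 1 ≤ a := by
      rcases Nat.eq_zero_or_pos a with h2 | h2
      · rw [h2] at ha1; omega
      · exact h2
    have ha3 : u a ≤ 0 := by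
      obtain ⟨a'', rfl⟩ : ∃ a'', a = a'' + 1 := ⟨a - 1, by omega⟩
      have h2 := ha2 a'' (by omega)
      by_cases hj' : u a'' % 2 = 1
      · obtain ⟨-, h3, -⟩ := h.rec.odd hj'
        omega
      · obtain ⟨-, h3, -⟩ := h.rec.even hj'
        omega
    have hD := (sign_neg h hodd' ha2 a le_rfl).2 ha0
    -- strict inequalities in the tail
    have hcu := coprime_u h.rec hcop
    have hq1Z : (1 : ℤ) < q := by exact_mod_cast h1
    have hV : ∀ i, -(q : ℤ) < u (a + i) ∧ u (a + i) < 0 := by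
      intro i
      obtain ⟨b1, b2⟩ := unit_inv_add h.rec ha1 ha3 i
      refine ⟨lt_of_le_of_ne b1 fun h3 => ?_, lt_of_le_of_ne b2 fun h3 => ?_⟩
      · have h4 := hcu (a + i)
        rw [← h3] at h4
        have h5 : IsCoprime (q : ℤ) (q : ℤ) := (IsCoprime.neg_left_iff _ _).1 h4
        have h6 := isCoprime_self.1 h5
        rw [Int.isUnit_iff] at h6
        omega
      · have h4 := hcu (a + i)
        rw [h3] at h4
        have h6 := isCoprime_zero_left.1 h4
        rw [Int.isUnit_iff] at h6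
        omega
    have hRV : Rec q (fun i => u (a + i)) (fun i => c (a + i)) := fun i => h.rec (a + i)
    have hperV : ∀ i, (fun i => u (a + i)) (i + n) = (fun i => u (a + i)) i :=
      fun i => by rw [hn]; exact per hRV hV i
    have hperC : ∀ i, (fun i => c (a + i)) (i + n) = (fun i => c (a + i)) i :=
      fun i => c_periodic (fun i => u (a + i)) (fun i => c (a + i)) q n hperV
        (fun i => (hRV i).2.2) i
    obtain ⟨r, hr, hr'⟩ := walkD hRV (fun i => (hV i).1) 0 n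
    have e1 := hperV 0
    have e2 := hperC 0
    rw [hcount a hV] at hr'
    simp only at e1 e2 hr'
    rw [e1, e2] at hr'
    simp only [add_zero] at hr'
    have h4 : (2 : ℤ) ^ n ≤ 3 ^ k := by
      by_contra hcon
      push Not at hcon
      nlinarith
    have h6 : (2 : ℤ) ^ n < 3 ^ k := lt_of_le_of_ne h4 (pow_ne hn0).symm
    exact_mod_cast h6
  · rintro ⟨j, hj⟩
    obtain ⟨m, hm, hm'⟩ := half hq h1 hj
    have hqodd : (q : ℤ) % 2 = 1 := by
      rcases hq with ⟨t, ht⟩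
      omega
    have hnm : n = 2 * m := by rw [hn]; exact hm
    have h2 := cnt_flip hqodd (flip hRU hU hm') m
    have h3 : kk U 0 n = m := by
      rw [kk_eq_cnt, hnm, two_mul]
      omega
    omega

end Pool.Agent.Lib.MP_f64c7e_nt.FP
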