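import Pool.Agent.Lib.MP_f64c7e_nt.FP.Rational
import Pool.Agent.Lib.MP_f64c7e_nt.FP.Orders2

/-!
When `-1` is a power of `2` modulo `q`, the order of `3` divides half the order of `2`; if the units
modulo the prime-to-3 part are nearly cyclic, the group generated by `2` and `3` is small.
-/

set_option autoImplicit false

namespace Pool.Agent.Lib.MP_f64c7e_nt.FP

theorem card_closure_le {M : ℕ} [NeZero M] (a b z : (ZMod M)ˣ) (n c : ℕ) (hn : 0 < n) (hc : 0 < c)
    (ha : a ^ n = 1) (hb : b ^ n = 1) (hz : ∀ x : (ZMod M)ˣ, x ^ c ∈ Subgroup.zpowers z) :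
    Nat.card (Submonoid.closure ({(a : ZMod M), (b : ZMod M)} : Set (ZMod M))) ≤ c ^ 2 * n := by
  classical
  set K : Subgroup (ZMod M)ˣ := Subgroup.closure {a ^ c, b ^ c} with hK
  have hKz : K ≤ Subgroup.zpowers z := by
    rw [hK, Subgroup.closure_le]
    rintro x (rfl | rfl)
    · exact hz a
    · exact hz b
  have hKn : ∀ x ∈ K, x ^ n = 1 := by
    have h1 : K ≤ (powMonoidHom n : (ZMod M)ˣ →* (ZMod M)ˣ).ker := by
      rw [hK, Subgroup.closure_le]
      rintro x (rfl | rfl)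
      · rw [SetLike.mem_coe, MonoidHom.mem_ker, powMonoidHom_apply, ← pow_mul, mul_comm, pow_mul, ha,
          one_pow]
      · rw [SetLike.mem_coe, MonoidHom.mem_ker, powMonoidHom_apply, ← pow_mul, mul_comm, pow_mul, hb,
          one_pow]
    intro x hx
    have := h1 hx
    rwa [MonoidHom.mem_ker, powMonoidHom_apply] at this
  have hKcyc : IsCyclic K :=
    isCyclic_of_injective (Subgroup.inclusion hKz) (Subgroup.inclusion_injective hKz)
  have hKcard : Nat.card K ≤ n := by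
    obtain ⟨w, hw⟩ := hKcyc.exists_generator
    have h1 : orderOf w = Nat.card K := orderOf_eq_card_of_forall_mem_zpowers hw
    rw [← h1]
    refine Nat.le_of_dvd hn (orderOf_dvd_of_pow_eq_one ?_)
    have := hKn w.1 w.2
    exact Subtype.ext (by simpa using this)
  have haK : a ^ c ∈ K := Subgroup.subset_closure (Or.inl rfl)
  have hbK : b ^ c ∈ K := Subgroup.subset_closure (Or.inr rfl)
  have hsurj : ∀ y : Submonoid.closure ({(a : ZMod M), (b : ZMod M)} : Set (ZMod M)),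
      ∃ t : Fin c × Fin c × K,
        ((a ^ (t.1 : ℕ) * b ^ (t.2.1 : ℕ) * (t.2.2 : (ZMod M)ˣ) : (ZMod M)ˣ) : ZMod M) = y := by
    rintro ⟨y, hy⟩
    obtain ⟨s, t, hst⟩ := (Submonoid.mem_closure_pair _ _ _).1 hy
    refine ⟨(⟨s % c, Nat.mod_lt _ hc⟩, ⟨t % c, Nat.mod_lt _ hc⟩,
      ⟨(a ^ c) ^ (s / c) * (b ^ c) ^ (t / c), K.mul_mem (K.pow_mem haK _) (K.pow_mem hbK _)⟩), ?_⟩
    have h1 : a ^ (s % c) * b ^ (t % c) * ((a ^ c) ^ (s / c) * (b ^ c) ^ (t / c)) = a ^ s * b ^ t := by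
      have h2 : a ^ s = a ^ (s % c) * (a ^ c) ^ (s / c) := by
        rw [← pow_mul, ← pow_add, Nat.mod_add_div]
      have h3 : b ^ t = b ^ (t % c) * (b ^ c) ^ (t / c) := by
        rw [← pow_mul, ← pow_add, Nat.mod_add_div]
      rw [h2, h3]
      exact mul_mul_mul_comm _ _ _ _
    simp only [h1]
    rw [← hst]
    push_cast
    rfl
  choose f hf using hsurj
  have hinj : Function.Injective f := by
    intro y y' h
    apply Subtype.ext
    rw [← hf y, ← hf y', h]
  calc Nat.card (Submonoid.closure ({(a : ZMod M), (b : ZMod M)} : Set (ZMod M)))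
      ≤ Nat.card (Fin c × Fin c × K) := Nat.card_le_card_of_injective f hinj
    _ = c * (c * Nat.card K) := by simp
    _ ≤ c * (c * n) := Nat.mul_le_mul_left _ (Nat.mul_le_mul_left _ hKcard)
    _ = c ^ 2 * n := by ring

/-- **No index condition when `-1` is a power of `2` and the units are nearly cyclic.** -/
theorem walk_bound_cyclic (C : ℕ) : ∃ ρ : ℕ, ∀ q : ℕ, Odd q → ∀ u c : ℕ → ℤ, Walk q u c →
    Odd (u 0) → IsCoprime (u 0) (q : ℤ) → (∃ j : ℕ, (2 : ZMod q) ^ j = -1) →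
    (∃ e : ℕ, 0 < e ∧ e ≤ C ∧ ∃ z : (ZMod (ordCompl[3] q))ˣ,
      ∀ x : (ZMod (ordCompl[3] q))ˣ, x ^ e ∈ Subgroup.zpowers z) →
    (orderOf (2 : ZMod q)) ^ 2 < ρ * q := by
  obtain ⟨ρ, hρ⟩ := walk_bound (C ^ 2)
  refine ⟨ρ, fun q hq u c hw hodd hcop hneg he => hρ q hq u c hw hcop ?_⟩
  have hq0 : 0 < q := hq.pos
  set Q : ℕ := ordCompl[3] q with hQ
  obtain ⟨e, he0, heC, z, hz⟩ := he
  have hQdvd : Q ∣ q := Nat.ordCompl_dvd q 3
  have hQ0 : 0 < Q := Nat.ordCompl_pos 3 hq0.ne'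
  have : NeZero Q := ⟨hQ0.ne'⟩
  have hn : 0 < orderOf (2 : ZMod q) := Orders.order_pos hq
  set n := orderOf (2 : ZMod q) with hndef
  have h2Q : Nat.Coprime 2 Q := (Odd.of_dvd_nat hq hQdvd).coprime_two_left
  have h3Q : Nat.Coprime 3 Q := Nat.coprime_ordCompl Nat.prime_three hq0.ne'
  set a := ZMod.unitOfCoprime 2 h2Q with hadef
  set b := ZMod.unitOfCoprime 3 h3Q with hbdef
  have hav : (a : ZMod Q) = 2 := by rw [hadef, ZMod.coe_unitOfCoprime]; norm_num
  have hbv : (b : ZMod Q) = 3 := by rw [hbdef, ZMod.coe_unitOfCoprime]; norm_num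
  have ha : a ^ n = 1 := by
    apply Units.ext
    push_cast
    rw [hav]
    have h1 : (2 : ZMod q) ^ n = 1 := by rw [hndef, pow_orderOf_eq_one]
    have h2 := congrArg (ZMod.castHom hQdvd (ZMod Q)) h1
    rw [map_pow, map_one, map_ofNat] at h2
    exact h2
  have hb : b ^ n = 1 := by
    apply Units.ext
    push_cast
    rw [hbv]
    rcases Nat.lt_or_ge 1 q with hq1 | hq1
    · obtain ⟨h4, -, -, -, -, h9⟩ := order_constraint2 q hq hq1 u c hw hodd hcop n _ hndef rfl
      rw [← h9 hneg, mul_comm, pow_mul, h4, one_pow]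
    · have hQ1 : Q = 1 := by
        have := Nat.le_of_dvd hq0 hQdvd
        omega
      have : Subsingleton (ZMod Q) := by rw [hQ1]; infer_instance
      exact Subsingleton.elim _ _
  have h1 := card_closure_le a b z n e hn he0 ha hb hz
  rw [hav, hbv] at h1
  calc size23 q = Nat.card (Submonoid.closure ({2, 3} : Set (ZMod Q))) := rfl
    _ ≤ e ^ 2 * n := h1
    _ ≤ C ^ 2 * n := Nat.mul_le_mul_right _ (Nat.pow_le_pow_left heC 2)

end Pool.Agent.Lib.MP_f64c7e_nt.FP
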