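import Mathlib

/-!
Finitely many `S`-integral fixed points of the 3x+1 conjugacy map: common definitions.
-/

set_option autoImplicit false

open MeasureTheory

namespace Pool.Agent.Lib.MP_f64c7e_nt.FP

noncomputable section

instance instMeasurableSpaceQ3 : MeasurableSpace ℚ_[3] := borel _

instance instBorelSpaceQ3 : BorelSpace ℚ_[3] := ⟨rfl⟩

/-- One step of the 3x+1 walk with prescribed digit: `(3x+1)/2` or `x/2`. -/
def T {K : Type*} [Field K] (b : Bool) (x : K) : K := if b then (3 * x + 1) / 2 else x / 2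

/-- The composition along a word; the head of the list is applied last. -/
def Tw {K : Type*} [Field K] : List Bool → K → K
  | [], x => x
  | b :: w, x => T b (Tw w x)

/-- The space `ℝ × ℚ₃`. -/
abbrev X : Type := ℝ × ℚ_[3]

/-- The steps on `ℝ × ℚ₃`. -/
def TX (b : Bool) (p : X) : X := (T b p.1, T b p.2)

/-- Words on `ℝ × ℚ₃`. -/
def TXw (w : List Bool) (p : X) : X := (Tw w p.1, Tw w p.2)

/-- The affine map `p ↦ 3^j p + δ` on `ℝ × ℚ₃`. -/
def gX (j : ℕ) (δ : ℤ) (p : X) : X := (3 ^ j * p.1 + δ, 3 ^ j * p.2 + δ)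

/-- The unit ball `ℤ₃` of `ℚ₃` as a compact set with non-empty interior. -/
def K0 : TopologicalSpace.PositiveCompacts ℚ_[3] where
  carrier := Metric.closedBall 0 1
  isCompact' := isCompact_closedBall 0 1
  interior_nonempty' := by
    refine ⟨0, ?_⟩
    rw [mem_interior]
    exact ⟨Metric.ball 0 1, Metric.ball_subset_closedBall, Metric.isOpen_ball,
      Metric.mem_ball_self one_pos⟩

/-- Haar measure on `ℚ₃` with `m3 ℤ₃ = 1`. -/
def m3 : Measure ℚ_[3] := Measure.addHaarMeasure K0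

/-- Lebesgue times Haar. -/
def vol : Measure X := (volume : Measure ℝ).prod m3

/-- A cyclic walk: digits `ε i` and integers `b i` with `b i / Q = T (ε i) (b (i-1) / Q)`; all windows
of digits are equidistributed up to `G`. -/
structure IsSys (G n Q : ℕ) (ε : ZMod n → Bool) (b : ZMod n → ℤ) : Prop where
  Qpos : 0 < Q
  Q3 : Nat.Coprime Q 3
  inj : Function.Injective b
  nonneg : ∀ i, 0 ≤ b i
  step : ∀ i, 2 * b i = if ε i then 3 * b (i - 1) + Q else b (i - 1)
  freq : ∀ (L : ℕ) (w : Fin L → Bool),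
    |(Nat.card {i : ZMod n // ∀ m : Fin L, ε (i - ((m : ℕ) : ZMod n)) = w m} : ℝ) - n / 2 ^ L| ≤ G

/-- A cyclic walk whose windows of length at most `L₀` are equidistributed up to the relative
error `δ`. -/
structure Sys (L₀ : ℕ) (δ : ℝ) (n Q : ℕ) (ε : ZMod n → Bool) (b : ZMod n → ℤ) : Prop where
  Qpos : 0 < Q
  Q3 : Nat.Coprime Q 3
  inj : Function.Injective b
  nonneg : ∀ i, 0 ≤ b i
  step : ∀ i, 2 * b i = if ε i then 3 * b (i - 1) + Q else b (i - 1)
  freq : ∀ L ≤ L₀, ∀ w : Fin L → Bool,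
    |(Nat.card {i : ZMod n // ∀ m : Fin L, ε (i - ((m : ℕ) : ZMod n)) = w m} : ℝ) - n / 2 ^ L|
      ≤ δ * n

end

end Pool.Agent.Lib.MP_f64c7e_nt.FP
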