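import Pool.Agent.Lib.MP_f64c7e_nt.FP.Dens0
import Pool.Agent.Lib.MP_f64c7e_nt.FP.Coal

/-!
The stationary measure has no bounded density.
-/

set_option autoImplicit false

open MeasureTheory
open scoped ENNReal

namespace Pool.Agent.Lib.MP_f64c7e_nt.FP

theorem no_bounded_density (μ : Measure X) [IsProbabilityMeasure μ]
    (hself : μ = (2⁻¹ : ℝ≥0∞) • (μ.map (TX false) + μ.map (TX true)))
    (hsupp : μ {p : X | ¬ (0 ≤ p.1 ∧ ‖p.2‖ ≤ 1)} = 0)
    (C : ℝ≥0∞) (hC : C ≠ ⊤) (hle : μ ≤ C • vol) : False :=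
  Dens.no_bounded_density_of coal μ hself hsupp C hC hle

end Pool.Agent.Lib.MP_f64c7e_nt.FP
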