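import Pool.Agent.Lib.MP_f64c7e_nt.FP.Haar

/-!
The stationary measure of the walk is not bounded by a multiple of the volume (part 2 of the paper,
finding 4049), assuming the coalescence statement.
-/

set_option autoImplicit false

open MeasureTheory
open scoped ENNReal

namespace Pool.Agent.Lib.MP_f64c7e_nt.FP.Dens

/-- The coalescence statement. -/
def CoalS : Prop := ∀ (j : ℕ) (δ : ℤ), ¬ (j = 0 ∧ δ = 0) →
  ∃ w v : List Bool, w.length = v.length ∧ w ≠ v ∧
    ∀ (K : Type) [Field K] [CharZero K] (x : K), Tw w (3 ^ j * x + (δ : K)) = Tw v x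

/-! ### words and the stationary measure -/

theorem half_le {μ : Measure X}
    (hself : μ = (2⁻¹ : ℝ≥0∞) • (μ.map (TX false) + μ.map (TX true)))
    {E : Set X} (hE : MeasurableSet E) :
    μ (TX false ⁻¹' E) + μ (TX true ⁻¹' E) = 2 * μ E := by
  have h := congrArg (fun m : Measure X => m E) hself
  simp only [Measure.smul_apply, Measure.add_apply, smul_eq_mul] at h
  rw [Measure.map_apply (H17.measurable_TX false) hE, Measure.map_apply (H17.measurable_TX true) hE]
    at h
  rw [h, ← mul_assoc, ENNReal.mul_inv_cancel (by norm_num) (by norm_num), one_mul]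

theorem step_le {μ : Measure X}
    (hself : μ = (2⁻¹ : ℝ≥0∞) • (μ.map (TX false) + μ.map (TX true)))
    {E : Set X} (hE : MeasurableSet E) (b : Bool) : μ (TX b ⁻¹' E) ≤ 2 * μ E := by
  rw [← half_le hself hE]
  cases b
  · exact le_self_add
  · exact le_add_self

theorem pre_cons (b : Bool) (w : List Bool) (E : Set X) :
    TXw (b :: w) ⁻¹' E = TXw w ⁻¹' (TX b ⁻¹' E) := by
  rw [H17.TXw_cons]
  rfl

theorem word_le {μ : Measure X}
    (hself : μ = (2⁻¹ : ℝ≥0∞) • (μ.map (TX false) + μ.map (TX true)))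
    (w : List Bool) : ∀ {E : Set X}, MeasurableSet E → μ (TXw w ⁻¹' E) ≤ 2 ^ w.length * μ E := by
  induction w with
  | nil => intro E hE; rw [H17.TXw_nil]; simp
  | cons b w ih =>
    intro E hE
    rw [pre_cons]
    refine (ih (H17.measurable_TX b hE)).trans ?_
    rw [List.length_cons, pow_succ, mul_assoc]
    exact mul_le_mul_right (step_le hself hE b) _

theorem words_le {μ : Measure X}
    (hself : μ = (2⁻¹ : ℝ≥0∞) • (μ.map (TX false) + μ.map (TX true)))
    (w : List Bool) : ∀ (v : List Bool), w.length = v.length → w ≠ v →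
    ∀ {E : Set X}, MeasurableSet E →
      μ (TXw w ⁻¹' E) + μ (TXw v ⁻¹' E) ≤ 2 ^ w.length * μ E := by
  induction w with
  | nil =>
    intro v hv hne
    exact absurd (List.eq_nil_of_length_eq_zero (by simpa using hv.symm)).symm hne
  | cons b w ih =>
    intro v hv hne E hE
    cases v with
    | nil => simp at hv
    | cons b' v =>
      have hv' : w.length = v.length := by simpa using hv
      rw [pre_cons, pre_cons, List.length_cons, pow_succ, mul_assoc]
      by_cases hb : b = b'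
      · subst hb
        have hne' : w ≠ v := fun h => hne (by rw [h])
        refine (ih v hv' hne' (H17.measurable_TX b hE)).trans ?_
        exact mul_le_mul_right (step_le hself hE b) _
      · have h1 := word_le hself w (H17.measurable_TX b hE)
        have h2 := word_le hself v (H17.measurable_TX b' hE)
        rw [← hv'] at h2
        refine (add_le_add h1 h2).trans ?_
        rw [← mul_add]
        refine mul_le_mul_right ?_ _
        rw [← half_le hself hE]
        cases b <;> cases b'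
        · exact absurd rfl hb
        · exact le_rfl
        · exact (add_comm _ _).le
        · exact absurd rfl hb

/-! ### the density -/

/-- If `μ ≤ C vol` then there is a constant `c` with `μ ≤ c vol` and a measurable set `A` of finite
positive volume on which `μ` is at least `t vol`, `c < 2 t`. -/
theorem exists_dense (μ : Measure X) [IsProbabilityMeasure μ]
    (hsupp : μ {p : X | ¬ (0 ≤ p.1 ∧ ‖p.2‖ ≤ 1)} = 0)
    (C : ℝ≥0∞) (hC : C ≠ ⊤) (hle : μ ≤ C • vol) :
    ∃ (c t : ℝ≥0∞) (K : ℕ) (A : Set X), c ≠ ⊤ ∧ c < 2 * t ∧ (∀ B, μ B ≤ c * vol B) ∧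
      MeasurableSet A ∧ vol A ≠ 0 ∧ A ⊆ Set.Ico 0 (K : ℝ) ×ˢ Metric.closedBall 0 1 ∧
      ∀ B ⊆ A, MeasurableSet B → t * vol B ≤ μ B := by
  have hsf : SigmaFinite vol := sigmaFinite_vol
  have hac : μ ≪ vol := by
    refine Measure.AbsolutelyContinuous.mk fun s _ hs => ?_
    have h := hle s
    rw [Measure.smul_apply, hs, smul_zero] at h
    exact le_antisymm h bot_le
  set F : X → ℝ≥0∞ := μ.rnDeriv vol with hF
  have hFm : Measurable F := Measure.measurable_rnDeriv μ vol
  have hμF : vol.withDensity F = μ := Measure.withDensity_rnDeriv_eq μ vol hac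
  have hμB : ∀ B, MeasurableSet B → μ B = ∫⁻ x in B, F x ∂vol := by
    intro B hB
    rw [← withDensity_apply F hB, hμF]
  set S : Set X := {p : X | 0 ≤ p.1 ∧ ‖p.2‖ ≤ 1} with hS
  have hSm : MeasurableSet S := by
    have h1 : MeasurableSet {p : X | 0 ≤ p.1} := measurableSet_le measurable_const measurable_fst
    have h2 : MeasurableSet {p : X | ‖p.2‖ ≤ 1} :=
      measurableSet_le (measurable_norm.comp measurable_snd) measurable_const
    exact h1.inter h2
  set c : ℝ≥0∞ := essSup F vol with hc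
  have hFc : ∀ᵐ x ∂vol, F x ≤ c := ae_le_essSup
  have hcC : c ≤ C := by
    refine essSup_le_of_ae_le C ?_
    refine ae_le_of_forall_setLIntegral_le_of_sigmaFinite hFm fun s hs _ => ?_
    rw [← hμB s hs, setLIntegral_const]
    exact hle s
  have hctop : c ≠ ⊤ := ne_top_of_le_ne_top hC hcC
  have hle1 : ∀ B, MeasurableSet B → μ B ≤ c * vol B := by
    intro B hB
    rw [hμB B hB, ← setLIntegral_const]
    exact setLIntegral_mono_ae aemeasurable_const (hFc.mono fun x hx _ => hx)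
  have hle' : ∀ B, μ B ≤ c * vol B := by
    intro B
    have h1 := hle1 _ (measurableSet_toMeasurable vol B)
    rw [measure_toMeasurable] at h1
    exact (measure_mono (subset_toMeasurable vol B)).trans h1
  have hc0 : c ≠ 0 := by
    intro h0
    have := hle' Set.univ
    rw [h0, zero_mul, measure_univ] at this
    exact absurd this (by norm_num)
  obtain ⟨t, ht1, ht2⟩ : ∃ t, c / 2 < t ∧ t < c := exists_between (ENNReal.half_lt_self hc0 hctop)
  have hct : c < 2 * t := by
    have h1 : c = 2 * (c / 2) := by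
      rw [ENNReal.mul_div_cancel (by norm_num) (by norm_num)]
    rw [h1]
    exact (ENNReal.mul_lt_mul_iff_right (by norm_num) (by norm_num)).2 ht1
  have ht0 : t ≠ 0 := by
    rintro rfl
    exact absurd ht1 (by simp)
  -- the set where the density is large
  set G : Set X := {x | t < F x} with hG
  have hGm : MeasurableSet G := measurableSet_lt measurable_const hFm
  have hG0 : vol G ≠ 0 := by
    intro h0
    have h1 : ∀ᵐ x ∂vol, F x ≤ t := by
      rw [ae_iff]
      simpa [hG] using h0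
    have h2 : c ≤ t := essSup_le_of_ae_le t h1
    exact absurd h2 (not_le.2 ht2)
  have hGB : ∀ B ⊆ G, MeasurableSet B → t * vol B ≤ μ B := by
    intro B hB hBm
    rw [hμB B hBm, ← setLIntegral_const]
    exact setLIntegral_mono hFm fun x hx => (hB hx).le
  have hGS : vol (G \ S) = 0 := by
    have h1 := hGB (G \ S) Set.sdiff_subset (hGm.diff hSm)
    have h2 : μ (G \ S) = 0 := by
      refine measure_mono_null ?_ hsupp
      intro x hx
      exact hx.2
    rw [h2] at h1
    have h3 := le_antisymm h1 bot_le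
    rcases mul_eq_zero.1 h3 with h | h
    · exact absurd h ht0
    · exact h
  have hGS0 : vol (G ∩ S) ≠ 0 := by
    intro h0
    apply hG0
    rw [← Set.inter_union_sdiff G S]
    exact measure_union_null h0 hGS
  obtain ⟨K, hK⟩ : ∃ K : ℕ, vol ((G ∩ S) ∩ {p : X | p.1 < K}) ≠ 0 := by
    by_contra hcon
    push Not at hcon
    apply hGS0
    have h1 : G ∩ S = ⋃ K : ℕ, (G ∩ S) ∩ {p : X | p.1 < K} := by
      rw [← Set.inter_iUnion]
      refine (Set.inter_eq_left.2 fun p _ => ?_).symm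
      obtain ⟨K, hK⟩ := exists_nat_gt p.1
      exact Set.mem_iUnion.2 ⟨K, hK⟩
    rw [h1]
    exact measure_iUnion_null hcon
  refine ⟨c, t, K, (G ∩ S) ∩ {p : X | p.1 < K}, hctop, hct, hle', ?_, hK, ?_, ?_⟩
  · exact (hGm.inter hSm).inter (measurableSet_lt measurable_fst measurable_const)
  · rintro p ⟨⟨-, hp1, hp2⟩, hp3⟩
    refine ⟨⟨hp1, hp3⟩, ?_⟩
    rw [Metric.mem_closedBall, dist_zero_right]
    exact hp2
  · intro B hB hBm
    exact hGB B (fun p hp => (hB hp).1.1) hBm

/-! ### disjointness of the images -/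

theorem images_null {μ : Measure X}
    (hself : μ = (2⁻¹ : ℝ≥0∞) • (μ.map (TX false) + μ.map (TX true)))
    {c t : ℝ≥0∞} (hct : c < 2 * t) (hle : ∀ B, μ B ≤ c * vol B) {A : Set X}
    (hA : MeasurableSet A) (hAf : vol A ≠ ⊤) (hAB : ∀ B ⊆ A, MeasurableSet B → t * vol B ≤ μ B)
    (w v : List Bool) (hwv : w.length = v.length) (hne : w ≠ v) :
    vol (TXw w '' A ∩ TXw v '' A) = 0 := by
  set B : Set X := TXw w '' A ∩ TXw v '' A with hB
  have hBm : MeasurableSet B := (TXw_image w A hA).1.inter (TXw_image v A hA).1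
  have key : ∀ u : List Bool, B ⊆ TXw u '' A → t * (2 ^ u.length * vol B) ≤ μ (TXw u ⁻¹' B) := by
    intro u hu
    have h1 : MeasurableSet (TXw u ⁻¹' B) := measurable_TXw u hBm
    have h2 : TXw u ⁻¹' B ⊆ A := by
      intro p hp
      obtain ⟨q, hq, hqp⟩ := hu hp
      rwa [← TXw_injective u hqp]
    have h3 : TXw u '' (TXw u ⁻¹' B) = B := by
      rw [Set.image_preimage_eq_iff]
      exact hu.trans (Set.image_subset_range _ _)
    have h4 := (TXw_image u _ h1).2
    rw [h3] at h4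
    have h5 : 2 ^ u.length * vol B = vol (TXw u ⁻¹' B) := by
      rw [h4, ENNReal.mul_div_cancel (by positivity) (by simp)]
    rw [h5]
    exact hAB _ h2 h1
  have k1 := key w Set.inter_subset_left
  have k2 := key v Set.inter_subset_right
  have k3 := words_le hself w v hwv hne hBm
  rw [← hwv] at k2
  have k4 : t * (2 ^ w.length * vol B) + t * (2 ^ w.length * vol B) ≤ 2 ^ w.length * (c * vol B) :=
    (add_le_add k1 k2).trans (k3.trans (mul_le_mul_right (hle B) _))
  by_contra h0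
  have hf : vol B ≠ ⊤ := by
    refine ne_top_of_le_ne_top ?_ (measure_mono (Set.inter_subset_left : B ⊆ TXw w '' A))
    rw [(TXw_image w A hA).2]
    exact ENNReal.div_ne_top hAf (by positivity)
  have k5 : (2 ^ w.length * vol B) * (2 * t) ≤ (2 ^ w.length * vol B) * c := by
    calc (2 ^ w.length * vol B) * (2 * t) = t * (2 ^ w.length * vol B) + t * (2 ^ w.length * vol B) := by
          ring
      _ ≤ _ := k4
      _ = _ := by ring
  have h6 : (2 ^ w.length * vol B) ≠ 0 := mul_ne_zero (by positivity) h0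
  have h7 : (2 ^ w.length * vol B) ≠ ⊤ := ENNReal.mul_ne_top (by simp) hf
  exact absurd ((ENNReal.mul_le_mul_iff_right h6 h7).1 k5) (not_le.2 hct)

/-! ### recurrence -/

theorem ball_one : Metric.closedBall (0 : ℚ_[3]) 1 =
    Metric.closedBall (0 : ℚ_[3]) ((3 : ℝ) ^ (-((0 : ℕ) : ℤ))) := by simp

theorem vol_box0 (y : ℝ) (hy : 0 ≤ y) :
    vol (Set.Ico 0 y ×ˢ Metric.closedBall (0 : ℚ_[3]) 1) = ENNReal.ofReal y := by
  rw [ball_one, vol_box 0 y 0 0 hy]
  simp

theorem gX_mem (K : ℕ) (J D j d : ℕ) (hj : j ≤ J) (hd : d < D) {p : X}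
    (hp : p ∈ Set.Ico 0 (K : ℝ) ×ˢ Metric.closedBall (0 : ℚ_[3]) 1) :
    gX j (d : ℤ) p ∈ Set.Ico 0 ((3 : ℝ) ^ J * K + D) ×ˢ Metric.closedBall (0 : ℚ_[3]) 1 := by
  obtain ⟨⟨h1, h2⟩, h3⟩ := hp
  have h3j : (3 : ℝ) ^ j ≤ 3 ^ J := pow_le_pow_right₀ (by norm_num) hj
  have h3p : (0 : ℝ) < 3 ^ j := by positivity
  have hd' : (d : ℝ) < D := by exact_mod_cast hd
  refine ⟨⟨?_, ?_⟩, ?_⟩
  · simp only [gX]
    push_cast
    positivity
  · simp only [gX]
    push_cast
    have h4 : (3 : ℝ) ^ j * p.1 ≤ 3 ^ J * K := by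
      apply mul_le_mul h3j h2.le h1 (by positivity)
    linarith
  · rw [Metric.mem_closedBall, dist_zero_right] at h3 ⊢
    simp only [gX]
    refine (Padic.nonarchimedean _ _).trans (max_le ?_ ?_)
    · rw [norm_mul, norm_pow, H17.norm_three]
      have h5 : ((1 : ℝ) / 3) ^ j ≤ 1 := pow_le_one₀ (by norm_num) (by norm_num)
      exact mul_le_one₀ h5 (norm_nonneg _) h3
    · exact_mod_cast Padic.norm_int_le_one (d : ℤ)

theorem recur {K : ℕ} {A : Set X} (hA : MeasurableSet A) (hA0 : vol A ≠ 0)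
    (hAK : A ⊆ Set.Ico 0 (K : ℝ) ×ˢ Metric.closedBall 0 1) :
    ∃ (j : ℕ) (δ : ℤ), ¬ (j = 0 ∧ δ = 0) ∧ vol (A ∩ gX j δ '' A) ≠ 0 := by
  have hAf : vol A ≠ ⊤ := by
    refine ne_top_of_le_ne_top ?_ (measure_mono hAK)
    rw [vol_box0 _ (by positivity)]
    exact ENNReal.ofReal_ne_top
  -- choice of the parameters
  obtain ⟨J, hJ⟩ : ∃ J : ℕ, 2 ≤ ((J + 1 : ℕ) : ℝ≥0∞) * vol A := by
    obtain ⟨J, hJ⟩ := ENNReal.exists_nat_mul_gt hA0 (b := 2) (by norm_num)
    refine ⟨J, hJ.le.trans ?_⟩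
    gcongr
    exact Nat.le_succ J
  obtain ⟨D, hD⟩ : ∃ D : ℕ, (3 : ℝ) ^ J * K < D := exists_nat_gt _
  have hD0 : 0 < D := by
    have : (0 : ℝ) < D := lt_of_le_of_lt (by positivity) hD
    exact_mod_cast this
  let f : Fin (J + 1) × Fin D → Set X := fun q => gX q.1 ((q.2 : ℕ) : ℤ) '' A
  have hfm : ∀ q, MeasurableSet (f q) := fun q => (gX_image _ _ A hA).1
  have hfv : ∀ q, vol (f q) = vol A := fun q => (gX_image _ _ A hA).2
  obtain ⟨q, q', hqq, hv⟩ : ∃ q q', q ≠ q' ∧ vol (f q ∩ f q') ≠ 0 := by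
    by_contra hcon
    push Not at hcon
    have h1 : vol (⋃ q ∈ (Finset.univ : Finset (Fin (J + 1) × Fin D)), f q) =
        ∑ q ∈ (Finset.univ : Finset (Fin (J + 1) × Fin D)), vol (f q) := by
      refine measure_biUnion_finset₀ ?_ fun q _ => (hfm q).nullMeasurableSet
      intro q _ q' _ hqq
      exact hcon q q' hqq
    have h2 : vol (⋃ q ∈ (Finset.univ : Finset (Fin (J + 1) × Fin D)), f q) ≤
        ENNReal.ofReal ((3 : ℝ) ^ J * K + D) := by
      rw [← vol_box0 _ (by positivity)]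
      refine measure_mono (Set.iUnion₂_subset fun q _ => ?_)
      rintro _ ⟨p, hp, rfl⟩
      exact gX_mem K J D q.1 q.2 (Nat.lt_succ_iff.1 q.1.2) q.2.2 (hAK hp)
    rw [h1] at h2
    simp only [hfv, Finset.sum_const, Finset.card_univ, Fintype.card_prod, Fintype.card_fin,
      nsmul_eq_mul] at h2
    have h3 : (2 : ℝ≥0∞) * D ≤ (((J + 1) * D : ℕ) : ℝ≥0∞) * vol A := by
      calc (2 : ℝ≥0∞) * D ≤ (((J + 1 : ℕ) : ℝ≥0∞) * vol A) * D := by gcongr
        _ = _ := by push_cast; ring
    have h4 := h3.trans h2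
    have h5 : (2 : ℝ≥0∞) * D = ENNReal.ofReal (2 * D) := by
      rw [ENNReal.ofReal_mul (by norm_num)]
      simp
    rw [h5] at h4
    have h6 := (ENNReal.ofReal_le_ofReal_iff (by positivity)).1 h4
    linarith
  -- the two maps
  obtain ⟨q, q', hqq, hv, hle⟩ : ∃ q q', q ≠ q' ∧ vol (f q ∩ f q') ≠ 0 ∧ (q.1 : ℕ) ≤ q'.1 := by
    rcases le_total (q.1 : ℕ) q'.1 with h | h
    · exact ⟨q, q', hqq, hv, h⟩
    · exact ⟨q', q, hqq.symm, by rwa [Set.inter_comm], h⟩
  set j : ℕ := (q.1 : ℕ) with hj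
  set j' : ℕ := (q'.1 : ℕ) with hj'
  set d : ℤ := ((q.2 : ℕ) : ℤ) with hd
  set d' : ℤ := ((q'.2 : ℕ) : ℤ) with hd'
  obtain ⟨i, hi⟩ : ∃ i, j' = j + i := ⟨j' - j, by omega⟩
  obtain ⟨x, ⟨p, hp, hpx⟩, p', hp', hpx'⟩ : (f q ∩ f q').Nonempty := by
    by_contra hcon
    rw [Set.not_nonempty_iff_eq_empty] at hcon
    exact hv (by rw [hcon, measure_empty])
  have hpp : gX j d p = gX j' d' p' := hpx.trans hpx'.symm
  have h2 : (3 : ℚ_[3]) ^ j * p.2 + d = 3 ^ j' * p'.2 + d' := congrArg Prod.snd hpp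
  have hdvd : (3 ^ j : ℤ) ∣ d' - d := by
    have h3 : ((d' - d : ℤ) : ℚ_[3]) = 3 ^ j * (p.2 - 3 ^ i * p'.2) := by
      push_cast
      rw [hi, pow_add] at h2
      linear_combination -h2
    have hn1 : ‖p.2‖ ≤ 1 := by simpa using (hAK hp).2
    have hn2 : ‖p'.2‖ ≤ 1 := by simpa using (hAK hp').2
    have h4 : ‖((d' - d : ℤ) : ℚ_[3])‖ ≤ (3 : ℝ) ^ (-(j : ℤ)) := by
      rw [h3, norm_mul, norm_pow, H17.norm_three, zpow_neg, zpow_natCast, one_div, inv_pow]
      have h5 : ‖p.2 - 3 ^ i * p'.2‖ ≤ 1 := by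
        rw [sub_eq_add_neg]
        refine (Padic.nonarchimedean _ _).trans (max_le hn1 ?_)
        rw [norm_neg, norm_mul, norm_pow, H17.norm_three]
        exact mul_le_one₀ (pow_le_one₀ (by norm_num) (by norm_num)) (norm_nonneg _) hn2
      exact mul_le_of_le_one_right (by positivity) h5
    have h6 := (Padic.norm_int_le_pow_iff_dvd (p := 3) (d' - d) j).1 (by exact_mod_cast h4)
    exact_mod_cast h6
  obtain ⟨δ, hδ⟩ := hdvd
  refine ⟨i, δ, ?_, ?_⟩
  · rintro ⟨h0, h0'⟩
    apply hqq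
    have h7 : d' = d := by rw [h0'] at hδ; linarith
    have h8 : j' = j := by omega
    have h9 : (q.2 : ℕ) = (q'.2 : ℕ) := by
      have := h7.symm
      rw [hd, hd'] at this
      exact_mod_cast this
    exact Prod.ext (Fin.ext h8.symm) (Fin.ext h9)
  · have hcomp : ∀ p : X, gX j' d' p = gX j d (gX i δ p) := by
      intro p
      have e : d' = 3 ^ j * δ + d := by linarith
      simp only [gX]
      rw [e, hi]
      push_cast
      ext
      · simp only
        ring
      · simp only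
        ring
    have h8 : f q ∩ f q' = gX j d '' (A ∩ gX i δ '' A) := by
      have e1 : f q' = gX j d '' (gX i δ '' A) := by
        rw [Set.image_image]
        exact Set.image_congr fun p _ => hcomp p
      rw [e1, Set.image_inter (gX_injective j d)]
    rw [h8, (gX_image j d _ (hA.inter (gX_image i δ A hA).1)).2] at hv
    exact hv

/-- The stationary measure is not bounded by a multiple of the volume. -/
theorem no_bounded_density_of (hcoal : CoalS) (μ : Measure X) [IsProbabilityMeasure μ]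
    (hself : μ = (2⁻¹ : ℝ≥0∞) • (μ.map (TX false) + μ.map (TX true)))
    (hsupp : μ {p : X | ¬ (0 ≤ p.1 ∧ ‖p.2‖ ≤ 1)} = 0) (C : ℝ≥0∞) (hC : C ≠ ⊤)
    (hle : μ ≤ C • vol) : False := by
  obtain ⟨c, t, K, A, hc, hct, hle', hA, hA0, hAK, hAB⟩ := exists_dense μ hsupp C hC hle
  have hAf : vol A ≠ ⊤ := by
    refine ne_top_of_le_ne_top ?_ (measure_mono hAK)
    rw [vol_box0 _ (by positivity)]
    exact ENNReal.ofReal_ne_top
  obtain ⟨j, δ, hjδ, hv⟩ := recur hA hA0 hAK
  obtain ⟨w, v, hwv, hne, hK⟩ := hcoal j δ hjδ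
  have hTX : ∀ p : X, TXw w (gX j δ p) = TXw v p := by
    intro p
    ext
    · exact hK ℝ p.1
    · exact hK ℚ_[3] p.2
  have hsub : TXw w '' (A ∩ gX j δ '' A) ⊆ TXw w '' A ∩ TXw v '' A := by
    rintro _ ⟨_, ⟨hq, p, hp, rfl⟩, rfl⟩
    refine ⟨⟨_, hq, rfl⟩, p, hp, (hTX p).symm⟩
  have h1 := measure_mono_null hsub (images_null hself hct hle' hA hAf hAB w v hwv hne)
  rw [(TXw_image w _ (hA.inter (gX_image j δ A hA).1)).2, ENNReal.div_eq_zero_iff] at h1
  rcases h1 with h | h
  · exact hv h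
  · exact absurd h (by simp)

end Pool.Agent.Lib.MP_f64c7e_nt.FP.Dens
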