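import Pool.Agent.Lib.MP_f64c7e_nt.FP.Defs

/-!
The measure `vol` on `ℝ × ℚ₃`: boxes, the steps `TXw` halve volumes, the affine maps `gX` keep them.
-/

set_option autoImplicit false

open MeasureTheory Set
open scoped Pointwise ENNReal NNReal

namespace Pool.Agent.Lib.MP_f64c7e_nt.FP

namespace H17

instance m3_haar : m3.IsAddHaarMeasure := by unfold m3; infer_instance

instance m3_regular : m3.Regular := by unfold m3; infer_instance

instance m3_sigmaFinite : SigmaFinite m3 := by unfold m3; infer_instance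

theorem m3_K0 : m3 (Metric.closedBall 0 1) = 1 := Measure.addHaarMeasure_self

theorem sigmaFinite_vol' : SigmaFinite vol := by unfold vol; infer_instance

instance vol_sigmaFinite : SigmaFinite vol := sigmaFinite_vol'

instance vol_haar : vol.IsAddHaarMeasure := by unfold vol; infer_instance

theorem outerRegular_vol' : vol.OuterRegular := by infer_instance

theorem norm_three : ‖(3 : ℚ_[3])‖ = 1 / 3 := by
  have h := Padic.norm_p (p := 3)
  simpa using h

theorem norm_two : ‖(2 : ℚ_[3])‖ = 1 := by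
  have h := (Padic.norm_natCast_eq_one_iff (p := 3) (n := 2)).2 (by norm_num)
  simpa using h

theorem ball_trans (z : ℚ_[3]) (r : ℝ) :
    m3 (Metric.closedBall z r) = m3 (Metric.closedBall 0 r) := by
  have h : Metric.closedBall z r = (fun x => x + (-z)) ⁻¹' Metric.closedBall 0 r := by
    ext x
    simp [dist_eq_norm, sub_eq_add_neg]
  rw [h, measure_preimage_add_right]

theorem le_third (x : ℚ_[3]) (h : ‖x‖ < 1) : ‖x‖ ≤ 1 / 3 := by
  have h1 := (Padic.norm_lt_pow_iff_norm_le_pow_sub_one x 0).1 (by simpa using h)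
  simpa using h1

theorem units_cover : Metric.closedBall (0 : ℚ_[3]) 1 =
    ⋃ i ∈ Finset.range 3, Metric.closedBall ((i : ℕ) : ℚ_[3]) (1 / 3) := by
  ext x
  simp only [Metric.mem_closedBall, mem_iUnion, Finset.mem_range, exists_prop, dist_eq_norm,
    sub_zero]
  constructor
  · intro hx
    obtain ⟨y, rfl⟩ : ∃ y : ℤ_[3], (y : ℚ_[3]) = x := ⟨⟨x, hx⟩, rfl⟩
    obtain ⟨n, hn, hm⟩ := PadicInt.exists_mem_range (p := 3) y
    refine ⟨n, hn, ?_⟩
    rw [PadicInt.maximalIdeal_eq_span_p, Ideal.mem_span_singleton,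
      ← PadicInt.norm_lt_one_iff_dvd] at hm
    refine le_third _ ?_
    rw [PadicInt.norm_def, PadicInt.coe_sub, PadicInt.coe_natCast] at hm
    exact hm
  · rintro ⟨i, -, hi⟩
    have h1 : ‖((i : ℕ) : ℚ_[3])‖ ≤ 1 := by
      have := Padic.norm_int_le_one (p := 3) (i : ℤ)
      simpa using this
    have h2 := Padic.nonarchimedean (x - (i : ℚ_[3])) (i : ℚ_[3])
    rw [sub_add_cancel] at h2
    exact h2.trans (max_le (hi.trans (by norm_num)) h1)

theorem m3_third : m3 (Metric.closedBall 0 (1 / 3)) = 1 / 3 := by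
  have h : m3 (Metric.closedBall (0 : ℚ_[3]) 1) =
      ∑ i ∈ Finset.range 3, m3 (Metric.closedBall ((i : ℕ) : ℚ_[3]) (1 / 3)) := by
    rw [units_cover]
    refine measure_biUnion_finset ?_ fun i _ => Metric.isClosed_closedBall.measurableSet
    intro i hi j hj hij
    refine Set.disjoint_left.2 fun x hx hx' => ?_
    rw [Metric.mem_closedBall, dist_eq_norm] at hx hx'
    have h1 : ‖((i : ℤ) - (j : ℤ) : ℤ) • (1 : ℚ_[3])‖ < 1 := by
      have h2 := Padic.nonarchimedean (x - (j : ℚ_[3])) (-(x - (i : ℚ_[3])))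
      rw [norm_neg] at h2
      have h3 : x - (j : ℚ_[3]) + -(x - (i : ℚ_[3])) = ((i : ℤ) - (j : ℤ) : ℤ) • (1 : ℚ_[3]) := by
        simp
      rw [h3] at h2
      exact h2.trans_lt (max_lt (hx'.trans_lt (by norm_num)) (hx.trans_lt (by norm_num)))
    have h4 : ‖(((i : ℤ) - (j : ℤ) : ℤ) : ℚ_[3])‖ < 1 := by simpa using h1
    rw [Padic.norm_intCast_lt_one_iff] at h4
    have hi' : i < 3 := by simpa using hi
    have hj' : j < 3 := by simpa using hj
    omega
  rw [m3_K0, Finset.sum_congr rfl fun i _ => ball_trans _ _, Finset.sum_const, Finset.card_range,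
    nsmul_eq_mul] at h
  rw [ENNReal.eq_div_iff (by norm_num) (by norm_num)]
  exact_mod_cast h.symm

theorem char_unit (u : ℚ_[3]ˣ) (hu : ‖(u : ℚ_[3])‖ = 1) : distribHaarChar ℚ_[3] u = 1 := by
  refine distribHaarChar_eq_of_measure_smul_eq_mul (μ := m3) (s := Metric.closedBall 0 1)
    (by rw [m3_K0]; simp) (by rw [m3_K0]; simp) ?_
  have h : u • Metric.closedBall (0 : ℚ_[3]) 1 = Metric.closedBall 0 1 := by
    ext x
    rw [mem_smul_set_iff_inv_smul_mem]
    simp [Units.smul_def, hu]
  rw [h]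
  simp

theorem char_three (u : ℚ_[3]ˣ) (hu : (u : ℚ_[3]) = 3) :
    distribHaarChar ℚ_[3] u = 1 / 3 := by
  refine distribHaarChar_eq_of_measure_smul_eq_mul (μ := m3) (s := Metric.closedBall 0 1)
    (by rw [m3_K0]; simp) (by rw [m3_K0]; simp) ?_
  have h : u • Metric.closedBall (0 : ℚ_[3]) 1 = Metric.closedBall 0 (1 / 3) := by
    ext x
    rw [mem_smul_set_iff_inv_smul_mem]
    simp only [Units.smul_def, smul_eq_mul, Metric.mem_closedBall, dist_zero_right, norm_mul,
      Units.val_inv_eq_inv_val, hu, norm_inv, norm_three]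
    constructor <;> intro h <;> linarith
  rw [h, m3_third, m3_K0]
  simp

theorem char_eq (u : ℚ_[3]ˣ) (j : ℕ) (v : ℚ_[3]) (hv : ‖v‖ = 1) (hu : (u : ℚ_[3]) = 3 ^ j * v) :
    distribHaarChar ℚ_[3] u = (1 / 3) ^ j := by
  have hv0 : v ≠ 0 := by
    intro h
    rw [h, norm_zero] at hv
    norm_num at hv
  have h : u = (Units.mk0 (3 : ℚ_[3]) (by norm_num)) ^ j * Units.mk0 v hv0 := by
    ext
    simp [hu]
  rw [h, map_mul, map_pow, char_three _ (by simp), char_unit _ (by simpa using hv), mul_one]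

/-- Affine maps of `ℚ₃` with slope `3^j v`, `v` a unit. -/
theorem map_affine_Q (j : ℕ) (v c : ℚ_[3]) (hv : ‖v‖ = 1) :
    m3.map (fun x => 3 ^ j * v * x + c) = (3 ^ j : ℝ≥0∞) • m3 := by
  have hv0 : v ≠ 0 := by
    intro h
    rw [h, norm_zero] at hv
    norm_num at hv
  have h0 : (3 ^ j * v : ℚ_[3]) ≠ 0 := mul_ne_zero (pow_ne_zero _ (by norm_num)) hv0
  set u : ℚ_[3]ˣ := Units.mk0 _ h0 with hu
  have h1 : m3.map (fun x => 3 ^ j * v * x) = (3 ^ j : ℝ≥0∞) • m3 := by
    ext s hs
    rw [Measure.map_apply (measurable_const_mul _) hs]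
    have h2 : (fun x => 3 ^ j * v * x) ⁻¹' s = u⁻¹ • s := by
      ext x
      rw [mem_smul_set_iff_inv_smul_mem]
      simp [Units.smul_def, hu]
    rw [h2, ← distribHaarChar_mul, map_inv, char_eq u j v hv (by simp [hu])]
    simp
  have h3 : (fun x : ℚ_[3] => 3 ^ j * v * x + c) = (fun x => x + c) ∘ (fun x => 3 ^ j * v * x) :=
    rfl
  rw [h3, ← Measure.map_map (measurable_add_const c) (measurable_const_mul _), h1,
    Measure.map_smul, map_add_right_eq_self]

/-- Affine maps of `ℝ`. -/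
theorem map_affine_R (a c : ℝ) (ha : 0 < a) :
    (volume : Measure ℝ).map (fun x => a * x + c) = ENNReal.ofReal a⁻¹ • volume := by
  have h3 : (fun x : ℝ => a * x + c) = (fun x => x + c) ∘ (fun x => a * x) := rfl
  rw [h3, ← Measure.map_map (measurable_add_const c) (measurable_const_mul _),
    Real.map_volume_mul_left ha.ne', Measure.map_smul, map_add_right_eq_self,
    abs_of_pos (inv_pos.2 ha)]

/-- Affine maps of `ℝ × ℚ₃`. -/
theorem map_affine (a c : ℝ) (ha : 0 < a) (j : ℕ) (v c' : ℚ_[3]) (hv : ‖v‖ = 1) :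
    vol.map (fun p : X => (a * p.1 + c, 3 ^ j * v * p.2 + c')) =
      (ENNReal.ofReal a⁻¹ * 3 ^ j) • vol := by
  have h := Measure.map_prod_map (volume : Measure ℝ) m3 (f := fun x => a * x + c)
    (g := fun x => 3 ^ j * v * x + c') (by fun_prop) (by fun_prop)
  rw [map_affine_R a c ha, map_affine_Q j v c' hv] at h
  rw [Measure.prod_smul_left, Measure.prod_smul_right, smul_smul] at h
  exact h.symm

theorem image_of_map (f g : X → X) (hf : Measurable f) (hg : Measurable g)
    (h1 : Function.LeftInverse g f) (h2 : Function.RightInverse g f) (c : ℝ≥0∞) (hc : c ≠ 0)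
    (hc' : c ≠ ∞) (hm : vol.map f = c • vol) (A : Set X) (hA : MeasurableSet A) :
    MeasurableSet (f '' A) ∧ vol (f '' A) = vol A / c := by
  have h3 : f '' A = g ⁻¹' A := congrFun (Set.image_eq_preimage_of_inverse h1 h2) A
  have h4 : MeasurableSet (f '' A) := by
    rw [h3]
    exact hg hA
  refine ⟨h4, ?_⟩
  have h5 : vol.map f (f '' A) = vol A := by
    rw [Measure.map_apply hf h4, Set.preimage_image_eq _ h1.injective]
  rw [hm, Measure.smul_apply, smul_eq_mul] at h5
  rw [ENNReal.eq_div_iff hc hc', h5]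

/-- The inverse of `TX b`. -/
noncomputable def TXi (b : Bool) (p : X) : X :=
  if b then ((2 * p.1 - 1) / 3, (2 * p.2 - 1) / 3) else (2 * p.1, 2 * p.2)

/-- The inverse of `gX j δ`. -/
noncomputable def gXi (j : ℕ) (δ : ℤ) (p : X) : X := ((p.1 - δ) / 3 ^ j, (p.2 - δ) / 3 ^ j)

theorem three_ne : (3 : ℚ_[3]) ≠ 0 := by norm_num

theorem TX_eq (b : Bool) : TX b = fun p : X => if b then ((3 * p.1 + 1) / 2, (3 * p.2 + 1) / 2)
    else (p.1 / 2, p.2 / 2) := by
  funext p
  cases b <;> simp [TX, T]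

theorem measurable_TX (b : Bool) : Measurable (TX b) := by
  rw [TX_eq]
  cases b
  · simp only [Bool.false_eq_true, if_false]
    fun_prop
  · simp only [if_true]
    fun_prop

theorem measurable_TXi (b : Bool) : Measurable (TXi b) := by
  unfold TXi
  cases b
  · simp only [Bool.false_eq_true, if_false]
    fun_prop
  · simp only [if_true]
    fun_prop

theorem TXi_left (b : Bool) : Function.LeftInverse (TXi b) (TX b) := by
  intro p
  cases b
  · ext <;> simp [TX, TXi, T] <;> field_simp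
  · ext <;> simp [TX, TXi, T] <;> field_simp <;> ring

theorem TXi_right (b : Bool) : Function.RightInverse (TXi b) (TX b) := by
  intro p
  cases b
  · ext <;> simp [TX, TXi, T] 
  · ext <;> simp [TX, TXi, T] <;> field_simp <;> ring

theorem measurable_gX (j : ℕ) (δ : ℤ) : Measurable (gX j δ) := by
  unfold gX
  fun_prop

theorem measurable_gXi (j : ℕ) (δ : ℤ) : Measurable (gXi j δ) := by
  unfold gXi
  fun_prop

theorem gXi_left (j : ℕ) (δ : ℤ) : Function.LeftInverse (gXi j δ) (gX j δ) := by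
  intro p
  have h : (3 : ℚ_[3]) ^ j ≠ 0 := pow_ne_zero _ three_ne
  ext
  · simp [gX, gXi]
  · simp only [gX, gXi]
    field_simp
    ring

theorem gXi_right (j : ℕ) (δ : ℤ) : Function.RightInverse (gXi j δ) (gX j δ) := by
  intro p
  have h : (3 : ℚ_[3]) ^ j ≠ 0 := pow_ne_zero _ three_ne
  ext
  · simp only [gX, gXi]
    field_simp
    ring
  · simp only [gX, gXi]
    field_simp
    ring

theorem TX_map (b : Bool) : vol.map (TX b) = (2 : ℝ≥0∞) • vol := by
  have h2 : ‖(1 / 2 : ℚ_[3])‖ = 1 := by rw [norm_div, norm_two]; simp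
  cases b
  · have h := map_affine (1 / 2) 0 (by norm_num) 0 (1 / 2) 0 h2
    have h3 : TX false = fun p : X => (1 / 2 * p.1 + 0, 3 ^ 0 * (1 / 2) * p.2 + 0) := by
      funext p
      ext <;> simp [TX, T] <;> ring
    rw [h3, h]
    congr 1
    norm_num
  · have h := map_affine (3 / 2) (1 / 2) (by norm_num) 1 (1 / 2) (1 / 2) h2
    have h3 : TX true = fun p : X => (3 / 2 * p.1 + 1 / 2, 3 ^ 1 * (1 / 2) * p.2 + 1 / 2) := by
      funext p
      ext <;> simp [TX, T] <;> ring
    rw [h3, h]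
    congr 1
    rw [show (3 / 2 : ℝ)⁻¹ = 2 / 3 by norm_num, ENNReal.ofReal_div_of_pos (by norm_num), pow_one]
    simp only [ENNReal.ofReal_ofNat]
    exact ENNReal.div_mul_cancel (by norm_num) (by norm_num)

theorem gX_map (j : ℕ) (δ : ℤ) : vol.map (gX j δ) = (1 : ℝ≥0∞) • vol := by
  have h := map_affine (3 ^ j) δ (by positivity) j 1 δ (by simp)
  have h3 : gX j δ = fun p : X => (3 ^ j * p.1 + δ, 3 ^ j * 1 * p.2 + δ) := by
    funext p
    simp [gX]
  rw [h3, h]
  congr 1
  rw [ENNReal.ofReal_inv_of_pos (by positivity), ENNReal.ofReal_pow (by norm_num)]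
  simp only [ENNReal.ofReal_ofNat]
  exact ENNReal.inv_mul_cancel (by positivity) (by simp)

theorem TX_image (b : Bool) (A : Set X) (hA : MeasurableSet A) :
    MeasurableSet (TX b '' A) ∧ vol (TX b '' A) = vol A / 2 :=
  image_of_map _ _ (measurable_TX b) (measurable_TXi b) (TXi_left b) (TXi_right b) 2 (by norm_num)
    (by norm_num) (TX_map b) A hA

theorem gX_image' (j : ℕ) (δ : ℤ) (A : Set X) (hA : MeasurableSet A) :
    MeasurableSet (gX j δ '' A) ∧ vol (gX j δ '' A) = vol A := by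
  have h := image_of_map _ _ (measurable_gX j δ) (measurable_gXi j δ) (gXi_left j δ)
    (gXi_right j δ) 1 (by norm_num) (by norm_num) (gX_map j δ) A hA
  rwa [div_one] at h

theorem TXw_nil : TXw [] = id := by
  funext p
  simp [TXw, Tw]

theorem TXw_cons (b : Bool) (w : List Bool) : TXw (b :: w) = TX b ∘ TXw w := by
  funext p
  simp [TXw, Tw, TX]

theorem measurable_TXw' (w : List Bool) : Measurable (TXw w) := by
  induction w with
  | nil => rw [TXw_nil]; exact measurable_id
  | cons b w ih => rw [TXw_cons]; exact (measurable_TX b).comp ih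

theorem TXw_injective' (w : List Bool) : Function.Injective (TXw w) := by
  induction w with
  | nil => rw [TXw_nil]; exact Function.injective_id
  | cons b w ih => rw [TXw_cons]; exact (TXi_left b).injective.comp ih

theorem gX_injective' (j : ℕ) (δ : ℤ) : Function.Injective (gX j δ) := (gXi_left j δ).injective

theorem TXw_image' (w : List Bool) (A : Set X) (hA : MeasurableSet A) :
    MeasurableSet (TXw w '' A) ∧ vol (TXw w '' A) = vol A / 2 ^ w.length := by
  induction w with
  | nil =>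
    rw [TXw_nil, Set.image_id]
    exact ⟨hA, by simp⟩
  | cons b w ih =>
    rw [TXw_cons, Set.image_comp]
    obtain ⟨h1, h2⟩ := TX_image b _ ih.1
    refine ⟨h1, ?_⟩
    rw [h2, ih.2, List.length_cons, pow_succ]
    simp only [div_eq_mul_inv]
    rw [ENNReal.mul_inv (Or.inl (by positivity)) (Or.inl (by simp)), mul_assoc]

theorem m3_ball (z : ℚ_[3]) (l : ℕ) : m3 (Metric.closedBall z ((3 : ℝ) ^ (-(l : ℤ)))) = 1 / 3 ^ l := by
  rw [ball_trans]
  have h0 : (3 ^ l : ℚ_[3]) ≠ 0 := pow_ne_zero _ three_ne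
  have h : Metric.closedBall (0 : ℚ_[3]) ((3 : ℝ) ^ (-(l : ℤ))) =
      Units.mk0 _ h0 • Metric.closedBall (0 : ℚ_[3]) 1 := by
    ext x
    rw [mem_smul_set_iff_inv_smul_mem]
    simp only [Units.smul_def, smul_eq_mul, Metric.mem_closedBall, dist_zero_right, norm_mul,
      Units.val_inv_eq_inv_val, Units.val_mk0, norm_inv, norm_pow, norm_three, zpow_neg,
      zpow_natCast]
    have h3 : (0 : ℝ) < 3 ^ l := by positivity
    rw [one_div, inv_pow, inv_inv, ← le_div_iff₀' h3, one_div]
  rw [h, ← distribHaarChar_mul, char_eq _ l 1 (by simp) (by simp), m3_K0]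
  simp

theorem vol_box' (x y : ℝ) (z : ℚ_[3]) (l : ℕ) (hxy : x ≤ y) :
    vol (Set.Ico x y ×ˢ Metric.closedBall z ((3 : ℝ) ^ (-(l : ℤ)))) =
      ENNReal.ofReal (y - x) / 3 ^ l := by
  have _ := hxy
  unfold vol
  rw [Measure.prod_prod, m3_ball, Real.volume_Ico, mul_one_div]

end H17

theorem sigmaFinite_vol : SigmaFinite vol := H17.sigmaFinite_vol'

theorem outerRegular_vol : vol.OuterRegular := H17.outerRegular_vol'

theorem vol_box (x y : ℝ) (z : ℚ_[3]) (l : ℕ) (hxy : x ≤ y) :
    vol (Set.Ico x y ×ˢ Metric.closedBall z ((3 : ℝ) ^ (-(l : ℤ)))) =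
      ENNReal.ofReal (y - x) / 3 ^ l := H17.vol_box' x y z l hxy

theorem TXw_image (w : List Bool) (A : Set X) (hA : MeasurableSet A) :
    MeasurableSet (TXw w '' A) ∧ vol (TXw w '' A) = vol A / 2 ^ w.length :=
  H17.TXw_image' w A hA

theorem gX_image (j : ℕ) (δ : ℤ) (A : Set X) (hA : MeasurableSet A) :
    MeasurableSet (gX j δ '' A) ∧ vol (gX j δ '' A) = vol A := H17.gX_image' j δ A hA

theorem TXw_injective (w : List Bool) : Function.Injective (TXw w) := H17.TXw_injective' w

theorem gX_injective (j : ℕ) (δ : ℤ) : Function.Injective (gX j δ) := H17.gX_injective' j δ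

theorem measurable_TXw (w : List Bool) : Measurable (TXw w) := H17.measurable_TXw' w

end Pool.Agent.Lib.MP_f64c7e_nt.FP
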