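import Pool.Agent.Lib.MP_f64c7e_nt.FP.Defs

/-!
The law of the infinite backward 3x+1 walk with fair coin digits, on `ℝ × ℚ₃`.
-/

set_option autoImplicit false

open MeasureTheory Filter Topology
open scoped ENNReal NNReal

namespace Pool.Agent.Lib.MP_f64c7e_nt.FP

noncomputable section

namespace Law

/-! ### The coin space -/

/-- Infinite sequences of digits. -/
abbrev Om : Type := ℕ → Bool

/-- Fair coin. -/
def coin : Measure Bool := (2⁻¹ : ℝ≥0∞) • (Measure.dirac false + Measure.dirac true)

open Classical in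
lemma coin_apply (s : Set Bool) :
    coin s = (2⁻¹ : ℝ≥0∞) * ((if false ∈ s then 1 else 0) + (if true ∈ s then 1 else 0)) := by
  rw [coin, Measure.smul_apply, Measure.add_apply, smul_eq_mul,
    Measure.dirac_apply' _ (Set.toFinite s).measurableSet,
    Measure.dirac_apply' _ (Set.toFinite s).measurableSet]
  simp only [Set.indicator_apply, Pi.one_apply]

instance : IsProbabilityMeasure coin := by
  refine ⟨?_⟩
  simp only [coin, Measure.smul_apply, Measure.add_apply, measure_univ, smul_eq_mul]
  rw [one_add_one_eq_two, ENNReal.inv_mul_cancel two_ne_zero ENNReal.ofNat_ne_top]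

lemma coin_singleton (b : Bool) : coin {b} = 2⁻¹ := by
  cases b <;> simp [coin]

/-- The coin tossing measure. -/
def PP : Measure Om := Measure.infinitePi (fun _ : ℕ => coin)

instance : IsProbabilityMeasure PP := by unfold PP; infer_instance

/-- Put a digit in front. -/
def cons (b : Bool) (α : Om) : Om := fun i => Nat.casesOn i b α

@[simp] lemma cons_zero (b : Bool) (α : Om) : cons b α 0 = b := rfl

@[simp] lemma cons_succ (b : Bool) (α : Om) (i : ℕ) : cons b α (i + 1) = α i := rfl

lemma measurable_cons (b : Bool) : Measurable (cons b) := by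
  refine measurable_pi_iff.mpr fun i => ?_
  cases i with
  | zero => exact measurable_const
  | succ i => exact measurable_pi_apply i

lemma PP_self : PP = (2⁻¹ : ℝ≥0∞) • (PP.map (cons false) + PP.map (cons true)) := by
  classical
  symm
  refine Measure.eq_infinitePi (fun _ : ℕ => coin) ?_
  intro s t ht
  have key : ∀ b : Bool, (PP.map (cons b)) (Set.pi (s : Set ℕ) t) =
      (if 0 ∈ s → b ∈ t 0 then 1 else 0) *
        ∏ i ∈ s.erase 0, coin (t i) := by
    intro b
    have hm : MeasurableSet (Set.pi (s : Set ℕ) t) :=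
      MeasurableSet.pi s.countable_toSet (fun i _ => ht i)
    rw [Measure.map_apply (measurable_cons b) hm]
    by_cases hb : 0 ∈ s → b ∈ t 0
    · rw [if_pos hb, one_mul]
      have e : cons b ⁻¹' (Set.pi (s : Set ℕ) t) =
          Set.pi (((s.erase 0).image Nat.pred : Finset ℕ) : Set ℕ) (fun i => t (i + 1)) := by
        ext α
        simp only [Set.mem_preimage, Set.mem_pi, Finset.mem_coe, Finset.mem_image,
          Finset.mem_erase, forall_exists_index, and_imp]
        constructor
        · rintro h i j hj hjs rfl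
          obtain ⟨j, rfl⟩ := Nat.exists_eq_succ_of_ne_zero hj
          simpa using h (j + 1) hjs
        · intro h i hi
          cases i with
          | zero => simpa using hb hi
          | succ i => simpa using h i (i + 1) (Nat.succ_ne_zero i) hi rfl
      rw [e, PP, Measure.infinitePi_pi _ (fun i _ => ht (i + 1))]
      rw [Finset.prod_image]
      · refine Finset.prod_congr rfl fun i hi => ?_
        have : i ≠ 0 := (Finset.mem_erase.mp hi).1
        rw [Nat.pred_eq_sub_one, Nat.sub_add_cancel (Nat.pos_of_ne_zero this)]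
      · intro i hi j hj hij
        have hi0 : i ≠ 0 := (Finset.mem_erase.mp hi).1
        have hj0 : j ≠ 0 := (Finset.mem_erase.mp hj).1
        simp only [Nat.pred_eq_sub_one] at hij
        omega
    · rw [if_neg hb, zero_mul]
      push Not at hb
      have e : cons b ⁻¹' (Set.pi (s : Set ℕ) t) = ∅ := by
        ext α
        simp only [Set.mem_preimage, Set.mem_pi, Finset.mem_coe, Set.mem_empty_iff_false,
          iff_false]
        intro h
        exact hb.2 (by simpa using h 0 hb.1)
      rw [e, measure_empty]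
  rw [Measure.smul_apply, Measure.add_apply, key, key, ← add_mul, smul_eq_mul, ← mul_assoc]
  by_cases h0 : 0 ∈ s
  · rw [← Finset.mul_prod_erase s (fun i => coin (t i)) h0]
    congr 1
    rw [coin_apply (t 0)]
    simp only [h0, true_imp_iff]
  · rw [Finset.erase_eq_of_notMem h0]
    simp only [h0, false_imp_iff, if_true]
    rw [one_add_one_eq_two, ENNReal.inv_mul_cancel two_ne_zero ENNReal.ofNat_ne_top, one_mul]

lemma lintegral_PP (f : Om → ℝ≥0∞) (hf : Measurable f) :
    ∫⁻ α, f α ∂PP =
      2⁻¹ * (∫⁻ α, f (cons false α) ∂PP + ∫⁻ α, f (cons true α) ∂PP) := by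
  conv_lhs => rw [PP_self]
  rw [lintegral_smul_measure, lintegral_add_measure,
    lintegral_map hf (measurable_cons _), lintegral_map hf (measurable_cons _), smul_eq_mul]

lemma ae_cons {p : Om → Prop} (h : ∀ᵐ α ∂PP, p α) (b : Bool) : ∀ᵐ α ∂PP, p (cons b α) := by
  have h1 : ∀ᵐ α ∂(PP.map (cons b)), p α := by
    refine (Measure.AbsolutelyContinuous.ae_le ?_) h
    intro s hs
    rw [PP_self] at hs
    rw [Measure.smul_apply, Measure.add_apply, smul_eq_mul, mul_eq_zero] at hs
    rcases hs with hs | hs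
    · simp at hs
    · rw [add_eq_zero] at hs
      cases b
      · exact hs.1
      · exact hs.2
  exact ae_of_ae_map (measurable_cons b).aemeasurable h1

/-! ### Products along the digits -/

/-- Product of weights along the first `L` digits. -/
def phi (a c : ℝ≥0) (L : ℕ) (α : Om) : ℝ≥0 := ∏ i ∈ Finset.range L, (if α i then c else a)

lemma phi_cons (a c : ℝ≥0) (L : ℕ) (b : Bool) (α : Om) :
    phi a c (L + 1) (cons b α) = (if b then c else a) * phi a c L α := by
  unfold phi
  rw [Finset.prod_range_succ', mul_comm]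
  rfl

lemma measurable_phi (a c : ℝ≥0) (L : ℕ) : Measurable (phi a c L) := by
  unfold phi
  refine Finset.measurable_prod _ fun i _ => ?_
  exact Measurable.comp (g := fun b : Bool => if b then c else a) measurable_from_top
    (measurable_pi_apply i)

lemma lintegral_phi (a c : ℝ≥0) (L : ℕ) :
    ∫⁻ α, (phi a c L α : ℝ≥0∞) ∂PP = (2⁻¹ * ((a : ℝ≥0∞) + c)) ^ L := by
  induction L with
  | zero => simp [phi]
  | succ L ih =>
    rw [lintegral_PP _ (measurable_phi a c (L + 1)).coe_nnreal_ennreal]
    simp only [phi_cons, ENNReal.coe_mul, if_true, Bool.false_eq_true, if_false]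
    rw [lintegral_const_mul _ (measurable_phi a c L).coe_nnreal_ennreal,
      lintegral_const_mul _ (measurable_phi a c L).coe_nnreal_ennreal, ih, ← add_mul, pow_succ']
    rw [mul_assoc]

lemma summable_phi (a c : ℝ≥0) (h : (a : ℝ) + c < 2) : ∀ᵐ α ∂PP, Summable fun L => phi a c L α := by
  have h1 : ∫⁻ α, ∑' L, (phi a c L α : ℝ≥0∞) ∂PP ≠ ⊤ := by
    rw [lintegral_tsum (fun L => (measurable_phi a c L).coe_nnreal_ennreal.aemeasurable)]
    simp only [lintegral_phi]
    rw [ENNReal.tsum_geometric]
    rw [ne_eq, ENNReal.inv_eq_top, tsub_eq_zero_iff_le, not_le]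
    have h2 : (a : ℝ≥0∞) + c < 2 := by
      have : a + c < 2 := by exact_mod_cast h
      exact_mod_cast this
    calc (2⁻¹ : ℝ≥0∞) * ((a : ℝ≥0∞) + c) < 2⁻¹ * 2 :=
          ENNReal.mul_lt_mul_right (by simp) (by simp) h2
      _ = 1 := ENNReal.inv_mul_cancel two_ne_zero ENNReal.ofNat_ne_top
  have h3 := ae_lt_top (Measurable.tsum
    (fun L => (measurable_phi a c L).coe_nnreal_ennreal)) h1
  filter_upwards [h3] with α hα
  exact ENNReal.tsum_coe_ne_top_iff_summable.mp hα.ne

/-! ### The walk -/

/-- Slope of a word. -/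
def rho {K : Type*} [Field K] (w : List Bool) : K := (w.map fun b => if b then 3 / 2 else 1 / 2).prod

lemma rho_cons {K : Type*} [Field K] (b : Bool) (w : List Bool) :
    rho (b :: w) = (if b then 3 / 2 else 1 / 2) * rho (K := K) w := by
  simp [rho]

lemma T_eq {K : Type*} [Field K] (b : Bool) (x : K) :
    T b x = (if b then 3 / 2 else 1 / 2) * x + T b 0 := by
  cases b
  · simp [T]; ring
  · simp [T]; ring

lemma Tw_eq {K : Type*} [Field K] (w : List Bool) (x : K) : Tw w x = rho w * x + Tw w 0 := by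
  induction w with
  | nil => simp [rho, Tw]
  | cons b w ih =>
    rw [Tw, ih, T_eq, Tw, T_eq b (Tw w 0), rho_cons]
    ring

lemma Tw_append {K : Type*} [Field K] (w v : List Bool) (x : K) : Tw (w ++ v) x = Tw w (Tw v x) := by
  induction w with
  | nil => rfl
  | cons b w ih => simp only [List.cons_append, Tw, ih]

/-- The prefix of a sequence. -/
def pre (L : ℕ) (α : Om) : List Bool := List.ofFn fun i : Fin L => α i

lemma pre_cons (L : ℕ) (b : Bool) (α : Om) : pre (L + 1) (cons b α) = b :: pre L α := by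
  simp [pre, List.ofFn_succ]

lemma pre_succ (L : ℕ) (α : Om) : pre (L + 1) α = pre L α ++ [α L] := by
  rw [pre, List.ofFn_succ', List.concat_eq_append]
  rfl

lemma rho_real_pre (L : ℕ) (α : Om) : |rho (K := ℝ) (pre L α)| = (phi (1 / 2) (3 / 2) L α : ℝ) := by
  induction L with
  | zero => simp [rho, pre, phi]
  | succ L ih =>
    rw [pre_succ, rho, List.map_append, List.prod_append]
    have h1 : phi (1 / 2) (3 / 2) (L + 1) α = phi (1 / 2) (3 / 2) L α * (if α L then 3 / 2 else 1 / 2) := by
      rw [phi, Finset.prod_range_succ]; rfl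
    rw [h1, abs_mul]
    rw [rho] at ih
    rw [ih]
    push_cast
    congr 1
    cases α L <;> norm_num [abs_of_pos]

lemma norm_two : ‖(2 : ℚ_[3])‖ = 1 := by
  have h : ‖((2 : ℤ) : ℚ_[3])‖ = 1 := by
    rw [Padic.norm_intCast_eq_one_iff]; decide
  simpa using h

lemma norm_three : ‖(3 : ℚ_[3])‖ = 1 / 3 := by
  have h := Padic.norm_p (p := 3)
  simpa using h

lemma rho_padic_pre (L : ℕ) (α : Om) : ‖rho (K := ℚ_[3]) (pre L α)‖ = (phi 1 (1 / 3) L α : ℝ) := by
  induction L with
  | zero => simp [rho, pre, phi]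
  | succ L ih =>
    rw [pre_succ, rho, List.map_append, List.prod_append]
    have h1 : phi 1 (1 / 3) (L + 1) α = phi 1 (1 / 3) L α * (if α L then 1 / 3 else 1) := by
      rw [phi, Finset.prod_range_succ]; rfl
    rw [h1, norm_mul]
    rw [rho] at ih
    rw [ih]
    push_cast
    congr 1
    cases α L
    · simp [norm_two]
    · simp [norm_two, norm_three]

lemma T_zero_real (b : Bool) : |T b (0 : ℝ)| ≤ 1 := by
  cases b
  · simp [T]
  · simp [T]; norm_num

lemma T_zero_padic (b : Bool) : ‖T b (0 : ℚ_[3])‖ ≤ 1 := by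
  cases b
  · simp [T]
  · simp [T, norm_two]

/-- The finite walks started at the origin. -/
def gg (L : ℕ) (α : Om) : X := TXw (pre L α) 0

lemma measurable_pre_fun {β : Type*} [MeasurableSpace β] (L : ℕ) (F : (Fin L → Bool) → β) :
    Measurable fun α : Om => F (fun i : Fin L => α i) := by
  have h1 : Measurable fun α : Om => (fun i : Fin L => α i) :=
    measurable_pi_iff.mpr fun i => measurable_pi_apply _
  have h2 : Measurable F := measurable_of_finite F
  exact h2.comp h1

lemma measurable_gg (L : ℕ) : Measurable (gg L) :=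
  measurable_pre_fun L (fun w => TXw (List.ofFn w) 0)

lemma gg_cons (L : ℕ) (b : Bool) (α : Om) : gg (L + 1) (cons b α) = TX b (gg L α) := by
  rw [gg, pre_cons]; rfl

lemma TXw_dist (L : ℕ) (α : Om) (p : X) :
    dist (TXw (pre L α) p) (gg L α) ≤
      phi (1 / 2) (3 / 2) L α * |p.1| + phi 1 (1 / 3) L α * ‖p.2‖ := by
  rw [gg, Prod.dist_eq]
  have h1 : dist (TXw (pre L α) p).1 (TXw (pre L α) 0).1 = phi (1 / 2) (3 / 2) L α * |p.1| := by
    change dist (Tw (pre L α) p.1) (Tw (pre L α) 0) = _
    rw [Tw_eq (pre L α) p.1, Real.dist_eq, add_sub_cancel_right, abs_mul, rho_real_pre]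
  have h2 : dist (TXw (pre L α) p).2 (TXw (pre L α) 0).2 = phi 1 (1 / 3) L α * ‖p.2‖ := by
    change dist (Tw (pre L α) p.2) (Tw (pre L α) 0) = _
    rw [Tw_eq (pre L α) p.2, dist_eq_norm, add_sub_cancel_right, norm_mul, rho_padic_pre]
  rw [h1, h2]
  exact max_le (le_add_of_nonneg_right (by positivity)) (le_add_of_nonneg_left (by positivity))

lemma gg_succ (L : ℕ) (α : Om) : gg (L + 1) α = TXw (pre L α) (TX (α L) 0) := by
  rw [gg, pre_succ]
  simp only [TXw, TX, Tw_append, Prod.fst_zero, Prod.snd_zero]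
  rfl

lemma gg_dist (L : ℕ) (α : Om) :
    dist (gg L α) (gg (L + 1) α) ≤ phi (1 / 2) (3 / 2) L α + phi 1 (1 / 3) L α := by
  rw [gg_succ, dist_comm]
  refine (TXw_dist L α _).trans ?_
  have h1 : |(TX (α L) 0).1| ≤ 1 := T_zero_real _
  have h2 : ‖(TX (α L) 0).2‖ ≤ 1 := T_zero_padic _
  gcongr
  · exact mul_le_of_le_one_right (by positivity) h1
  · exact mul_le_of_le_one_right (by positivity) h2

lemma phi_sq (a c : ℝ≥0) (L : ℕ) (α : Om) :
    phi (a ^ 2) (c ^ 2) L α = phi a c L α ^ 2 := by
  rw [phi, phi, ← Finset.prod_pow]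
  refine Finset.prod_congr rfl fun i _ => ?_
  split_ifs <;> rfl

/-- Almost surely both slopes are summable. -/
lemma ae_good : ∀ᵐ α ∂PP, (Summable fun L => phi (1 / 2) (3 / 2) L α) ∧
    Summable fun L => phi 1 (1 / 3) L α := by
  have h1 := summable_phi 1 (1 / 3) (by norm_num)
  have h2 := summable_phi (NNReal.sqrt (1 / 2)) (NNReal.sqrt (3 / 2)) (by
    have e1 : ((NNReal.sqrt (1 / 2) : ℝ≥0) : ℝ) < 72 / 100 := by
      rw [Real.coe_sqrt, Real.sqrt_lt' (by norm_num)]; norm_num
    have e2 : ((NNReal.sqrt (3 / 2) : ℝ≥0) : ℝ) < 123 / 100 := by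
      rw [Real.coe_sqrt, Real.sqrt_lt' (by norm_num)]; norm_num
    linarith)
  filter_upwards [h1, h2] with α hα1 hα2
  refine ⟨?_, hα1⟩
  set f : ℕ → ℝ≥0 := fun L => phi (NNReal.sqrt (1 / 2)) (NNReal.sqrt (3 / 2)) L α with hf
  have hb : ∀ L, phi (1 / 2) (3 / 2) L α ≤ (∑' k, f k) * f L := by
    intro L
    have h3 : phi (1 / 2) (3 / 2) L α = f L ^ 2 := by
      rw [hf]
      simp only
      rw [← phi_sq, NNReal.sq_sqrt, NNReal.sq_sqrt]
    rw [h3, sq]
    gcongr
    exact hα2.le_tsum L (fun _ _ => zero_le)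
  exact NNReal.summable_of_le hb (hα2.mul_left _)

lemma ae_conv : ∀ᵐ α ∂PP, ∃ l : X, Tendsto (fun L => gg L α) atTop (𝓝 l) := by
  filter_upwards [ae_good] with α hα
  refine cauchySeq_tendsto_of_complete ?_
  refine cauchySeq_of_summable_dist ?_
  refine Summable.of_nonneg_of_le (fun _ => dist_nonneg) (fun L => gg_dist L α) ?_
  exact (NNReal.summable_coe.mpr hα.1).add (NNReal.summable_coe.mpr hα.2)

lemma continuous_TX (b : Bool) : Continuous (TX b) := by
  cases b
  · change Continuous fun p : X => (p.1 / 2, p.2 / 2)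
    fun_prop
  · change Continuous fun p : X => ((3 * p.1 + 1) / 2, (3 * p.2 + 1) / 2)
    fun_prop

lemma measurable_TX (b : Bool) : Measurable (TX b) := (continuous_TX b).measurable

lemma gg_mem (L : ℕ) (α : Om) : 0 ≤ (gg L α).1 ∧ ‖(gg L α).2‖ ≤ 1 := by
  have key : ∀ w : List Bool, 0 ≤ (TXw w 0).1 ∧ ‖(TXw w 0).2‖ ≤ 1 := by
    intro w
    induction w with
    | nil => simp [TXw, Tw]
    | cons b w ih =>
      obtain ⟨ih1, ih2⟩ := ih
      simp only [TXw, Prod.fst_zero, Prod.snd_zero] at ih1 ih2
      refine ⟨?_, ?_⟩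
      · simp only [TXw, Prod.fst_zero, Tw]
        cases b
        · simp only [T, Bool.false_eq_true, if_false]; positivity
        · simp only [T, if_true]; positivity
      · simp only [TXw, Prod.snd_zero, Tw]
        cases b
        · simp only [T, Bool.false_eq_true, if_false, norm_div, norm_two, div_one]; exact ih2
        · simp only [T, if_true, norm_div, norm_two, div_one]
          refine (Padic.nonarchimedean _ _).trans (max_le ?_ (by simp))
          rw [norm_mul, norm_three]
          nlinarith [norm_nonneg (Tw w (0 : ℚ_[3]))]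
  exact key _

lemma PP_prefix (L : ℕ) (w : Fin L → Bool) :
    PP {α : Om | (fun i : Fin L => α i) = w} = 2⁻¹ ^ L := by
  have e : {α : Om | (fun i : Fin L => α i) = w} =
      Set.pi ((Finset.range L : Finset ℕ) : Set ℕ)
        (fun i => if h : i < L then {w ⟨i, h⟩} else Set.univ) := by
    ext α
    simp only [Set.mem_ofPred_eq, Set.mem_pi, Finset.coe_range, Set.mem_Iio]
    constructor
    · rintro h i hi
      rw [dif_pos hi, ← h]; rfl
    · intro h
      funext i
      have := h i i.2
      rw [dif_pos i.2] at this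
      exact this
  rw [e, PP, Measure.infinitePi_pi]
  · rw [Finset.prod_congr rfl (g := fun _ => (2⁻¹ : ℝ≥0∞))]
    · simp
    · intro i hi
      rw [dif_pos (Finset.mem_range.mp hi), coin_singleton]
  · intro i _
    split_ifs
    · exact MeasurableSet.singleton _
    · exact MeasurableSet.univ

lemma PP_card (L : ℕ) (Q : (Fin L → Bool) → Prop) :
    PP {α : Om | Q (fun i : Fin L => α i)} = (Nat.card {w : Fin L → Bool // Q w} : ℝ≥0∞) / 2 ^ L := by
  classical
  have e : {α : Om | Q (fun i : Fin L => α i)} =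
      ⋃ w ∈ (Finset.univ.filter Q : Finset (Fin L → Bool)), {α : Om | (fun i : Fin L => α i) = w} := by
    ext α
    simp
  rw [e, measure_biUnion_finset]
  · simp only [PP_prefix]
    rw [Finset.sum_const, nsmul_eq_mul, Nat.card_eq_fintype_card, Fintype.card_subtype,
      ENNReal.div_eq_inv_mul, mul_comm, ENNReal.inv_pow]
  · intro w _ v _ hwv
    refine Set.disjoint_left.mpr ?_
    intro α hα hα'
    exact hwv (hα.symm.trans hα')
  · intro w _
    exact (measurable_pre_fun L (fun v => v = w)).setOf

end Law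

open Law

/-- The law of the infinite backward walk: a self-similar probability measure on `ℝ × ℚ₃`, carried
by `[0,∞) × ℤ₃`, and bounded on open sets by the proportion of words mapping `[0,K] × ℤ₃` into it. -/
theorem exists_law : ∃ μ : Measure X, IsProbabilityMeasure μ ∧
    μ = (2⁻¹ : ℝ≥0∞) • (μ.map (TX false) + μ.map (TX true)) ∧
    μ {p : X | ¬ (0 ≤ p.1 ∧ ‖p.2‖ ≤ 1)} = 0 ∧
    ∀ (U : Set X), IsOpen U → ∀ K : ℝ, μ U ≤ liminf (fun L : ℕ =>
      (Nat.card {w : Fin L → Bool // ∀ p : X, 0 ≤ p.1 → p.1 ≤ K → ‖p.2‖ ≤ 1 →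
        TXw (List.ofFn w) p ∈ U} : ℝ≥0∞) / 2 ^ L) atTop := by
  obtain ⟨G, hG, hlim⟩ := measurable_limit_of_tendsto_metrizable_ae
    (fun L => (measurable_gg L).aemeasurable) ae_conv
  have hcons : ∀ b, ∀ᵐ α ∂PP, G (cons b α) = TX b (G α) := by
    intro b
    filter_upwards [hlim, ae_cons hlim b] with α h1 h2
    have h3 : Tendsto (fun L => gg (L + 1) (cons b α)) atTop (𝓝 (G (cons b α))) :=
      h2.comp (tendsto_add_atTop_nat 1)
    have h4 : Tendsto (fun L => gg (L + 1) (cons b α)) atTop (𝓝 (TX b (G α))) := by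
      simp only [gg_cons]
      exact ((continuous_TX b).tendsto _).comp h1
    exact tendsto_nhds_unique h3 h4
  refine ⟨PP.map G, Measure.isProbabilityMeasure_map hG.aemeasurable, ?_, ?_, ?_⟩
  · have h1 : ∀ b, (PP.map G).map (TX b) = (PP.map (cons b)).map G := by
      intro b
      rw [Measure.map_map (measurable_TX b) hG, Measure.map_map hG (measurable_cons b)]
      refine Measure.map_congr ?_
      filter_upwards [hcons b] with α hα
      exact hα.symm
    rw [h1, h1]
    conv_lhs => rw [PP_self]
    rw [Measure.map_smul, Measure.map_add _ _ hG]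
  · have hmeas : MeasurableSet {p : X | ¬ (0 ≤ p.1 ∧ ‖p.2‖ ≤ 1)} := by
      refine MeasurableSet.compl (s := {p : X | (0 ≤ p.1 ∧ ‖p.2‖ ≤ 1)}) ?_
      refine IsClosed.measurableSet ?_
      exact (isClosed_le continuous_const continuous_fst).inter
        (isClosed_le continuous_snd.norm continuous_const)
    rw [Measure.map_apply hG hmeas]
    have h2 : ∀ᵐ α ∂PP, (0 ≤ (G α).1 ∧ ‖(G α).2‖ ≤ 1) := by
      filter_upwards [hlim] with α hα
      have hc : IsClosed {p : X | (0 ≤ p.1 ∧ ‖p.2‖ ≤ 1)} :=
        (isClosed_le continuous_const continuous_fst).inter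
          (isClosed_le continuous_snd.norm continuous_const)
      exact hc.mem_of_tendsto hα (Eventually.of_forall fun L => gg_mem L α)
    exact h2
  · intro U hU K
    rw [Measure.map_apply hG hU.measurableSet]
    set Q : (L : ℕ) → (Fin L → Bool) → Prop := fun L w => ∀ p : X, 0 ≤ p.1 → p.1 ≤ K →
      ‖p.2‖ ≤ 1 → TXw (List.ofFn w) p ∈ U with hQ
    have h3 : ∀ L, (Nat.card {w : Fin L → Bool // Q L w} : ℝ≥0∞) / 2 ^ L =
        ∫⁻ α, Set.indicator {α : Om | Q L (fun i : Fin L => α i)} 1 α ∂PP := by
      intro L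
      rw [lintegral_indicator_one (measurable_pre_fun L (Q L)).setOf, PP_card]
    have h4 : PP (G ⁻¹' U) ≤ ∫⁻ α, liminf (fun L =>
        Set.indicator {α : Om | Q L (fun i : Fin L => α i)} (1 : Om → ℝ≥0∞) α) atTop ∂PP := by
      rw [← lintegral_indicator_one (hG hU.measurableSet)]
      refine lintegral_mono_ae ?_
      filter_upwards [hlim, ae_good] with α h5 h6
      by_cases hα : α ∈ G ⁻¹' U
      · rw [Set.indicator_of_mem hα]
        obtain ⟨δ, hδ, hball⟩ := Metric.isOpen_iff.mp hU (G α) hα
        have h7 : Tendsto (fun L => (phi (1 / 2) (3 / 2) L α : ℝ) * |K| + (phi 1 (1 / 3) L α : ℝ) * 1 +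
            dist (gg L α) (G α)) atTop (𝓝 (0 * |K| + 0 * 1 + 0)) := by
          refine ((Tendsto.mul_const _ ?_).add (Tendsto.mul_const _ ?_)).add ?_
          · exact (NNReal.summable_coe.mpr h6.1).tendsto_atTop_zero
          · exact (NNReal.summable_coe.mpr h6.2).tendsto_atTop_zero
          · exact tendsto_iff_dist_tendsto_zero.mp h5
        have h8 := h7.eventually (gt_mem_nhds (by simpa using hδ))
        have h9 : ∀ᶠ L in atTop, (1 : ℝ≥0∞) ≤
            Set.indicator {α : Om | Q L (fun i : Fin L => α i)} (1 : Om → ℝ≥0∞) α := by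
          filter_upwards [h8] with L hL
          rw [Set.indicator_of_mem]
          · exact le_refl _
          · intro p hp1 hp2 hp3
            refine hball ?_
            rw [Metric.mem_ball]
            refine lt_of_le_of_lt (dist_triangle _ (gg L α) _) (lt_of_le_of_lt ?_ hL)
            have h10 : |p.1| ≤ |K| := by
              rw [abs_of_nonneg hp1]
              exact hp2.trans (le_abs_self K)
            have h11 := TXw_dist L α p
            have h12 : (phi (1 / 2) (3 / 2) L α : ℝ) * |p.1| ≤ phi (1 / 2) (3 / 2) L α * |K| :=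
              mul_le_mul_of_nonneg_left h10 (NNReal.coe_nonneg _)
            have h13 : (phi 1 (1 / 3) L α : ℝ) * ‖p.2‖ ≤ phi 1 (1 / 3) L α * 1 :=
              mul_le_mul_of_nonneg_left hp3 (NNReal.coe_nonneg _)
            refine add_le_add_left ?_ _
            exact h11.trans (add_le_add h12 h13)
        exact le_liminf_of_le (by isBoundedDefault) h9
      · rw [Set.indicator_of_notMem hα]
        exact zero_le
    refine h4.trans ?_
    refine (lintegral_liminf_le fun L => ?_).trans ?_
    · exact measurable_const.indicator (measurable_pre_fun L (Q L)).setOf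
    · refine le_of_eq ?_
      congr 1
      funext L
      exact (h3 L).symm

end

end Pool.Agent.Lib.MP_f64c7e_nt.FP
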