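import Pool.Agent.Lib.MP_f64c7e_nt.FP.Base
import Pool.Agent.Lib.MP_f64c7e_nt.FP.Haar
import Pool.Agent.Lib.MP_f64c7e_nt.FP.Law
import Pool.Agent.Lib.MP_f64c7e_nt.FP.Dens

/-!
The proportion of good words cannot be bounded by a multiple of the volume.
-/

set_option autoImplicit false

open MeasureTheory Filter Topology
open scoped ENNReal

namespace Pool.Agent.Lib.MP_f64c7e_nt.FP

noncomputable section

/-- The law of the walk has no bounded density, so the proportion of good words is not bounded by
a multiple of the volume. -/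
theorem not_words_bound (C : ℕ) (hC : C ≠ 0) (hwords : ∀ U : Set X, IsOpen U → vol U ≠ ⊤ →
    ∀ η : ℝ, 0 < η → ∃ K : ℝ, ∀ L : ℕ,
      (Nat.card (good U K L) : ℝ) / 2 ^ L ≤ C * (vol U).toReal + 2 * η) : False := by
  classical
  obtain ⟨μ, hprob, hself, hsupp, hlim⟩ := exists_law
  haveI := hprob
  haveI := outerRegular_vol
  have hopen : ∀ U : Set X, IsOpen U → μ U ≤ C * vol U := by
    intro U hU
    by_cases hfin : vol U = ⊤
    · rw [hfin, ENNReal.mul_top (by exact_mod_cast hC)]
      exact le_top
    · refine ENNReal.le_of_forall_pos_le_add fun η hη _ => ?_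
      obtain ⟨K, hK⟩ := hwords U hU hfin (η / 2 : ℝ) (by positivity)
      refine (hlim U hU K).trans ?_
      refine liminf_le_of_frequently_le' (Frequently.of_forall fun L => ?_)
      have h1 := hK L
      have h2 : ((Nat.card (good U K L) : ℝ≥0∞)) / 2 ^ L =
          ENNReal.ofReal ((Nat.card (good U K L) : ℝ) / 2 ^ L) := by
        rw [ENNReal.ofReal_div_of_pos (by positivity), ENNReal.ofReal_natCast,
          ENNReal.ofReal_pow (by norm_num)]
        norm_num
      have h3 : (C : ℝ≥0∞) * vol U + η = ENNReal.ofReal (C * (vol U).toReal + 2 * (η / 2 : ℝ)) := by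
        rw [ENNReal.ofReal_add (by positivity) (by positivity),
          ENNReal.ofReal_mul (by positivity), ENNReal.ofReal_natCast, ENNReal.ofReal_toReal hfin]
        congr 1
        rw [mul_div_cancel₀ _ (two_ne_zero), ENNReal.ofReal_coe_nnreal]
      change ((Nat.card (good U K L) : ℝ≥0∞)) / 2 ^ L ≤ _
      rw [h2, h3]
      exact ENNReal.ofReal_le_ofReal h1
  have hle : μ ≤ (C : ℝ≥0∞) • vol := by
    refine Measure.le_intro fun s hs _ => ?_
    rw [Measure.smul_apply, smul_eq_mul]
    by_cases hfin : vol s = ⊤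
    · rw [hfin, ENNReal.mul_top (by exact_mod_cast hC)]
      exact le_top
    · refine ENNReal.le_of_forall_pos_le_add fun η hη _ => ?_
      have hC' : (0 : ℝ) < C := by exact_mod_cast Nat.pos_of_ne_zero hC
      obtain ⟨U, hsU, hU, hlt⟩ := s.exists_isOpen_lt_add hfin
        (ε := ((η : ℝ≥0∞) / C)) (by
          rw [Ne, ENNReal.div_eq_zero_iff]
          push Not
          exact ⟨by exact_mod_cast hη.ne', ENNReal.natCast_ne_top _⟩)
      calc μ s ≤ μ U := measure_mono hsU
        _ ≤ C * vol U := hopen U hU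
        _ ≤ C * (vol s + (η : ℝ≥0∞) / C) := by gcongr
        _ = C * vol s + η := by
          rw [mul_add, ENNReal.mul_div_cancel (by exact_mod_cast hC) (ENNReal.natCast_ne_top _)]
  exact no_bounded_density μ hself hsupp C (ENNReal.natCast_ne_top _) hle

end

end Pool.Agent.Lib.MP_f64c7e_nt.FP
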