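import Pool.Agent.Lib.MP_f64c7e_nt.FP.Defs

/-!
The integer walks of a rational fixed point of the 3x+1 conjugacy map: finiteness for every denominator,
no fixed point in the open unit interval `(-1, 0)`, and the denominators `3^m`.
-/

set_option autoImplicit false

namespace Pool.Agent.Lib.MP_f64c7e_nt.FP

/-- The two integer walks of a rational fixed point `u 0 / q`. -/
def Walk (q : ℕ) (u c : ℕ → ℤ) : Prop := u 0 = c 0 ∧ ∀ i, u i % 2 = c i % 2 ∧
  2 * u (i+1) = (if u i % 2 = 1 then u i - q else u i) ∧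
  2 * c (i+1) = (if u i % 2 = 1 then 3 * c i + q else c i)

/-- The recursions of the two walks, without the initial condition. -/
def Rec (q : ℕ) (u c : ℕ → ℤ) : Prop := ∀ i, u i % 2 = c i % 2 ∧
  2 * u (i+1) = (if u i % 2 = 1 then u i - q else u i) ∧
  2 * c (i+1) = (if u i % 2 = 1 then 3 * c i + q else c i)

theorem Walk.rec {q : ℕ} {u c : ℕ → ℤ} (h : Walk q u c) : Rec q u c := h.2

theorem Rec.shift {q : ℕ} {u c : ℕ → ℤ} (h : Rec q u c) (a : ℕ) :
    Rec q (fun i => u (i + a)) (fun i => c (i + a)) := by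
  intro i
  have h1 := h (i + a)
  have e : i + 1 + a = i + a + 1 := by ring
  simp only [e]
  exact h1

theorem Rec.even {q : ℕ} {u c : ℕ → ℤ} (h : Rec q u c) {i : ℕ} (hi : ¬ u i % 2 = 1) :
    c i % 2 = 0 ∧ 2 * u (i + 1) = u i ∧ 2 * c (i + 1) = c i := by
  obtain ⟨h1, h2, h3⟩ := h i
  rw [if_neg hi] at h2 h3
  exact ⟨by omega, h2, h3⟩

theorem Rec.odd {q : ℕ} {u c : ℕ → ℤ} (h : Rec q u c) {i : ℕ} (hi : u i % 2 = 1) :
    c i % 2 = 1 ∧ 2 * u (i + 1) = u i - q ∧ 2 * c (i + 1) = 3 * c i + q := by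
  obtain ⟨h1, h2, h3⟩ := h i
  rw [if_pos hi] at h2 h3
  exact ⟨by omega, h2, h3⟩

theorem det_u {q : ℕ} {u c u' c' : ℕ → ℤ} (h : Rec q u c) (h' : Rec q u' c') (h0 : u 0 = u' 0)
    (i : ℕ) : u i = u' i := by
  induction i with
  | zero => exact h0
  | succ i ih =>
    obtain ⟨-, h2, -⟩ := h i
    obtain ⟨-, h2', -⟩ := h' i
    rw [ih] at h2
    rw [← h2'] at h2
    omega

theorem eq_zero_of_two_pow {z : ℤ} (h : ∀ i : ℕ, (2 : ℤ) ^ i ∣ z) : z = 0 := by
  by_contra hz
  have h1 := Int.le_of_dvd (abs_pos.2 hz) ((dvd_abs _ _).2 (h z.natAbs))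
  have h2 : z.natAbs < 2 ^ z.natAbs := Nat.lt_two_pow_self
  have h3 : (z.natAbs : ℤ) < 2 ^ z.natAbs := by exact_mod_cast h2
  rw [Int.abs_eq_natAbs] at h1
  omega

theorem det_c {q : ℕ} {u c u' c' : ℕ → ℤ} (h : Rec q u c) (h' : Rec q u' c')
    (h0 : ∀ i, u i % 2 = u' i % 2) : c 0 = c' 0 := by
  have key : ∀ i j : ℕ, (2 : ℤ) ^ i ∣ c j - c' j := by
    intro i
    induction i with
    | zero => intro j; simp
    | succ i ih =>
      intro j
      have h1 := mul_dvd_mul_left 2 (ih (j + 1))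
      rw [← pow_succ'] at h1
      by_cases hj : u j % 2 = 1
      · obtain ⟨-, -, h2⟩ := h.odd hj
        obtain ⟨-, -, h3⟩ := h'.odd ((h0 j) ▸ hj)
        have e : 2 * (c (j + 1) - c' (j + 1)) = 3 * (c j - c' j) := by linarith
        rw [e] at h1
        have hcop : IsCoprime ((2 : ℤ) ^ (i + 1)) 3 := by
          apply IsCoprime.pow_left
          exact ⟨-1, 1, by norm_num⟩
        exact hcop.dvd_of_dvd_mul_left h1
      · obtain ⟨-, -, h2⟩ := h.even hj
        obtain ⟨-, -, h3⟩ := h'.even ((h0 j) ▸ hj)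
        have e : 2 * (c (j + 1) - c' (j + 1)) = c j - c' j := by linarith
        rwa [e] at h1
  have := eq_zero_of_two_pow (fun i => key i 0)
  omega

theorem det_u_parity {q : ℕ} {u c u' c' : ℕ → ℤ} (h : Rec q u c) (h' : Rec q u' c')
    (h0 : ∀ i, u i % 2 = u' i % 2) : u 0 = u' 0 := by
  have key : ∀ i j : ℕ, (2 : ℤ) ^ i ∣ u j - u' j := by
    intro i
    induction i with
    | zero => intro j; simp
    | succ i ih =>
      intro j
      have h1 := mul_dvd_mul_left 2 (ih (j + 1))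
      rw [← pow_succ'] at h1
      by_cases hj : u j % 2 = 1
      · obtain ⟨-, h2, -⟩ := h.odd hj
        obtain ⟨-, h3, -⟩ := h'.odd ((h0 j) ▸ hj)
        have e : 2 * (u (j + 1) - u' (j + 1)) = u j - u' j := by linarith
        rwa [e] at h1
      · obtain ⟨-, h2, -⟩ := h.even hj
        obtain ⟨-, h3, -⟩ := h'.even ((h0 j) ▸ hj)
        have e : 2 * (u (j + 1) - u' (j + 1)) = u j - u' j := by linarith
        rwa [e] at h1
  have := eq_zero_of_two_pow (fun i => key i 0)
  omega

/-- The interval `[-q, 0]` is invariant. -/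
theorem unit_inv {q : ℕ} {u c : ℕ → ℤ} (h : Rec q u c) {i : ℕ} (h1 : -(q : ℤ) ≤ u i) (h2 : u i ≤ 0) :
    -(q : ℤ) ≤ u (i + 1) ∧ u (i + 1) ≤ 0 := by
  by_cases hj : u i % 2 = 1
  · obtain ⟨-, h3, -⟩ := h.odd hj
    omega
  · obtain ⟨-, h3, -⟩ := h.even hj
    omega

theorem unit_inv_open {q : ℕ} {u c : ℕ → ℤ} (h : Rec q u c) (h1 : -(q : ℤ) < u 0) (h2 : u 0 < 0)
    (i : ℕ) : -(q : ℤ) < u i ∧ u i < 0 := by
  induction i with
  | zero => exact ⟨h1, h2⟩
  | succ i ih =>
    by_cases hj : u i % 2 = 1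
    · obtain ⟨-, h3, -⟩ := h.odd hj
      omega
    · obtain ⟨-, h3, -⟩ := h.even hj
      omega

theorem unit_inv_add {q : ℕ} {u c : ℕ → ℤ} (h : Rec q u c) {a : ℕ} (h1 : -(q : ℤ) ≤ u a)
    (h2 : u a ≤ 0) (i : ℕ) : -(q : ℤ) ≤ u (a + i) ∧ u (a + i) ≤ 0 := by
  induction i with
  | zero => exact ⟨h1, h2⟩
  | succ i ih => exact unit_inv h ih.1 ih.2

theorem exists_unit {q : ℕ} {u c : ℕ → ℤ} (h : Rec q u c) : ∃ a, -(q : ℤ) ≤ u a ∧ u a ≤ 0 := by
  by_contra hcon
  push Not at hcon
  -- the distance to the interval decreases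
  have key : ∀ i : ℕ, (u i > 0 → u i ≤ |u 0| + q - i) ∧ (u i < -(q : ℤ) → -u i ≤ |u 0| + q - i) := by
    intro i
    induction i with
    | zero =>
      have h1 := le_abs_self (u 0)
      have h2 := neg_abs_le (u 0)
      refine ⟨fun _ => ?_, fun _ => ?_⟩ <;> push_cast <;> omega
    | succ i ih =>
      have h1 := hcon i
      have h2 := hcon (i + 1)
      push_cast
      by_cases hj : u i % 2 = 1
      · obtain ⟨-, h3, -⟩ := h.odd hj
        rcases lt_or_ge (0 : ℤ) (u i) with h4 | h4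
        · have := ih.1 h4
          refine ⟨fun _ => by omega, fun _ => by omega⟩
        · have h5 : u i < -(q : ℤ) := by
            by_contra h6
            have := h1 (by omega)
            omega
          have := ih.2 h5
          refine ⟨fun _ => by omega, fun _ => by omega⟩
      · obtain ⟨-, h3, -⟩ := h.even hj
        rcases lt_or_ge (0 : ℤ) (u i) with h4 | h4
        · have := ih.1 h4
          refine ⟨fun _ => by omega, fun _ => by omega⟩
        · have h5 : u i < -(q : ℤ) := by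
            by_contra h6
            have := h1 (by omega)
            omega
          have := ih.2 h5
          refine ⟨fun _ => by omega, fun _ => by omega⟩
  set n := (u 0).natAbs + q + 1 with hn
  have h1 := hcon n
  have h2 := key n
  have h3 : ((n : ℕ) : ℤ) = |u 0| + q + 1 := by
    rw [hn, Int.abs_eq_natAbs]; push_cast; ring
  rw [h3] at h2
  rcases lt_or_ge (0 : ℤ) (u n) with h4 | h4
  · have := h2.1 h4
    omega
  · have h5 : u n < -(q : ℤ) := by
      by_contra h6
      have := h1 (by omega)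
      omega
    have := h2.2 h5
    omega

/-- On the closed interval the walk of `c` takes boundedly many values. -/
theorem bound_c (q : ℕ) : ∃ B : ℤ, 0 ≤ B ∧ ∀ u c : ℕ → ℤ, Rec q u c → -(q : ℤ) ≤ u 0 → u 0 ≤ 0 →
    |c 0| ≤ B := by
  have h1 : ∀ v : ℤ, ∃ B : ℤ, ∀ u c : ℕ → ℤ, Rec q u c → u 0 = v → |c 0| ≤ B := by
    intro v
    by_cases hv : ∃ u c : ℕ → ℤ, Rec q u c ∧ u 0 = v
    · obtain ⟨u', c', h', h0'⟩ := hv
      refine ⟨|c' 0|, fun u c h h0 => ?_⟩
      have e : c 0 = c' 0 := det_c h h' (fun i => by rw [det_u h h' (by rw [h0, h0']) i])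
      rw [e]
    · refine ⟨0, fun u c h h0 => ?_⟩
      exact absurd ⟨u, c, h, h0⟩ hv
  choose B hB using h1
  obtain ⟨M, hM⟩ := ((Finset.Icc (-(q : ℤ)) 0).image B).exists_le
  refine ⟨max M 0, le_max_right _ _, fun u c h h1 h2 => ?_⟩
  refine (hB (u 0) u c h rfl).trans (le_trans ?_ (le_max_left _ _))
  exact hM _ (Finset.mem_image_of_mem B (Finset.mem_Icc.2 ⟨h1, h2⟩))

/-- The number of odd steps before `i`. -/
def cnt (u : ℕ → ℤ) : ℕ → ℕ
  | 0 => 0
  | i + 1 => if u i % 2 = 1 then cnt u i + 1 else cnt u i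

theorem cnt_mono (u : ℕ → ℤ) {i j : ℕ} (h : i ≤ j) : cnt u i ≤ cnt u j := by
  induction j, h using Nat.le_induction with
  | base => exact le_rfl
  | succ j _ ih =>
    refine ih.trans ?_
    simp only [cnt]
    split_ifs <;> omega

/-- The difference of the walks before the unit interval is entered. -/
theorem diff_lower {q : ℕ} {u c : ℕ → ℤ} (h : Walk q u c) (hodd : u 0 % 2 = 1) {a : ℕ}
    (ha : ∀ i < a, ¬ (-(q : ℤ) ≤ u i ∧ u i ≤ 0)) (i : ℕ) (hi : i < a) :
    (0 < u 0 → 0 < u i ∧ 2 ^ i * (u i + q) ≤ u 0 + q * 2 ^ i ∧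
      (3 : ℤ) ^ cnt u (i + 1) * (u 0 + q) ≤ 3 * (2 ^ i * (c (i + 1) - u (i + 1)))) ∧
    (u 0 < 0 → u i < -(q : ℤ) ∧ u 0 + q ≤ 2 ^ i * (u i + q) ∧
      3 * (2 ^ i * (c (i + 1) - u (i + 1))) ≤ (3 : ℤ) ^ cnt u (i + 1) * (u 0 + q)) := by
  induction i with
  | zero =>
    have h0 := ha 0 hi
    obtain ⟨h1, h2, h3⟩ := h.rec.odd hodd
    have h4 := h.1
    rw [zero_add] at h2 h3
    simp only [cnt, if_pos hodd, pow_zero, zero_add, pow_one]
    refine ⟨fun h5 => ⟨h5, by omega, by omega⟩, fun h5 => ⟨by omega, by omega, by omega⟩⟩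
  | succ i ih =>
    obtain ⟨ih1, ih2⟩ := ih (by omega)
    have hai := ha i (by omega)
    have hai1 := ha (i + 1) hi
    have hp : (0 : ℤ) < 2 ^ i := by positivity
    constructor
    · intro h5
      obtain ⟨i1, i2, i3⟩ := ih1 h5
      have hpos : 0 < u (i + 1) := by
        by_contra hneg
        apply hai1
        by_cases hj : u i % 2 = 1
        · obtain ⟨-, h3, -⟩ := h.rec.odd hj
          omega
        · obtain ⟨-, h3, -⟩ := h.rec.even hj
          omega
      refine ⟨hpos, ?_, ?_⟩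
      · have hle : 2 * u (i + 1) ≤ u i := by
          by_cases hj : u i % 2 = 1
          · obtain ⟨-, h3, -⟩ := h.rec.odd hj
            omega
          · obtain ⟨-, h3, -⟩ := h.rec.even hj
            omega
        rw [pow_succ]
        nlinarith
      · by_cases hj : u (i + 1) % 2 = 1
        · obtain ⟨-, h3, h4⟩ := h.rec.odd hj
          have e : cnt u (i + 1 + 1) = cnt u (i + 1) + 1 := by
            rw [cnt]; rw [if_pos hj]
          rw [e, pow_succ, pow_succ]
          nlinarith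
        · obtain ⟨-, h3, h4⟩ := h.rec.even hj
          have e : cnt u (i + 1 + 1) = cnt u (i + 1) := by
            rw [cnt]; rw [if_neg hj]
          rw [e, pow_succ]
          nlinarith
    · intro h5
      obtain ⟨i1, i2, i3⟩ := ih2 h5
      have hneg : u (i + 1) < -(q : ℤ) := by
        by_contra hneg
        apply hai1
        by_cases hj : u i % 2 = 1
        · obtain ⟨-, h3, -⟩ := h.rec.odd hj
          omega
        · obtain ⟨-, h3, -⟩ := h.rec.even hj
          omega
      refine ⟨hneg, ?_, ?_⟩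
      · have hle : u i + q ≤ 2 * (u (i + 1) + q) := by
          by_cases hj : u i % 2 = 1
          · obtain ⟨-, h3, -⟩ := h.rec.odd hj
            omega
          · obtain ⟨-, h3, -⟩ := h.rec.even hj
            omega
        rw [pow_succ]
        nlinarith
      · by_cases hj : u (i + 1) % 2 = 1
        · obtain ⟨-, h3, h4⟩ := h.rec.odd hj
          have e : cnt u (i + 1 + 1) = cnt u (i + 1) + 1 := by
            rw [cnt]; rw [if_pos hj]
          rw [e, pow_succ, pow_succ]
          nlinarith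
        · obtain ⟨-, h3, h4⟩ := h.rec.even hj
          have e : cnt u (i + 1 + 1) = cnt u (i + 1) := by
            rw [cnt]; rw [if_neg hj]
          rw [e, pow_succ]
          nlinarith

/-- The remainders `T^i (u 0 mod 2^i)`. -/
theorem rem_bound {q : ℕ} (hq : Odd q) {u c : ℕ → ℤ} (h : Walk q u c) (hodd : u 0 % 2 = 1) (K : ℕ)
    (i : ℕ) (hi : 1 ≤ i) (hK : cnt u i ≤ K) : ∃ M : ℤ, c i - 3 ^ cnt u i * u i = q * M ∧ 1 ≤ M ∧
      2 ^ i * M * 3 ^ (K + 2) ≤ 4 * (3 ^ (K + 2)) ^ cnt u i := by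
  have hq' : (q : ℤ) % 2 = 1 := by rcases hq with ⟨k, hk⟩; omega
  induction i, hi using Nat.le_induction with
  | base =>
    obtain ⟨h1, h2, h3⟩ := h.rec.odd hodd
    have h4 := h.1
    rw [zero_add] at h2 h3
    refine ⟨2, ?_, by norm_num, ?_⟩
    · simp only [cnt, if_pos hodd, zero_add, pow_one]
      omega
    · simp only [cnt, if_pos hodd, zero_add, pow_one]
      norm_num
  | succ i hi ih =>
    obtain ⟨M, h1, h2, h3⟩ := ih ((cnt_mono u (Nat.le_succ i)).trans hK)
    -- `M` is even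
    have hM : M % 2 = 0 := by
      have hpar := (h.rec i).1
      have h3odd : (3 : ℤ) ^ cnt u i % 2 = 1 := by
        rw [← Int.odd_iff]; exact Odd.pow (by decide)
      have e1 : ((q : ℤ) * M) % 2 = 0 := by
        rw [← h1, Int.sub_emod, Int.mul_emod, h3odd, one_mul, Int.emod_emod_of_dvd _ (dvd_refl 2),
          hpar, sub_self]
        rfl
      rw [Int.mul_emod, hq', one_mul, Int.emod_emod_of_dvd _ (dvd_refl 2)] at e1
      exact e1
    obtain ⟨m, rfl⟩ : ∃ m, M = 2 * m := ⟨M / 2, by omega⟩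
    by_cases hj : u i % 2 = 1
    · obtain ⟨-, h4, h5⟩ := h.rec.odd hj
      have e : cnt u (i + 1) = cnt u i + 1 := by rw [cnt]; rw [if_pos hj]
      rw [e] at hK ⊢
      obtain ⟨t, ht⟩ : ∃ t, (3 : ℤ) ^ (cnt u i + 1) = 2 * t + 1 := by
        have h3odd : (3 : ℤ) ^ (cnt u i + 1) % 2 = 1 := by
          rw [← Int.odd_iff]; exact Odd.pow (by decide)
        exact ⟨3 ^ (cnt u i + 1) / 2, by omega⟩
      refine ⟨3 * m + 1 + t, ?_, ?_, ?_⟩
      · have e1 : 2 * (c (i + 1) - 3 ^ (cnt u i + 1) * u (i + 1)) =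
            2 * ((q : ℤ) * (3 * m + 1 + t)) := by
          have e2 : 2 * (c (i + 1) - 3 ^ (cnt u i + 1) * u (i + 1)) =
              3 * (c i - 3 ^ cnt u i * u i) + q + 3 ^ (cnt u i + 1) * q := by
            rw [mul_sub, h5]
            have : 2 * ((3 : ℤ) ^ (cnt u i + 1) * u (i + 1)) = 3 ^ (cnt u i + 1) * (u i - q) := by
              rw [← h4]; ring
            rw [this, pow_succ]; ring
          rw [e2, h1, ht]; ring
        linarith
      · have : 0 < (3 : ℤ) ^ (cnt u i + 1) := by positivity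
        omega
      · have hle : (3 : ℤ) ^ (cnt u i + 1) ≤ 3 ^ K := pow_le_pow_right₀ (by norm_num) hK
        have h1K : (1 : ℤ) ≤ 3 ^ K := one_le_pow₀ (by norm_num)
        have hm : 1 ≤ m := by omega
        have e1 : (2 : ℤ) ^ (i + 1) * (3 * m + 1 + t) ≤ 2 ^ i * (2 * m) * 3 ^ (K + 2) := by
          have e2 : (2 : ℤ) ^ (i + 1) * (3 * m + 1 + t) =
              2 ^ i * (3 * (2 * m) + 1 + 3 ^ (cnt u i + 1)) := by rw [ht, pow_succ]; ring
          rw [e2, mul_assoc]
          refine mul_le_mul_of_nonneg_left ?_ (by positivity)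
          rw [pow_add (3 : ℤ) K 2]
          nlinarith [mul_nonneg (sub_nonneg.2 hm) (sub_nonneg.2 h1K)]
        calc (2 : ℤ) ^ (i + 1) * (3 * m + 1 + t) * 3 ^ (K + 2)
            ≤ 2 ^ i * (2 * m) * 3 ^ (K + 2) * 3 ^ (K + 2) :=
              mul_le_mul_of_nonneg_right e1 (by positivity)
          _ ≤ 4 * (3 ^ (K + 2)) ^ cnt u i * 3 ^ (K + 2) :=
              mul_le_mul_of_nonneg_right h3 (by positivity)
          _ = 4 * (3 ^ (K + 2)) ^ (cnt u i + 1) := by rw [pow_succ ((3 : ℤ) ^ (K + 2))]; ring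
    · obtain ⟨-, h4, h5⟩ := h.rec.even hj
      have e : cnt u (i + 1) = cnt u i := by rw [cnt]; rw [if_neg hj]
      rw [e] at hK ⊢
      refine ⟨m, ?_, by omega, ?_⟩
      · have e2 : 2 * (c (i + 1) - 3 ^ cnt u i * u (i + 1)) = 2 * ((q : ℤ) * m) := by
          calc 2 * (c (i + 1) - 3 ^ cnt u i * u (i + 1))
              = 2 * c (i + 1) - 3 ^ cnt u i * (2 * u (i + 1)) := by ring
            _ = 2 * ((q : ℤ) * m) := by rw [h4, h5, h1]; ring
        linarith
      · have e3 : (2 : ℤ) ^ (i + 1) * m = 2 ^ i * (2 * m) := by rw [pow_succ]; ring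
        rw [e3]; exact h3

theorem start_bound {q : ℕ} {u c : ℕ → ℤ} (h : Rec q u c) (i : ℕ) :
    |u 0| ≤ 2 ^ i * (|u i| + q) - q := by
  induction i with
  | zero => simp
  | succ i ih =>
    have h1 : |u i| ≤ 2 * |u (i + 1)| + q := by
      by_cases hj : u i % 2 = 1
      · obtain ⟨-, h4, -⟩ := h.odd hj
        have e : u i = 2 * u (i + 1) + q := by linarith
        rw [e]
        refine (abs_add_le _ _).trans ?_
        rw [abs_mul, abs_two, Nat.abs_cast]
      · obtain ⟨-, h4, -⟩ := h.even hj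
        rw [← h4, abs_mul, abs_two]
        have : (0 : ℤ) ≤ q := Int.natCast_nonneg q
        linarith
    refine ih.trans ?_
    have hp : (0 : ℤ) < 2 ^ i := by positivity
    rw [pow_succ]
    nlinarith

theorem fin_q (q : ℕ) (hq : Odd q) : {u₀ : ℤ | Odd u₀ ∧ IsCoprime u₀ (q : ℤ) ∧
    ∃ u c : ℕ → ℤ, Walk q u c ∧ u 0 = u₀}.Finite := by
  obtain ⟨B, hB0, hB⟩ := bound_c q
  set K : ℕ := (3 * (B + q)).toNat with hKdef
  set m : ℕ := 4 * (3 ^ (K + 2)) ^ K with hmdef
  refine (Set.finite_Icc (-((2 : ℤ) ^ m * (2 * q))) ((2 : ℤ) ^ m * (2 * q))).subset ?_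
  rintro u₀ ⟨hodd, -, u, c, hw, rfl⟩
  have hodd' : u 0 % 2 = 1 := Int.odd_iff.1 hodd
  have hex := exists_unit hw.rec
  set a := Nat.find hex with hadef
  obtain ⟨ha1, ha2⟩ := Nat.find_spec hex
  rw [← hadef] at ha1 ha2
  have hmin : ∀ i < a, ¬ (-(q : ℤ) ≤ u i ∧ u i ≤ 0) := fun i hi => Nat.find_min hex hi
  have hqnn : (0 : ℤ) ≤ q := Int.natCast_nonneg q
  -- the length of the preperiod is bounded
  have ham : a ≤ m := by
    rcases Nat.eq_zero_or_pos a with h0 | h0
    · rw [h0]; exact Nat.zero_le _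
    · obtain ⟨b, hb⟩ : ∃ b, a = b + 1 := ⟨a - 1, by omega⟩
      have hd := diff_lower hw hodd' hmin b (by omega)
      rw [← hb] at hd
      have hca : |c a| ≤ B := by
        have := hB _ _ (hw.rec.shift a) (by simpa using ha1) (by simpa using ha2)
        simpa using this
      have hp : (0 : ℤ) < 2 ^ b := by positivity
      have h3k : (3 : ℤ) ^ cnt u a ≤ 3 * (B + q) := by
        have hcl := neg_abs_le (c a)
        have hcu := le_abs_self (c a)
        have h3p : (0 : ℤ) < 3 ^ cnt u a := by positivity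
        rcases lt_trichotomy (u 0) 0 with hu | hu | hu
        · obtain ⟨d1, d2, d3⟩ := hd.2 hu
          have d4 : u 0 + q ≤ -2 ^ b := by nlinarith
          have d5 : 3 * (2 ^ b * (c a - u a)) ≤ (3 : ℤ) ^ cnt u a * (-2 ^ b) :=
            d3.trans (mul_le_mul_of_nonneg_left d4 h3p.le)
          have d6 : (2 : ℤ) ^ b * (3 ^ cnt u a) ≤ 2 ^ b * (-3 * (c a - u a)) := by linarith
          have d7 := le_of_mul_le_mul_left d6 hp
          linarith
        · rw [hu] at hodd'; norm_num at hodd'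
        · obtain ⟨d1, d2, d3⟩ := hd.1 hu
          have d4 : (2 : ℤ) ^ b ≤ u 0 + q := by nlinarith
          have d5 : (3 : ℤ) ^ cnt u a * (2 ^ b) ≤ 3 * (2 ^ b * (c a - u a)) :=
            (mul_le_mul_of_nonneg_left d4 h3p.le).trans d3
          have d6 : (2 : ℤ) ^ b * (3 ^ cnt u a) ≤ 2 ^ b * (3 * (c a - u a)) := by linarith
          have d7 := le_of_mul_le_mul_left d6 hp
          linarith
      have hcntK : cnt u a ≤ K := by
        have h1 : cnt u a < 3 ^ cnt u a := Nat.lt_pow_self (by norm_num)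
        have h2 : ((cnt u a : ℕ) : ℤ) < 3 ^ cnt u a := by exact_mod_cast h1
        rw [hKdef]
        have h3 : (0 : ℤ) ≤ 3 * (B + q) := by positivity
        zify
        rw [Int.toNat_of_nonneg h3]
        linarith
      obtain ⟨M, hM1, hM2, hM3⟩ := rem_bound hq hw hodd' K a h0 hcntK
      have h5 : (2 : ℤ) ^ a ≤ m := by
        have h6 : (2 : ℤ) ^ a ≤ 2 ^ a * M * 3 ^ (K + 2) := by
          have h7 : (1 : ℤ) ≤ 3 ^ (K + 2) := one_le_pow₀ (by norm_num)
          have h8 : (0 : ℤ) < 2 ^ a := by positivity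
          have h9 : (2 : ℤ) ^ a ≤ 2 ^ a * M := by nlinarith
          nlinarith
        have h7 : (4 : ℤ) * (3 ^ (K + 2)) ^ cnt u a ≤ m := by
          rw [hmdef]
          push_cast
          have : ((3 : ℤ) ^ (K + 2)) ^ cnt u a ≤ (3 ^ (K + 2)) ^ K :=
            pow_le_pow_right₀ (one_le_pow₀ (by norm_num)) hcntK
          linarith
        exact h6.trans (hM3.trans h7)
      have h6 : a < 2 ^ a := Nat.lt_two_pow_self
      have h7 : (a : ℤ) < 2 ^ a := by exact_mod_cast h6
      have h8 : (a : ℤ) ≤ m := by linarith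
      exact_mod_cast h8
  have h1 := start_bound hw.rec a
  have h2 : |u a| ≤ q := abs_le.2 ⟨ha1, ha2.trans hqnn⟩
  have h3 : (2 : ℤ) ^ a ≤ 2 ^ m := pow_le_pow_right₀ (by norm_num) ham
  have h4 : |u 0| ≤ 2 ^ m * (2 * q) := by
    have h5 : (2 : ℤ) ^ a * (|u a| + q) ≤ 2 ^ m * (2 * q) :=
      mul_le_mul h3 (by linarith) (by positivity) (by positivity)
    linarith
  exact abs_le.1 h4

theorem eventually_unit (q : ℕ) (_hq : Odd q) (u c : ℕ → ℤ) (h : Walk q u c) :
    ∃ a, ∀ i ≥ a, -(q:ℤ) ≤ u i ∧ u i ≤ 0 := by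
  obtain ⟨a, h1, h2⟩ := exists_unit h.rec
  refine ⟨a, fun i hi => ?_⟩
  obtain ⟨j, rfl⟩ := Nat.exists_eq_add_of_le hi
  exact unit_inv_add h.rec h1 h2 j

theorem sign_pos {q : ℕ} {u c : ℕ → ℤ} (h : Walk q u c) (hodd : u 0 % 2 = 1)
    (h0 : -(q : ℤ) < u 0) (i : ℕ) :
    -(q : ℤ) < u i ∧ 0 ≤ c i - u i ∧ (1 ≤ i → 0 < c i - u i) := by
  induction i with
  | zero =>
    have := h.1
    exact ⟨h0, by omega, by omega⟩
  | succ i ih =>
    obtain ⟨i1, i2, i3⟩ := ih
    by_cases hj : u i % 2 = 1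
    · obtain ⟨-, h3, h4⟩ := h.rec.odd hj
      refine ⟨by omega, by omega, fun _ => by omega⟩
    · obtain ⟨-, h3, h4⟩ := h.rec.even hj
      have hi : 1 ≤ i := by
        rcases Nat.eq_zero_or_pos i with h5 | h5
        · rw [h5] at hj; exact absurd hodd hj
        · exact h5
      have := i3 hi
      refine ⟨by omega, by omega, fun _ => by omega⟩

theorem sign_neg {q : ℕ} {u c : ℕ → ℤ} (h : Walk q u c) (hodd : u 0 % 2 = 1) {a : ℕ}
    (ha : ∀ i < a, u i < -(q : ℤ)) (i : ℕ) (hi : i ≤ a) :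
    c i - u i ≤ 0 ∧ (1 ≤ i → c i - u i < 0) := by
  induction i with
  | zero =>
    have := h.1
    exact ⟨by omega, by omega⟩
  | succ i ih =>
    obtain ⟨i2, i3⟩ := ih (by omega)
    have h0 := ha i (by omega)
    by_cases hj : u i % 2 = 1
    · obtain ⟨-, h3, h4⟩ := h.rec.odd hj
      refine ⟨by omega, fun _ => by omega⟩
    · obtain ⟨-, h3, h4⟩ := h.rec.even hj
      have hi : 1 ≤ i := by
        rcases Nat.eq_zero_or_pos i with h5 | h5
        · rw [h5] at hj; exact absurd hodd hj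
        · exact h5
      have := i3 hi
      refine ⟨by omega, fun _ => by omega⟩

theorem back {q : ℕ} {u c : ℕ → ℤ} (h : Rec q u c) (ho : ∀ i, -(q : ℤ) < u i ∧ u i < 0)
    (d : ℕ) : ∀ i : ℕ, u i = u (i + d) → u 0 = u d := by
  intro i
  induction i with
  | zero => intro e; simpa using e
  | succ i ih =>
    intro e
    apply ih
    have e1 : i + 1 + d = i + d + 1 := by ring
    rw [e1] at e
    have o1 := ho i
    have o2 := ho (i + d)
    by_cases hj : u i % 2 = 1 <;> by_cases hk : u (i + d) % 2 = 1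
    · obtain ⟨-, h3, -⟩ := h.odd hj
      obtain ⟨-, h4, -⟩ := h.odd hk
      omega
    · obtain ⟨-, h3, -⟩ := h.odd hj
      obtain ⟨-, h4, -⟩ := h.even hk
      omega
    · obtain ⟨-, h3, -⟩ := h.even hj
      obtain ⟨-, h4, -⟩ := h.odd hk
      omega
    · obtain ⟨-, h3, -⟩ := h.even hj
      obtain ⟨-, h4, -⟩ := h.even hk
      omega

theorem exists_period {q : ℕ} {u c : ℕ → ℤ} (h : Rec q u c) (h1 : -(q : ℤ) < u 0) (h2 : u 0 < 0) :
    ∃ n : ℕ, 0 < n ∧ u 0 = u n := by
  have ho := unit_inv_open h h1 h2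
  obtain ⟨i, j, hij, hf⟩ := Finite.exists_ne_map_eq_of_infinite
    (fun i : ℕ => (⟨u i, (ho i).1.le, (ho i).2.le⟩ : Set.Icc (-(q : ℤ)) 0))
  have hf' : u i = u j := congrArg Subtype.val hf
  rcases lt_or_gt_of_ne hij with hlt | hlt
  · refine ⟨j - i, by omega, back h ho (j - i) i ?_⟩
    have : i + (j - i) = j := by omega
    rw [this]; exact hf'
  · refine ⟨i - j, by omega, back h ho (i - j) j ?_⟩
    have : j + (i - j) = i := by omega
    rw [this]; exact hf'.symm

theorem no_unit_interval (q : ℕ) (_hq : Odd q) (u c : ℕ → ℤ) (h : Walk q u c)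
    (h0 : -(q : ℤ) < u 0) (h1 : u 0 ≤ 0) (hodd : Odd (u 0)) : False := by
  have hodd' : u 0 % 2 = 1 := Int.odd_iff.1 hodd
  have h2 : u 0 < 0 := by omega
  obtain ⟨n, hn, hun⟩ := exists_period h.rec h0 h2
  have hs := h.rec.shift n
  have e1 := det_u h.rec hs (by simpa using hun)
  have e2 : c 0 = c n := by
    have := det_c h.rec hs (fun i => by rw [e1 i])
    simpa using this
  have := (sign_pos h hodd' h0 n).2.2 hn
  have h3 := h.1
  omega

theorem three_pow_dvd (k : ℕ) : (3 : ℤ) ^ (k + 1) ∣ 2 ^ 3 ^ k + 1 := by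
  induction k with
  | zero => norm_num
  | succ k ih =>
    obtain ⟨t, ht⟩ := ih
    have e : (2 : ℤ) ^ 3 ^ (k + 1) = (3 ^ (k + 1) * t - 1) ^ 3 := by
      rw [pow_succ 3 k, pow_mul]
      congr 1
      linarith
    rw [e]
    refine ⟨3 ^ (2 * k + 1) * t ^ 3 - 3 ^ (k + 1) * t ^ 2 + t, ?_⟩
    have e1 : (3 : ℤ) ^ (2 * k + 1) = 3 * (3 ^ k) ^ 2 := by ring
    rw [e1]
    ring

/-- Going `h` steps in the walk of `u` is dividing by `2^h` modulo `q`. -/
theorem dvd_step {q : ℕ} {u c : ℕ → ℤ} (h : Rec q u c) (j i : ℕ) :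
    (q : ℤ) ∣ 2 ^ j * u (i + j) - u i := by
  induction j with
  | zero => simp
  | succ j ih =>
    have h1 : (q : ℤ) ∣ 2 * u (i + j + 1) - u (i + j) := by
      by_cases hj : u (i + j) % 2 = 1
      · obtain ⟨-, h3, -⟩ := h.odd hj
        rw [h3]; exact ⟨-1, by ring⟩
      · obtain ⟨-, h3, -⟩ := h.even hj
        rw [h3]; simp
    have h2 := dvd_add (dvd_mul_of_dvd_right h1 (2 ^ j)) ih
    have e : 2 ^ j * (2 * u (i + j + 1) - u (i + j)) + (2 ^ j * u (i + j) - u i) =
        2 ^ (j + 1) * u (i + (j + 1)) - u i := by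
      rw [pow_succ, ← add_assoc]; ring
    rwa [e] at h2

/-- If the numbers are reflected after `h` steps, the odd steps are half of all. -/
theorem cnt_flip {q : ℕ} (hq : (q : ℤ) % 2 = 1) {u : ℕ → ℤ} {h : ℕ}
    (hf : ∀ i, u (i + h) = -(q : ℤ) - u i) (j : ℕ) : cnt u (j + h) + cnt u j = cnt u h + j := by
  induction j with
  | zero => simp [cnt]
  | succ j ih =>
    have e : j + 1 + h = j + h + 1 := by ring
    rw [e]
    have hfj := hf j
    by_cases hj : u j % 2 = 1
    · have hk : ¬ u (j + h) % 2 = 1 := by omega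
      simp only [cnt, if_pos hj, if_neg hk]
      omega
    · have hk : u (j + h) % 2 = 1 := by omega
      simp only [cnt, if_neg hj, if_pos hk]
      omega

theorem periodic_mul {c : ℕ → ℤ} {n : ℕ} (hc : ∀ i, c (i + n) = c i) (N i : ℕ) :
    c (i + n * N) = c i := by
  induction N with
  | zero => simp
  | succ N ih =>
    have e : i + n * (N + 1) = i + n * N + n := by ring
    rw [e, hc, ih]

/-- The cycles with reflection are those of `1/3`. -/
theorem flip_cycle {m : ℕ} {u c : ℕ → ℤ} (hr : Rec (3 ^ m) u c) {h : ℕ} (hh : 0 < h)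
    (hf : ∀ i, u (i + h) = -((3 : ℤ) ^ m) - u i) :
    (3 * u 0 = -(3 : ℤ) ^ m ∧ c 0 = 3 ^ m) ∨ (3 * u 0 = -2 * (3 : ℤ) ^ m ∧ c 0 = 2 * 3 ^ m) := by
  have hqc : (((3 ^ m : ℕ) : ℕ) : ℤ) = 3 ^ m := by push_cast; rfl
  have hq : ((3 : ℤ) ^ m) % 2 = 1 := by rw [← Int.odd_iff]; exact Odd.pow (by decide)
  have hqp : (0 : ℤ) < 3 ^ m := by positivity
  set q : ℤ := 3 ^ m with hqdef
  have ho : ∀ {i : ℕ}, u i % 2 = 1 → c i % 2 = 1 ∧ 2 * u (i + 1) = u i - q ∧
      2 * c (i + 1) = 3 * c i + q := by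
    intro i hi
    have := hr.odd hi
    rw [hqc] at this
    exact this
  have he : ∀ {i : ℕ}, ¬ u i % 2 = 1 → c i % 2 = 0 ∧ 2 * u (i + 1) = u i ∧
      2 * c (i + 1) = c i := fun hi => hr.even hi
  have hper_u : ∀ i, u (i + 2 * h) = u i := by
    intro i
    have e : i + 2 * h = i + h + h := by ring
    rw [e, hf, hf]; ring
  have hper_c : ∀ i, c (i + 2 * h) = c i := by
    intro i
    have h1 := hr.shift i
    have h2 := h1.shift (2 * h)
    have := det_c h2 h1 (fun j => by
      show u (j + 2 * h + i) % 2 = u (j + i) % 2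
      have e : j + 2 * h + i = (j + i) + 2 * h := by ring
      rw [e, hper_u])
    simp only [zero_add] at this
    rw [add_comm] at this
    exact this
  have hcnt : cnt u (2 * h) = h := by
    have := cnt_flip (q := 3 ^ m) (by rw [hqc]; exact hq) (fun i => by rw [hqc]; exact hf i) h
    rw [two_mul]
    omega
  -- there is an odd step
  have hoddstep : ∀ i, ∃ t, i ≤ t ∧ u t % 2 = 1 := by
    intro i
    by_cases hi : u i % 2 = 1
    · exact ⟨i, le_rfl, hi⟩
    · refine ⟨i + h, by omega, ?_⟩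
      have := hf i
      omega
  -- positivity
  have hpos_step : ∀ i, 0 < c i → 0 < c (i + 1) := by
    intro i hi
    by_cases hj : u i % 2 = 1
    · obtain ⟨-, -, h3⟩ := ho hj
      omega
    · obtain ⟨-, -, h3⟩ := he hj
      omega
  have hpos_later : ∀ i j, 0 < c i → 0 < c (i + j) := by
    intro i j hi
    induction j with
    | zero => exact hi
    | succ j ih => exact hpos_step _ ih
  have hpos0 : 0 < c 0 := by
    by_contra hneg
    have hall : ∀ i, c i ≤ 0 := by
      intro i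
      by_contra hi
      have h1 := hpos_later i (2 * h * i - i) (by omega)
      have h2 : i + (2 * h * i - i) = 0 + 2 * h * i := by
        have : i ≤ 2 * h * i := Nat.le_mul_of_pos_left i (by omega)
        omega
      rw [h2, periodic_mul hper_c] at h1
      exact hneg h1
    have hpot : ∀ i, 2 ^ i * (-c i) ≤ 3 ^ cnt u i * (-c 0) := by
      intro i
      induction i with
      | zero => simp [cnt]
      | succ i ih =>
        have hp : (0 : ℤ) < 2 ^ i := by positivity
        by_cases hj : u i % 2 = 1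
        · obtain ⟨-, -, h3⟩ := ho hj
          have e : cnt u (i + 1) = cnt u i + 1 := by rw [cnt]; rw [if_pos hj]
          rw [e, pow_succ, pow_succ]
          nlinarith
        · obtain ⟨-, -, h3⟩ := he hj
          have e : cnt u (i + 1) = cnt u i := by rw [cnt]; rw [if_neg hj]
          rw [e, pow_succ]
          nlinarith
    have h1 := hpot (2 * h)
    have h2 : c (2 * h) = c 0 := by have := hper_c 0; simpa using this
    rw [hcnt, h2, pow_mul] at h1
    have h3 : (3 : ℤ) ^ h < (2 ^ 2) ^ h := pow_lt_pow_left₀ (by norm_num) (by norm_num) (by omega)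
    have h4 : c 0 = 0 := by
      have := hall 0
      nlinarith
    have h5 : ∀ i, c i = 0 := by
      intro i
      induction i with
      | zero => exact h4
      | succ i ih =>
        have h6 := (hr i).1
        have hj : ¬ u i % 2 = 1 := by omega
        obtain ⟨-, -, h3⟩ := he hj
        omega
    obtain ⟨t, -, ht⟩ := hoddstep 0
    have h6 := (hr t).1
    have h7 := h5 t
    omega
  have hpos : ∀ i, 0 < c i := by
    intro i
    have := hpos_later 0 i hpos0
    simpa using this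
  -- divisibility
  have hdiv : ∀ j, j ≤ m → ∀ i, (3 : ℤ) ^ j ∣ c i := by
    intro j
    induction j with
    | zero => intro _ i; simp
    | succ j ih =>
      intro hj i
      have ih' := ih (by omega)
      have h3q : (3 : ℤ) ^ (j + 1) ∣ q := pow_dvd_pow 3 hj
      have hcop : IsCoprime ((3 : ℤ) ^ (j + 1)) 2 := by
        apply IsCoprime.pow_left
        exact ⟨1, -1, by norm_num⟩
      obtain ⟨t, hti, ht⟩ := hoddstep i
      have hstart : (3 : ℤ) ^ (j + 1) ∣ c (t + 1) := by
        obtain ⟨-, -, h3⟩ := ho ht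
        have h4 : (3 : ℤ) ^ (j + 1) ∣ 3 * c t + q := by
          refine dvd_add ?_ h3q
          rw [pow_succ']
          exact mul_dvd_mul_left 3 (ih' t)
        rw [← h3] at h4
        exact hcop.dvd_of_dvd_mul_left h4
      have hlater : ∀ s, (3 : ℤ) ^ (j + 1) ∣ c (t + 1 + s) := by
        intro s
        induction s with
        | zero => exact hstart
        | succ s ihs =>
          by_cases hk : u (t + 1 + s) % 2 = 1
          · obtain ⟨-, -, h3⟩ := ho hk
            have h4 : (3 : ℤ) ^ (j + 1) ∣ 3 * c (t + 1 + s) + q :=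
              dvd_add (dvd_mul_of_dvd_right ihs 3) h3q
            rw [← h3] at h4
            exact hcop.dvd_of_dvd_mul_left h4
          · obtain ⟨-, -, h3⟩ := he hk
            rw [← h3] at ihs
            exact hcop.dvd_of_dvd_mul_left ihs
      have h5 := hlater (i + 2 * h * (t + 1) - (t + 1))
      have h6 : t + 1 + (i + 2 * h * (t + 1) - (t + 1)) = i + 2 * h * (t + 1) := by
        have : t + 1 ≤ 2 * h * (t + 1) := Nat.le_mul_of_pos_left _ (by omega)
        omega
      rw [h6, periodic_mul hper_c] at h5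
      exact h5
  have hge : ∀ i, q ≤ c i := fun i => Int.le_of_dvd (hpos i) (hdiv m le_rfl i)
  -- the potential
  have hpot : ∀ i, 2 ^ i * c i ≤ 4 ^ cnt u i * c 0 ∧
      ((∃ t < i, u t % 2 = 1 ∧ c t ≠ q) → 2 ^ i * c i < 4 ^ cnt u i * c 0) := by
    intro i
    induction i with
    | zero =>
      refine ⟨by simp [cnt], ?_⟩
      rintro ⟨t, ht, -⟩
      omega
    | succ i ih =>
      have hp : (0 : ℤ) < 2 ^ i := by positivity
      have hg := hge i
      obtain ⟨ih1, ih2⟩ := ih
      by_cases hj : u i % 2 = 1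
      · obtain ⟨-, -, h3⟩ := ho hj
        have e : cnt u (i + 1) = cnt u i + 1 := by rw [cnt]; rw [if_pos hj]
        rw [e, pow_succ, pow_succ]
        refine ⟨by nlinarith, ?_⟩
        rintro ⟨t, ht, ht1, ht2⟩
        rcases Nat.lt_succ_iff_lt_or_eq.1 ht with h5 | h5
        · have := ih2 ⟨t, h5, ht1, ht2⟩
          nlinarith
        · subst h5
          have h6 : q + 1 ≤ c t := by omega
          nlinarith
      · obtain ⟨-, -, h3⟩ := he hj
        have e : cnt u (i + 1) = cnt u i := by rw [cnt]; rw [if_neg hj]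
        rw [e, pow_succ]
        refine ⟨by nlinarith, ?_⟩
        rintro ⟨t, ht, ht1, ht2⟩
        rcases Nat.lt_succ_iff_lt_or_eq.1 ht with h5 | h5
        · have := ih2 ⟨t, h5, ht1, ht2⟩
          nlinarith
        · subst h5
          exact absurd ht1 hj
  have hall : ∀ t < 2 * h, u t % 2 = 1 → c t = q := by
    intro t ht ht1
    by_contra hne
    have h1 := (hpot (2 * h)).2 ⟨t, ht, ht1, hne⟩
    have h2 : c (2 * h) = c 0 := by have := hper_c 0; simpa using this
    rw [hcnt, h2, pow_mul] at h1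
    norm_num at h1
  -- an odd step before `2 h`
  obtain ⟨t, ht, ht1⟩ : ∃ t < 2 * h, u t % 2 = 1 := by
    by_cases h0 : u 0 % 2 = 1
    · exact ⟨0, by omega, h0⟩
    · refine ⟨h, by omega, ?_⟩
      have := hf 0
      rw [zero_add] at this
      omega
  have hct := hall t ht ht1
  have hc2 : ∀ j, c (t + 2 * j) = q ∧ u (t + 2 * j) % 2 = 1 ∧ c (t + 2 * j + 1) = 2 * q ∧
      ¬ u (t + 2 * j + 1) % 2 = 1 := by
    intro j
    induction j with
    | zero =>
      simp only [mul_zero, add_zero]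
      obtain ⟨-, -, h3⟩ := ho ht1
      have h4 := (hr (t + 1)).1
      exact ⟨hct, ht1, by omega, by omega⟩
    | succ j ih =>
      obtain ⟨i1, i2, i3, i4⟩ := ih
      obtain ⟨-, -, h3⟩ := he i4
      have e : t + 2 * (j + 1) = t + 2 * j + 1 + 1 := by ring
      rw [e]
      have h4 := (hr (t + 2 * j + 1 + 1)).1
      have h5 : c (t + 2 * j + 1 + 1) = q := by omega
      have h6 : u (t + 2 * j + 1 + 1) % 2 = 1 := by omega
      obtain ⟨-, -, h7⟩ := ho h6
      have h8 := (hr (t + 2 * j + 1 + 1 + 1)).1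
      exact ⟨h5, h6, by omega, by omega⟩
  have hut : ∀ j, 3 * u (t + 2 * j) = -q := by
    intro j
    have e2 : u (t + 2 * j) = u (t + 2 * j + 2) := by
      have hs1 := hr.shift (t + 2 * j)
      have hs2 := hr.shift (t + 2 * j + 2)
      have := det_u_parity hs1 hs2 (fun i => by
        show u (i + (t + 2 * j)) % 2 = u (i + (t + 2 * j + 2)) % 2
        rcases Nat.even_or_odd' i with ⟨k, hk | hk⟩
        · have e1 : i + (t + 2 * j) = t + 2 * (j + k) := by omega
          have e3 : i + (t + 2 * j + 2) = t + 2 * (j + k + 1) := by omega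
          rw [e1, e3, (hc2 _).2.1, (hc2 _).2.1]
        · have e1 : i + (t + 2 * j) = t + 2 * (j + k) + 1 := by omega
          have e3 : i + (t + 2 * j + 2) = t + 2 * (j + k + 1) + 1 := by omega
          have h1 := (hc2 (j + k)).2.2.2
          have h2 := (hc2 (j + k + 1)).2.2.2
          rw [e1, e3]
          omega)
      simpa using this
    obtain ⟨-, h3, -⟩ := ho (hc2 j).2.1
    obtain ⟨-, h4, -⟩ := he (hc2 j).2.2.2
    have e3 : t + 2 * j + 1 + 1 = t + 2 * j + 2 := by ring
    rw [e3] at h4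
    omega
  -- transport to the index `0`
  have hP0 : ∀ N, c (2 * h * N) = c 0 ∧ u (2 * h * N) = u 0 := by
    intro N
    have h1 := periodic_mul hper_c N 0
    have h2 := periodic_mul hper_u N 0
    rw [zero_add] at h1 h2
    exact ⟨h1, h2⟩
  obtain ⟨h1, h2⟩ := hP0 t
  have hle : t ≤ 2 * h * t := Nat.le_mul_of_pos_left t (by omega)
  rcases Nat.even_or_odd' (2 * h * t - t) with ⟨k, hk | hk⟩
  · left
    have e : 2 * h * t = t + 2 * k := by omega
    rw [e] at h1 h2
    have h3 := (hc2 k).1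
    have h4 := hut k
    exact ⟨by omega, by omega⟩
  · right
    have e : 2 * h * t = t + 2 * k + 1 := by omega
    rw [e] at h1 h2
    have h3 := (hc2 k).2.2.1
    have h4 := hut k
    obtain ⟨-, h5, -⟩ := ho (hc2 k).2.1
    exact ⟨by omega, by omega⟩

theorem thirds (m : ℕ) (u c : ℕ → ℤ) (h : Walk (3 ^ m) u c) (hodd : Odd (u 0)) :
    u 0 = -(3:ℤ)^m ∨ 3 * u 0 = (3:ℤ)^m := by
  have hqc : (((3 ^ m : ℕ) : ℕ) : ℤ) = 3 ^ m := by push_cast; rfl
  have hq : ((3 : ℤ) ^ m) % 2 = 1 := by rw [← Int.odd_iff]; exact Odd.pow (by decide)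
  have hqp : (0 : ℤ) < 3 ^ m := by positivity
  have hodd' : u 0 % 2 = 1 := Int.odd_iff.1 hodd
  by_cases heq : u 0 = -(3 : ℤ) ^ m
  · exact Or.inl heq
  right
  have hex := exists_unit h.rec
  set a := Nat.find hex with hadef
  obtain ⟨ha1, ha2⟩ := Nat.find_spec hex
  rw [← hadef, hqc] at ha1
  rw [← hadef] at ha2
  have hmin : ∀ i < a, ¬ (-((3 : ℤ) ^ m) ≤ u i ∧ u i ≤ 0) := by
    intro i hi
    have := Nat.find_min hex hi
    rwa [hqc] at this
  have hneg : u 0 < -(3 : ℤ) ^ m → ∀ i < a, u i < -(3 : ℤ) ^ m := by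
    intro h0 i hi
    have := diff_lower h hodd' (a := a) (fun i hi => by rw [hqc]; exact hmin i hi) i hi
    have h1 := (this.2 (by omega)).1
    rwa [hqc] at h1
  have hD : c a - u a = 0 → False := by
    intro hD
    have h3 := h.1
    rcases lt_or_ge (u 0) (-(3 : ℤ) ^ m) with h0 | h0
    · have ha : 1 ≤ a := by
        by_contra hcon
        have : a = 0 := by omega
        rw [this] at ha1
        omega
      have := (sign_neg h hodd' (a := a) (fun i hi => by rw [hqc]; exact hneg h0 i hi) a le_rfl).2 ha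
      omega
    · have h0' : -(3 : ℤ) ^ m < u 0 := lt_of_le_of_ne h0 (Ne.symm heq)
      rcases Nat.eq_zero_or_pos a with ha | ha
      · -- the point itself would be in the interval
        rw [ha] at ha1 ha2
        exact no_unit_interval (3 ^ m) (Odd.pow (by decide)) u c h (by rw [hqc]; exact h0') ha2 hodd
      · have := (sign_pos h hodd' (by rw [hqc]; exact h0') a).2.2 ha
        omega
  have hshift := h.rec.shift a
  rcases eq_or_lt_of_le ha1 with hA | hA
  · -- the fixed point `-q`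
    exfalso
    apply hD
    have hconst : Rec (3 ^ m) (fun _ => -(3 : ℤ) ^ m) (fun _ => -(3 : ℤ) ^ m) := by
      intro i
      rw [hqc]
      have : (-(3 : ℤ) ^ m) % 2 = 1 := by omega
      simp only [if_pos this]
      refine ⟨trivial, by ring, by ring⟩
    have e1 := det_u hshift hconst (by simp only [zero_add]; exact hA.symm)
    have e2 := det_c hshift hconst (fun i => by rw [e1 i])
    simp only [zero_add] at e2
    rw [e2, ← hA]; ring
  rcases eq_or_lt_of_le ha2 with hB | hB
  · exfalso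
    apply hD
    have hconst : Rec (3 ^ m) (fun _ => (0 : ℤ)) (fun _ => (0 : ℤ)) := by
      intro i
      simp
    have e1 := det_u hshift hconst (by simp only [zero_add]; exact hB)
    have e2 := det_c hshift hconst (fun i => by rw [e1 i])
    simp only [zero_add] at e2
    rw [e2, hB]; ring
  -- the general case: reflection after `3^(m-1)` steps
  have hm : 1 ≤ m := by
    rcases Nat.eq_zero_or_pos m with h0 | h0
    · rw [h0] at hA; norm_num at hA; omega
    · exact h0
  obtain ⟨k, rfl⟩ : ∃ k, m = k + 1 := ⟨m - 1, by omega⟩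
  have ho := unit_inv_open hshift (by simp only [zero_add]; rw [hqc]; exact hA)
    (by simp only [zero_add]; exact hB)
  have hflip : ∀ i, (fun i => u (i + a)) (i + 3 ^ k) = -((3 : ℤ) ^ (k + 1)) - (fun i => u (i + a)) i := by
    intro i
    have h1 := dvd_step hshift (3 ^ k) i
    rw [hqc] at h1
    have h2 := three_pow_dvd k
    have h3 := dvd_sub (dvd_mul_of_dvd_left h2 ((fun i => u (i + a)) (i + 3 ^ k))) h1
    have e : (2 ^ 3 ^ k + 1) * (fun i => u (i + a)) (i + 3 ^ k) -
        (2 ^ 3 ^ k * (fun i => u (i + a)) (i + 3 ^ k) - (fun i => u (i + a)) i) =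
        (fun i => u (i + a)) (i + 3 ^ k) + (fun i => u (i + a)) i := by ring
    rw [e] at h3
    have o1 := ho i
    have o2 := ho (i + 3 ^ k)
    rw [hqc] at o1 o2
    obtain ⟨w, hw⟩ := h3
    have hw1 : w < 0 := by
      by_contra hcon
      push Not at hcon
      nlinarith
    have hw2 : -2 < w := by
      by_contra hcon
      push Not at hcon
      nlinarith
    have hw3 : w = -1 := by omega
    rw [hw3] at hw
    linarith
  have hcyc := flip_cycle hshift (h := 3 ^ k) (by positivity) hflip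
  simp only [zero_add] at hcyc
  -- the last step before the interval
  rcases Nat.eq_zero_or_pos a with ha | ha
  · exfalso
    have h3 := h.1
    rw [ha] at hcyc
    omega
  obtain ⟨b, hb⟩ : ∃ b, a = b + 1 := ⟨a - 1, by omega⟩
  have hmb := hmin b (by omega)
  rw [hb] at hcyc
  rcases hcyc with ⟨h1, h2⟩ | ⟨h1, h2⟩
  · by_cases hj : u b % 2 = 1
    · obtain ⟨-, h3, h4⟩ := h.rec.odd hj
      rw [hqc] at h3 h4
      rcases Nat.eq_zero_or_pos b with h0 | h0
      · subst h0; omega
      · exfalso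
        have hub : 3 * u b = 3 ^ (k + 1) := by omega
        have hcb : 3 * c b = 3 ^ (k + 1) := by omega
        rcases lt_or_ge (u 0) (-(3 : ℤ) ^ (k + 1)) with h5 | h5
        · have := hneg h5 b (by omega)
          omega
        · have h0' : -(3 : ℤ) ^ (k + 1) < u 0 := lt_of_le_of_ne h5 (Ne.symm heq)
          have := (sign_pos h hodd' (by rw [hqc]; exact h0') b).2.2 h0
          omega
    · obtain ⟨-, h3, h4⟩ := h.rec.even hj
      exfalso
      apply hmb
      omega
  · by_cases hj : u b % 2 = 1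
    · obtain ⟨-, h3, h4⟩ := h.rec.odd hj
      rw [hqc] at h3 h4
      exfalso
      apply hmb
      omega
    · obtain ⟨-, h3, h4⟩ := h.rec.even hj
      exfalso
      rcases lt_or_ge (u 0) (-(3 : ℤ) ^ (k + 1)) with h5 | h5
      · have := (sign_neg h hodd' (a := a) (fun i hi => by rw [hqc]; exact hneg h5 i hi) b
          (by omega)).1
        omega
      · have h0' : -(3 : ℤ) ^ (k + 1) < u 0 := lt_of_le_of_ne h5 (Ne.symm heq)
        have := (sign_pos h hodd' (by rw [hqc]; exact h0') b).1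
        rw [hqc] at this
        omega

end Pool.Agent.Lib.MP_f64c7e_nt.FP
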