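import Mathlib

/-!
Finitely many `S`-integral fixed points of the 3x+1 conjugacy map: the doubling orbit modulo `q`
and a lower bound for the order of `2`.
-/

set_option autoImplicit false

namespace Pool.Agent.Lib.MP_f64c7e_nt.FP

/-- The orbit of `a₀` under halving modulo `q`, written along `ZMod (ord_q 2)`. -/
theorem orbit (q : ℕ) (hq : Odd q) (h1 : 1 < q) (a₀ : ℕ) (h0 : a₀ < q) (hc : Nat.Coprime a₀ q) :
    ∃ (a : ZMod (orderOf (2 : ZMod q)) → ℕ) (ε : ZMod (orderOf (2 : ZMod q)) → Bool),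
      a 0 = a₀ ∧ Function.Injective a ∧ (∀ i, 0 < a i ∧ a i < q) ∧
      (∀ i, 2 * a i = a (i - 1) + if ε i then q else 0) := by
  haveI : NeZero q := ⟨by omega⟩
  haveI : Fact (1 < q) := ⟨h1⟩
  have h2q : Nat.Coprime 2 q := hq.coprime_two_left
  set u : (ZMod q)ˣ := ZMod.unitOfCoprime 2 h2q with hu
  have hu2 : (u : ZMod q) = 2 := by simp [hu]
  have hord : orderOf u = orderOf (2 : ZMod q) := by rw [← hu2, orderOf_units]
  set n := orderOf (2 : ZMod q) with hn
  have hnpos : 0 < n := by rw [← hord]; exact orderOf_pos u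
  haveI : NeZero n := ⟨hnpos.ne'⟩
  set w : (ZMod q)ˣ := ZMod.unitOfCoprime a₀ hc with hw
  have hwa : (w : ZMod q) = (a₀ : ZMod q) := by simp [hw]
  let f : ZMod n → (ZMod q)ˣ := fun i => w * (u⁻¹) ^ i.val
  have hinvord : orderOf (u⁻¹) = n := by rw [orderOf_inv, hord]
  have hf1 : ∀ i : ZMod n, u * f i = f (i - 1) := by
    intro i
    have hi : i = (i - 1) + 1 := by ring
    have hval : (u⁻¹) ^ i.val = (u⁻¹) ^ ((i - 1).val + 1) := by
      rw [pow_eq_pow_iff_modEq, hinvord]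
      conv_lhs => rw [hi]
      rw [ZMod.val_add]
      have h1' : (1 : ZMod n).val % n = 1 % n := by
        rw [← Nat.cast_one, ZMod.val_natCast]; simp
      unfold Nat.ModEq
      rw [Nat.mod_mod, Nat.add_mod, h1', ← Nat.add_mod]
    show u * (w * (u⁻¹) ^ i.val) = w * (u⁻¹) ^ (i - 1).val
    rw [hval, pow_succ]
    calc u * (w * ((u⁻¹) ^ (i - 1).val * u⁻¹))
        = w * (u⁻¹) ^ (i - 1).val * (u * u⁻¹) := by
          simp only [mul_assoc, mul_comm, mul_left_comm]
      _ = w * (u⁻¹) ^ (i - 1).val := by rw [mul_inv_cancel, mul_one]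
  let a : ZMod n → ℕ := fun i => ((f i : (ZMod q)ˣ) : ZMod q).val
  have hapos : ∀ i, 0 < a i := by
    intro i
    rcases Nat.eq_zero_or_pos (a i) with h | h
    · exfalso
      have : ((f i : (ZMod q)ˣ) : ZMod q) = 0 := (ZMod.val_eq_zero _).1 h
      exact (f i).ne_zero this
    · exact h
  have halt : ∀ i, a i < q := fun i => ZMod.val_lt _
  have hcast : ∀ i, ((a i : ℕ) : ZMod q) = ((f i : (ZMod q)ˣ) : ZMod q) := fun i =>
    ZMod.natCast_zmod_val _
  have hstep : ∀ i, 2 * a i = a (i - 1) ∨ 2 * a i = a (i - 1) + q := by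
    intro i
    have hmod : ((2 * a i : ℕ) : ZMod q) = ((a (i - 1) : ℕ) : ZMod q) := by
      push_cast
      rw [hcast, hcast, ← hf1 i]
      push_cast
      rw [hu2]
    have hme : (2 * a i) ≡ a (i - 1) [MOD q] := (ZMod.natCast_eq_natCast_iff _ _ _).1 hmod
    have h3 := halt i
    have h4 := halt (i - 1)
    unfold Nat.ModEq at hme
    rw [Nat.mod_eq_of_lt h4] at hme
    rcases Nat.lt_or_ge (2 * a i) q with h5 | h5
    · left
      rwa [Nat.mod_eq_of_lt h5] at hme
    · right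
      have : (2 * a i) % q = 2 * a i - q := by
        rw [Nat.mod_eq_sub_mod h5, Nat.mod_eq_of_lt (by omega)]
      omega
  refine ⟨a, fun i => decide (2 * a i ≠ a (i - 1)), ?_, ?_, fun i => ⟨hapos i, halt i⟩, ?_⟩
  · show ((w * (u⁻¹) ^ (0 : ZMod n).val : (ZMod q)ˣ) : ZMod q).val = a₀
    rw [ZMod.val_zero, pow_zero, mul_one, hwa, ZMod.val_natCast, Nat.mod_eq_of_lt h0]
  · intro i j hij
    have h3 : ((f i : (ZMod q)ˣ) : ZMod q) = ((f j : (ZMod q)ˣ) : ZMod q) :=
      ZMod.val_injective q hij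
    have h4 : f i = f j := Units.ext h3
    have h5 : (u⁻¹) ^ i.val = (u⁻¹) ^ j.val := mul_left_cancel h4
    rw [pow_eq_pow_iff_modEq, hinvord] at h5
    apply ZMod.val_injective n
    unfold Nat.ModEq at h5
    rwa [Nat.mod_eq_of_lt (ZMod.val_lt i), Nat.mod_eq_of_lt (ZMod.val_lt j)] at h5
  · intro i
    rcases hstep i with h | h
    · simp [h]
    · have hq0 : 2 * a i ≠ a (i - 1) := by omega
      simp [hq0, h]

/-- For `q` composed of the primes of a fixed odd `N`, the order of `2` modulo `q` is at least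
`q / G`. -/
theorem orderOf_two_ge (N : ℕ) (hN : Odd N) :
    ∃ G : ℕ, ∀ q e : ℕ, q ∣ N ^ e → 1 < q →
      0 < orderOf (2 : ZMod q) ∧ q ≤ G * orderOf (2 : ZMod q) := by
  refine ⟨2 ^ (Nat.totient N) - 1, ?_⟩
  intro q e hqe h1
  have hNe : Odd (N ^ e) := hN.pow
  have hq : Odd q := Odd.of_dvd_nat hNe hqe
  haveI : NeZero q := ⟨by omega⟩
  haveI : Fact (1 < q) := ⟨h1⟩
  have h2q : Nat.Coprime 2 q := hq.coprime_two_left
  set u : (ZMod q)ˣ := ZMod.unitOfCoprime 2 h2q with hu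
  have hu2 : (u : ZMod q) = 2 := by simp [hu]
  have hord : orderOf u = orderOf (2 : ZMod q) := by rw [← hu2, orderOf_units]
  set n := orderOf (2 : ZMod q) with hn
  have hnpos : 0 < n := by rw [← hord]; exact orderOf_pos u
  refine ⟨hnpos, ?_⟩
  have hNpos : 0 < N := hN.pos
  set m := Nat.totient N with hm
  have hmpos : 0 < m := Nat.totient_pos.2 hNpos
  set Y := 2 ^ m with hY
  have hY1 : 1 < Y := Nat.one_lt_two_pow hmpos.ne'
  -- `q ∣ Y ^ n - 1`
  have hq1 : q ∣ Y ^ n - 1 := by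
    have h3 : ((2 : ZMod q)) ^ n = 1 := pow_orderOf_eq_one _
    have h4 : ((Y ^ n : ℕ) : ZMod q) = ((1 : ℕ) : ZMod q) := by
      rw [hY, ← pow_mul, mul_comm, pow_mul]
      push_cast
      rw [h3, one_pow]
    have h5 : (1 : ℕ) ≡ Y ^ n [MOD q] := ((ZMod.natCast_eq_natCast_iff _ _ _).1 h4).symm
    exact (Nat.modEq_iff_dvd' (Nat.one_le_pow _ _ (by omega))).1 h5
  have hpos1 : 0 < Y ^ n - 1 := by
    have : 1 < Y ^ n := Nat.one_lt_pow hnpos.ne' hY1
    omega
  have hdvd : q ∣ (Y - 1) * n := by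
    have hne : (Y - 1) * n ≠ 0 := Nat.mul_ne_zero (by omega) hnpos.ne'
    rw [← Nat.factorization_prime_le_iff_dvd (by omega) hne]
    intro p hp
    haveI : Fact p.Prime := ⟨hp⟩
    by_cases hpq : p ∣ q
    · have hpN : p ∣ N := hp.dvd_of_dvd_pow (hpq.trans hqe)
      have hpodd : Odd p := Odd.of_dvd_nat hN hpN
      have hcop : Nat.Coprime 2 N := hN.coprime_two_left
      have hpY : p ∣ Y - 1 := by
        have h6 : (1 : ℕ) ≡ Y [MOD N] := (Nat.ModEq.pow_totient hcop).symm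
        have h7 : N ∣ Y - 1 := (Nat.modEq_iff_dvd' (by omega)).1 h6
        exact hpN.trans h7
      have hpnY : ¬ p ∣ Y := by
        intro h8
        have h9 : p ∣ 2 := hp.dvd_of_dvd_pow h8
        have h10 : p = 2 := (Nat.prime_dvd_prime_iff_eq hp Nat.prime_two).1 h9
        rw [h10] at hpodd
        exact absurd hpodd (by decide)
      have hlte := padicValNat.pow_sub_pow (p := p) (x := Y) (y := 1) hpodd hY1 hpY hpnY
        (n := n) hnpos.ne'
      rw [one_pow] at hlte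
      rw [Nat.factorization_def _ hp, Nat.factorization_def _ hp,
        padicValNat.mul (by omega) hnpos.ne', ← hlte]
      exact (padicValNat_dvd_iff_le hpos1.ne').1 (pow_padicValNat_dvd.trans hq1)
    · rw [Nat.factorization_eq_zero_of_not_dvd hpq]
      exact Nat.zero_le _
  exact Nat.le_of_dvd (Nat.mul_pos (by omega) hnpos) hdvd

end Pool.Agent.Lib.MP_f64c7e_nt.FP
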