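import Pool.Agent.Lib.MP_f64c7e_nt.FP.Equi

/-!
Word frequencies along a cycle of the doubling map whose length is at least `ρ √q`.
-/

set_option autoImplicit false

open Finset

namespace Pool.Agent.Lib.MP_f64c7e_nt.FP

namespace Freq2

/-- `2^L a_i = q V + a_(i-L)`, where `V` is the number with binary digits `ε_i, ε_(i-1), ..`. -/
lemma window {n q : ℕ} (a : ZMod n → ℕ) (ε : ZMod n → Bool)
    (hstep : ∀ i, 2 * a i = a (i - 1) + if ε i then q else 0) (L : ℕ) (i : ZMod n) :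
    2 ^ L * a i = q * (∑ m ∈ range L, 2 ^ (L - 1 - m) * (if ε (i - ((m : ℕ) : ZMod n)) then 1 else 0))
      + a (i - ((L : ℕ) : ZMod n)) := by
  induction L with
  | zero => simp
  | succ L ih =>
    have h1 := hstep (i - ((L : ℕ) : ZMod n))
    have h2 : i - ((L : ℕ) : ZMod n) - 1 = i - (((L + 1 : ℕ)) : ZMod n) := by push_cast; ring
    rw [h2] at h1
    have h3 : (∑ m ∈ range L, 2 ^ (L + 1 - 1 - m) * (if ε (i - ((m : ℕ) : ZMod n)) then 1 else 0) : ℕ)
        = 2 * ∑ m ∈ range L, 2 ^ (L - 1 - m) * (if ε (i - ((m : ℕ) : ZMod n)) then 1 else 0) := by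
      rw [Finset.mul_sum]
      apply Finset.sum_congr rfl
      intro m hm
      rw [Finset.mem_range] at hm
      have : L + 1 - 1 - m = (L - 1 - m) + 1 := by omega
      rw [this, pow_succ]
      ring
    rw [Finset.sum_range_succ, h3]
    have h4 : (2 : ℕ) ^ (L + 1 - 1 - L) = 1 := by simp
    rw [h4, pow_succ]
    have h5 : q * (1 * (if ε (i - ((L : ℕ) : ZMod n)) then 1 else 0))
        = if ε (i - ((L : ℕ) : ZMod n)) then q else 0 := by
      split_ifs <;> simp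
    calc 2 ^ L * 2 * a i = 2 * (2 ^ L * a i) := by ring
      _ = 2 * (q * (∑ m ∈ range L, 2 ^ (L - 1 - m) *
            (if ε (i - ((m : ℕ) : ZMod n)) then 1 else 0)) + a (i - ((L : ℕ) : ZMod n))) := by
          rw [ih]
      _ = q * (2 * ∑ m ∈ range L, 2 ^ (L - 1 - m) *
            (if ε (i - ((m : ℕ) : ZMod n)) then 1 else 0)) + 2 * a (i - ((L : ℕ) : ZMod n)) := by
          ring
      _ = _ := by
          rw [h1, mul_add, h5]
          ring

/-- The number with binary digits `w`. -/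
def V {L : ℕ} (w : Fin L → Bool) : ℕ :=
  ∑ m : Fin L, 2 ^ (L - 1 - (m : ℕ)) * (if w m then 1 else 0)

lemma window' {n q : ℕ} (a : ZMod n → ℕ) (ε : ZMod n → Bool)
    (hstep : ∀ i, 2 * a i = a (i - 1) + if ε i then q else 0) {L : ℕ} (i : ZMod n)
    (w : Fin L → Bool) (hw : ∀ m : Fin L, ε (i - ((m : ℕ) : ZMod n)) = w m) :
    2 ^ L * a i = q * V w + a (i - ((L : ℕ) : ZMod n)) := by
  rw [window a ε hstep L i, V, Finset.sum_range]
  congr 3
  funext m
  rw [hw m]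

lemma cast_step {q x y : ℕ} {b : Bool} (h : 2 * x = y + if b then q else 0) :
    (2 : ZMod q) * (x : ZMod q) = (y : ZMod q) := by
  have h4 : ((2 * x : ℕ) : ZMod q) = ((y + (if b then q else 0) : ℕ) : ZMod q) := congrArg _ h
  rw [Nat.cast_mul, Nat.cast_add] at h4
  have h4' : ((if b then q else 0 : ℕ) : ZMod q) = 0 := by
    split_ifs <;> simp
  rw [h4', add_zero] at h4
  exact_mod_cast h4

/-- All `a_i` lie in one coset of the group generated by `2`. -/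
lemma coset {n q : ℕ} [NeZero n] (a : ZMod n → ℕ) (ε : ZMod n → Bool) (hc : Nat.Coprime (a 0) q)
    (hstep : ∀ i, 2 * a i = a (i - 1) + if ε i then q else 0)
    (u : (ZMod q)ˣ) (hu : (u : ZMod q) = 2) (i : ZMod n) :
    ∃ g ∈ Subgroup.zpowers u, ((a i : ℕ) : ZMod q)
      = ((ZMod.unitOfCoprime (a 0) hc * g : (ZMod q)ˣ) : ZMod q) := by
  have key : ∀ k : ℕ, ((a ((k : ℕ) : ZMod n) : ℕ) : ZMod q) * 2 ^ k = ((a 0 : ℕ) : ZMod q) := by
    intro k
    induction k with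
    | zero => simp
    | succ k ih =>
      have h1 := hstep (((k + 1 : ℕ)) : ZMod n)
      have h2 : (((k + 1 : ℕ)) : ZMod n) - 1 = ((k : ℕ) : ZMod n) := by
        push_cast; ring
      rw [h2] at h1
      have h3 : (2 : ZMod q) * ((a (((k + 1 : ℕ)) : ZMod n) : ℕ) : ZMod q)
          = ((a ((k : ℕ) : ZMod n) : ℕ) : ZMod q) := cast_step h1
      rw [← ih, ← h3, pow_succ]
      ring
  have hi := key i.val
  rw [ZMod.natCast_zmod_val] at hi
  refine ⟨u ^ (-(i.val : ℤ)), ⟨-(i.val : ℤ), rfl⟩, ?_⟩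
  have h5 : ((u ^ (i.val) : (ZMod q)ˣ) : ZMod q) = 2 ^ i.val := by
    rw [Units.val_pow_eq_pow_val, hu]
  rw [Units.val_mul, ZMod.coe_unitOfCoprime, zpow_neg, zpow_natCast, ← hi, ← h5, mul_assoc,
    ← Units.val_mul, mul_inv_cancel, Units.val_one, mul_one]

lemma main {L₀ : ℕ} {δ : ℝ} (hδ : 0 < δ) {L : ℕ} (hL : L ≤ L₀) {n q : ℕ} [NeZero n] [NeZero q]
    (u : (ZMod q)ˣ) (hu : (u : ZMod q) = 2) (hcard : Nat.card (Subgroup.zpowers u) = n)
    (a : ZMod n → ℕ) (ε : ZMod n → Bool) (hc : Nat.Coprime (a 0) q) (hinj : Function.Injective a)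
    (hlt : ∀ i, 0 < a i ∧ a i < q) (hstep : ∀ i, 2 * a i = a (i - 1) + if ε i then q else 0)
    (hE : ∀ z : ℝ, (Nat.card {g : Subgroup.zpowers u // ∃ t : ℝ, z ≤ t ∧ t ≤ z + 1 / 2 ^ L ∧
      ZMod.toAddCircle ((ZMod.unitOfCoprime (a 0) hc * (g : (ZMod q)ˣ) : (ZMod q)ˣ) : ZMod q)
        = (t : UnitAddCircle)} : ℝ) ≤ (1 / 2 ^ L + δ / 2 ^ L₀) * Nat.card (Subgroup.zpowers u))
    (w : Fin L → Bool) :
    |(Nat.card {i : ZMod n // ∀ m : Fin L, ε (i - ((m : ℕ) : ZMod n)) = w m} : ℝ)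
      - n / 2 ^ L| ≤ δ * n := by
  have hq0 : (0 : ℝ) < q := by exact_mod_cast (NeZero.pos q)
  -- upper bound for one window
  have upper : ∀ w : Fin L → Bool, (Nat.card {i : ZMod n //
      ∀ m : Fin L, ε (i - ((m : ℕ) : ZMod n)) = w m} : ℝ) ≤ (1 / 2 ^ L + δ / 2 ^ L₀) * n := by
    intro w
    have hb := hE ((V w : ℝ) / 2 ^ L)
    rw [hcard] at hb
    refine le_trans ?_ hb
    choose g hg hag using fun i => coset a ε hc hstep u hu i
    have hmap : ∀ i : {i : ZMod n // ∀ m : Fin L, ε (i - ((m : ℕ) : ZMod n)) = w m},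
        ∃ t : ℝ, (V w : ℝ) / 2 ^ L ≤ t ∧ t ≤ (V w : ℝ) / 2 ^ L + 1 / 2 ^ L ∧
          ZMod.toAddCircle ((ZMod.unitOfCoprime (a 0) hc * (g i.1 : (ZMod q)ˣ) : (ZMod q)ˣ)
            : ZMod q) = (t : UnitAddCircle) := by
      intro i
      have hw := window' a ε hstep i.1 w i.2
      have hw' : (2 : ℝ) ^ L * a i.1 = q * V w + a (i.1 - ((L : ℕ) : ZMod n)) := by
        exact_mod_cast hw
      have hlt' : (a (i.1 - ((L : ℕ) : ZMod n)) : ℝ) ≤ q := by
        exact_mod_cast (hlt _).2.le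
      have h0' : (0 : ℝ) ≤ a (i.1 - ((L : ℕ) : ZMod n)) := by positivity
      refine ⟨(a i.1 : ℝ) / q, ?_, ?_, ?_⟩
      · rw [div_le_div_iff₀ (by positivity) hq0]
        nlinarith
      · rw [← add_div, div_le_div_iff₀ hq0 (by positivity)]
        nlinarith
      · rw [← hag i.1, ZMod.toAddCircle_natCast]
    have hfin : Finite {g : Subgroup.zpowers u // ∃ t : ℝ, (V w : ℝ) / 2 ^ L ≤ t ∧
            t ≤ (V w : ℝ) / 2 ^ L + 1 / 2 ^ L ∧
            ZMod.toAddCircle ((ZMod.unitOfCoprime (a 0) hc * (g : (ZMod q)ˣ) : (ZMod q)ˣ) : ZMod q)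
              = (t : UnitAddCircle)} := inferInstance
    have hle := Nat.card_le_card_of_injective
      (fun i : {i : ZMod n // ∀ m : Fin L, ε (i - ((m : ℕ) : ZMod n)) = w m} =>
        (⟨⟨g i.1, hg i.1⟩, hmap i⟩ :
          {g : Subgroup.zpowers u // ∃ t : ℝ, (V w : ℝ) / 2 ^ L ≤ t ∧
            t ≤ (V w : ℝ) / 2 ^ L + 1 / 2 ^ L ∧
            ZMod.toAddCircle ((ZMod.unitOfCoprime (a 0) hc * (g : (ZMod q)ˣ) : (ZMod q)ˣ) : ZMod q)
              = (t : UnitAddCircle)})) (by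
        intro i j hij
        simp only [Subtype.mk.injEq] at hij
        apply Subtype.ext
        apply hinj
        have h6 : ((a i.1 : ℕ) : ZMod q) = ((a j.1 : ℕ) : ZMod q) := by
          rw [hag i.1, hag j.1, hij]
        rw [ZMod.natCast_eq_natCast_iff] at h6
        exact Nat.ModEq.eq_of_lt_of_lt h6 (hlt _).2 (hlt _).2)
    exact_mod_cast hle
  -- total count
  have total : (∑ w : Fin L → Bool, (Nat.card {i : ZMod n //
      ∀ m : Fin L, ε (i - ((m : ℕ) : ZMod n)) = w m} : ℝ)) = n := by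
    classical
    have h7 : ∀ w : Fin L → Bool, Nat.card {i : ZMod n //
        ∀ m : Fin L, ε (i - ((m : ℕ) : ZMod n)) = w m}
        = (Finset.univ.filter
          (fun i : ZMod n => (fun m : Fin L => ε (i - ((m : ℕ) : ZMod n))) = w)).card := by
      intro w
      rw [Nat.card_eq_fintype_card, Fintype.card_subtype]
      congr 1
      ext i
      simp [funext_iff]
    have h8 := Finset.card_eq_sum_card_fiberwise
      (f := fun i : ZMod n => (fun m : Fin L => ε (i - ((m : ℕ) : ZMod n))))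
      (s := Finset.univ) (t := Finset.univ) (fun _ _ => by simp)
    rw [Finset.card_univ, ZMod.card] at h8
    rw [← Nat.cast_sum]
    congr 1
    exact (Finset.sum_congr rfl (fun w _ => h7 w)).trans h8.symm
  have hn0 : (0 : ℝ) ≤ n := by positivity
  have hpow : (2 : ℝ) ^ L ≤ 2 ^ L₀ := pow_le_pow_right₀ (by norm_num) hL
  have hpow1 : (1 : ℝ) ≤ 2 ^ L := one_le_pow₀ (by norm_num)
  have hδn : (0 : ℝ) ≤ δ * n := by positivity
  have hbound : (2 : ℝ) ^ L * (δ / 2 ^ L₀ * n) ≤ δ * n := by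
    have : (2 : ℝ) ^ L / 2 ^ L₀ ≤ 1 := (div_le_one (by positivity)).2 hpow
    calc (2 : ℝ) ^ L * (δ / 2 ^ L₀ * n) = (2 ^ L / 2 ^ L₀) * (δ * n) := by ring
      _ ≤ 1 * (δ * n) := mul_le_mul_of_nonneg_right this hδn
      _ = δ * n := one_mul _
  have hηn : (0 : ℝ) ≤ δ / 2 ^ L₀ * n := by positivity
  rw [abs_le]
  constructor
  · -- lower bound
    have h9 : (∑ w' ∈ Finset.univ.erase w, (Nat.card {i : ZMod n //
        ∀ m : Fin L, ε (i - ((m : ℕ) : ZMod n)) = w' m} : ℝ))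
        ≤ ∑ _w' ∈ (Finset.univ : Finset (Fin L → Bool)).erase w,
          (1 / 2 ^ L + δ / 2 ^ L₀) * (n : ℝ) :=
      Finset.sum_le_sum (fun w' _ => upper w')
    rw [Finset.sum_const, nsmul_eq_mul, Finset.card_erase_of_mem (Finset.mem_univ w)] at h9
    have h10 : ((Finset.univ : Finset (Fin L → Bool)).card : ℝ) = 2 ^ L := by
      rw [Finset.card_univ]; simp
    have h11 : (((Finset.univ : Finset (Fin L → Bool)).card - 1 : ℕ) : ℝ) = 2 ^ L - 1 := by
      rw [Nat.cast_sub (Finset.card_pos.2 ⟨w, Finset.mem_univ w⟩), h10]; simp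
    rw [h11] at h9
    rw [← Finset.add_sum_erase _ _ (Finset.mem_univ w)] at total
    have h12 : (2 ^ L - 1) * ((1 / 2 ^ L + δ / 2 ^ L₀) * (n : ℝ))
        = n - n / 2 ^ L + (2 ^ L * (δ / 2 ^ L₀ * n) - δ / 2 ^ L₀ * n) := by
      field_simp
    linarith
  · have h13 := upper w
    have h14 : (1 / 2 ^ L + δ / 2 ^ L₀) * (n : ℝ) = n / 2 ^ L + δ / 2 ^ L₀ * n := by ring
    have h15 : δ / 2 ^ L₀ * (n : ℝ) ≤ 2 ^ L * (δ / 2 ^ L₀ * n) := by
      nlinarith
    linarith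

end Freq2

open Freq2 in
theorem freq2 (L₀ : ℕ) (δ : ℝ) (hδ : 0 < δ) : ∃ ρ : ℝ, 0 < ρ ∧ ∀ q : ℕ, Odd q → 1 < q →
    ρ * √q ≤ orderOf (2 : ZMod q) → ∀ (a : ZMod (orderOf (2 : ZMod q)) → ℕ)
    (ε : ZMod (orderOf (2 : ZMod q)) → Bool), Nat.Coprime (a 0) q → Function.Injective a →
    (∀ i, 0 < a i ∧ a i < q) → (∀ i, 2 * a i = a (i - 1) + if ε i then q else 0) →
    ∀ L ≤ L₀, ∀ w : Fin L → Bool,
      |(Nat.card {i : ZMod (orderOf (2 : ZMod q)) //
        ∀ m : Fin L, ε (i - ((m : ℕ) : ZMod (orderOf (2 : ZMod q)))) = w m} : ℝ) -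
          orderOf (2 : ZMod q) / 2 ^ L| ≤ δ * orderOf (2 : ZMod q) := by
  have hη : (0 : ℝ) < δ / 2 ^ L₀ := by positivity
  choose ρ hρ0 hρ using fun L : ℕ => equi (1 / 2 ^ L) (δ / 2 ^ L₀) (by positivity) hη
  refine ⟨∑ L ∈ range (L₀ + 1), ρ L, Finset.sum_pos (fun L _ => hρ0 L) ⟨0, by simp⟩, ?_⟩
  intro q hq h1 hbig a ε hc hinj hlt hstep L hL w
  have : NeZero q := ⟨by omega⟩
  have hc2 : Nat.Coprime 2 q := (Nat.coprime_two_left).2 hq
  have hu : ((ZMod.unitOfCoprime 2 hc2 : (ZMod q)ˣ) : ZMod q) = 2 := by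
    rw [ZMod.coe_unitOfCoprime]; norm_num
  have hord : orderOf (ZMod.unitOfCoprime 2 hc2) = orderOf (2 : ZMod q) := by
    rw [← hu, orderOf_units]
  have hn : orderOf (2 : ZMod q) ≠ 0 := by
    rw [← hord]; exact (orderOf_pos _).ne'
  have : NeZero (orderOf (2 : ZMod q)) := ⟨hn⟩
  have hcard : Nat.card (Subgroup.zpowers (ZMod.unitOfCoprime 2 hc2)) = orderOf (2 : ZMod q) := by
    rw [Nat.card_zpowers, hord]
  refine main hδ hL (ZMod.unitOfCoprime 2 hc2) hu hcard a ε hc hinj hlt hstep ?_ w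
  intro z
  refine hρ L q _ _ z ?_
  rw [hcard]
  refine le_trans ?_ hbig
  apply mul_le_mul_of_nonneg_right _ (Real.sqrt_nonneg _)
  exact Finset.single_le_sum (f := ρ) (fun L _ => (hρ0 L).le) (Finset.mem_range.2 (by omega))

end Pool.Agent.Lib.MP_f64c7e_nt.FP
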