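import Pool.Agent.Lib.MP_f64c7e_nt.FP.Defs

/-!
Row PER2: from a doubling cycle mod `q` and a parallel 3x+1 walk over `Q` to a cyclic system;
stated relative to the rows CORE2, FREQ2 and ORBIT.
-/

set_option autoImplicit false

namespace Pool.Agent.Lib.MP_f64c7e_nt.FP

noncomputable section

/-- Statement of row CORE2. -/
def Core2S (C : ℕ) : Prop :=
  ∃ (L₀ : ℕ) (δ ρ : ℝ), 0 < δ ∧ 0 < ρ ∧
    ∀ (n Q : ℕ) [NeZero Q] (ε : ZMod n → Bool) (b : ZMod n → ℤ) (Γ : Subgroup (ZMod Q)ˣ)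
    (b₀ : (ZMod Q)ˣ), 0 < n → Sys L₀ δ n Q ε b →
    (∃ g ∈ Γ, ((g : (ZMod Q)ˣ) : ZMod Q) = 3) →
    (∀ i, ∃ g ∈ Γ, (b i : ZMod Q) = ((b₀ * g : (ZMod Q)ˣ) : ZMod Q)) →
    Nat.card Γ ≤ C * n → ρ * √Q ≤ n → False

/-- Statement of row FREQ2. -/
def Freq2S : Prop :=
  ∀ (L₀ : ℕ) (δ : ℝ) (_ : 0 < δ), ∃ ρ : ℝ, 0 < ρ ∧ ∀ q : ℕ, Odd q → 1 < q →
    ρ * √q ≤ orderOf (2 : ZMod q) → ∀ (a : ZMod (orderOf (2 : ZMod q)) → ℕ)
    (ε : ZMod (orderOf (2 : ZMod q)) → Bool), Nat.Coprime (a 0) q → Function.Injective a →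
    (∀ i, 0 < a i ∧ a i < q) → (∀ i, 2 * a i = a (i - 1) + if ε i then q else 0) →
    ∀ L ≤ L₀, ∀ w : Fin L → Bool,
      |(Nat.card {i : ZMod (orderOf (2 : ZMod q)) //
        ∀ m : Fin L, ε (i - ((m : ℕ) : ZMod (orderOf (2 : ZMod q)))) = w m} : ℝ) -
          orderOf (2 : ZMod q) / 2 ^ L| ≤ δ * orderOf (2 : ZMod q)

/-- Statement of the orbit lemma of row FREQ. -/
def OrbitS : Prop :=
  ∀ (q : ℕ) (_ : Odd q) (_ : 1 < q) (a₀ : ℕ) (_ : a₀ < q) (_ : Nat.Coprime a₀ q),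
    ∃ (a : ZMod (orderOf (2 : ZMod q)) → ℕ) (ε : ZMod (orderOf (2 : ZMod q)) → Bool),
      a 0 = a₀ ∧ Function.Injective a ∧ (∀ i, 0 < a i ∧ a i < q) ∧
      (∀ i, 2 * a i = a (i - 1) + if ε i then q else 0)

namespace Per2

/-- Number of odd digits among `u i, …, u (i + m - 1)`. -/
def kk (u : ℕ → ℤ) (i : ℕ) : ℕ → ℕ
  | 0 => 0
  | m + 1 => kk u i m + if u (i + m) % 2 = 1 then 1 else 0

lemma kk_eq_card (u : ℕ → ℤ) (i m : ℕ) :
    kk u i m = ((Finset.range m).filter fun t => u (i + t) % 2 = 1).card := by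
  induction m with
  | zero => simp [kk]
  | succ m ih =>
    rw [kk, ih, Finset.range_add_one, Finset.filter_insert]
    split_ifs with h
    · rw [Finset.card_insert_of_notMem (by simp)]
    · simp

/-- The walk over `m` steps. -/
lemma walk (u c : ℕ → ℤ) (Q : ℕ)
    (hc : ∀ i, 2 * c (i + 1) = (if u i % 2 = 1 then 3 * c i + Q else c i)) (i m : ℕ) :
    ∃ r : ℤ, 0 ≤ r ∧ 2 ^ m * c (i + m) = 3 ^ (kk u i m) * c i + Q * r := by
  induction m with
  | zero => exact ⟨0, le_refl _, by simp [kk]⟩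
  | succ m ih =>
    obtain ⟨r, hr, h⟩ := ih
    have h1 := hc (i + m)
    by_cases ho : u (i + m) % 2 = 1
    · refine ⟨3 * r + 2 ^ m, by positivity, ?_⟩
      simp only [ho, if_true] at h1
      rw [kk, if_pos ho]
      have : i + (m + 1) = i + m + 1 := by ring
      rw [this, pow_succ, pow_succ]
      linear_combination (2 : ℤ) ^ m * h1 + 3 * h
    · refine ⟨r, hr, ?_⟩
      simp only [ho, if_false] at h1
      rw [kk, if_neg ho]
      have : i + (m + 1) = i + m + 1 := by ring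
      rw [this, pow_succ, add_zero]
      linear_combination (2 : ℤ) ^ m * h1 + h

/-- An integer divisible by all powers of two is zero. -/
lemma eq_zero_of_pow (z : ℤ) (h : ∀ m : ℕ, (2 : ℤ) ^ m ∣ z) : z = 0 := by
  by_contra hz
  have h1 := Int.le_of_dvd (abs_pos.mpr hz) ((dvd_abs _ _).mpr (h z.natAbs))
  have h2 : ((z.natAbs : ℕ) : ℤ) < 2 ^ z.natAbs := by exact_mod_cast Nat.lt_two_pow_self
  rw [Int.natCast_natAbs] at h2
  omega

/-- Two indices with the same digits for ever have the same `u`. -/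
lemma u_eq (u : ℕ → ℤ) (q : ℕ)
    (hu : ∀ i, 2 * u (i + 1) = (if u i % 2 = 1 then u i - q else u i)) (i j : ℕ)
    (h : ∀ m, u (i + m) % 2 = u (j + m) % 2) : u i = u j := by
  have key : ∀ m, u i - u j = 2 ^ m * (u (i + m) - u (j + m)) := by
    intro m
    induction m with
    | zero => simp
    | succ m ih =>
      rw [ih]
      have h1 := hu (i + m)
      have h2 := hu (j + m)
      have h3 := h m
      have e1 : i + (m + 1) = i + m + 1 := by ring
      have e2 : j + (m + 1) = j + m + 1 := by ring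
      rw [e1, e2, pow_succ]
      by_cases ho : u (i + m) % 2 = 1
      · have ho' : u (j + m) % 2 = 1 := by omega
        simp only [ho, if_true] at h1
        simp only [ho', if_true] at h2
        linear_combination (2 : ℤ) ^ m * (h2 - h1)
      · have ho' : ¬ u (j + m) % 2 = 1 := by omega
        simp only [ho, if_false] at h1
        simp only [ho', if_false] at h2
        linear_combination (2 : ℤ) ^ m * (h2 - h1)
  have : u i - u j = 0 := eq_zero_of_pow _ fun m => ⟨_, key m⟩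
  omega

/-- Two indices with the same `c` have the same digits for ever. -/
lemma digits_eq (u c : ℕ → ℤ) (Q : ℕ) (hp : ∀ i, u i % 2 = c i % 2)
    (hc : ∀ i, 2 * c (i + 1) = (if u i % 2 = 1 then 3 * c i + Q else c i)) (i j : ℕ)
    (h : c i = c j) (m : ℕ) : c (i + m) = c (j + m) := by
  induction m with
  | zero => simpa using h
  | succ m ih =>
    have h1 := hc (i + m)
    have h2 := hc (j + m)
    have h3 := hp (i + m)
    have h4 := hp (j + m)
    have e1 : i + (m + 1) = i + m + 1 := by ring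
    have e2 : j + (m + 1) = j + m + 1 := by ring
    rw [e1, e2]
    rw [h3, ih] at h1
    rw [h4] at h2
    have := h1.trans h2.symm
    omega

/-- A walk driven by an `n`-periodic digit sequence is `n`-periodic. -/
lemma c_periodic (u c : ℕ → ℤ) (Q n : ℕ) (hper : ∀ i, u (i + n) = u i)
    (hc : ∀ i, 2 * c (i + 1) = (if u i % 2 = 1 then 3 * c i + Q else c i)) (i : ℕ) :
    c (i + n) = c i := by
  -- the differences `D i = c (i + n) - c i`
  have hD : ∀ i, 2 * (c (i + 1 + n) - c (i + 1)) =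
      (if u i % 2 = 1 then 3 else 1) * (c (i + n) - c i) := by
    intro i
    have h1 := hc i
    have h2 := hc (i + n)
    rw [hper i] at h2
    have e : i + 1 + n = i + n + 1 := by ring
    rw [e]
    by_cases ho : u i % 2 = 1
    · simp only [ho, if_true] at h1 h2 ⊢
      linear_combination h2 - h1
    · simp only [ho, if_false] at h1 h2 ⊢
      linear_combination h2 - h1
  have hD2 : ∀ m, 2 ^ m * (c (i + m + n) - c (i + m)) = 3 ^ (kk u i m) * (c (i + n) - c i) := by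
    intro m
    induction m with
    | zero => simp [kk]
    | succ m ih =>
      have h1 := hD (i + m)
      have e : i + (m + 1) = i + m + 1 := by ring
      rw [e, kk]
      by_cases ho : u (i + m) % 2 = 1
      · simp only [ho, if_true] at h1 ⊢
        rw [pow_succ, pow_succ]
        linear_combination (2 : ℤ) ^ m * h1 + 3 * ih
      · simp only [ho, if_false] at h1 ⊢
        rw [pow_succ, add_zero]
        linear_combination (2 : ℤ) ^ m * h1 + ih
  have : c (i + n) - c i = 0 := by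
    refine eq_zero_of_pow _ fun m => ?_
    have h1 : (2 : ℤ) ^ m ∣ 3 ^ (kk u i m) * (c (i + n) - c i) := ⟨_, (hD2 m).symm⟩
    refine IsCoprime.dvd_of_dvd_mul_left ?_ h1
    exact IsCoprime.pow (by norm_num)
  omega

/-- The subgroup of the units mod `Q` which lie in the submonoid generated by `2` and `3`. -/
def Gam (Q : ℕ) [NeZero Q] : Subgroup (ZMod Q)ˣ where
  carrier := {g | (g : ZMod Q) ∈ Submonoid.closure ({2, 3} : Set (ZMod Q))}
  mul_mem' := fun {a b} ha hb => by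
    simp only [Set.mem_ofPred_eq, Units.val_mul] at *
    exact Submonoid.mul_mem _ ha hb
  one_mem' := by
    simp only [Set.mem_ofPred_eq, Units.val_one]
    exact Submonoid.one_mem _
  inv_mem' := fun {g} hg => by
    simp only [Set.mem_ofPred_eq] at *
    have h1 : g⁻¹ = g ^ (orderOf g - 1) := by
      apply inv_eq_of_mul_eq_one_right
      rw [← pow_succ', Nat.sub_add_cancel (orderOf_pos g), pow_orderOf_eq_one]
    rw [h1, Units.val_pow_eq_pow_val]
    exact Submonoid.pow_mem _ hg _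

lemma mem_Gam {Q : ℕ} [NeZero Q] (g : (ZMod Q)ˣ) :
    g ∈ Gam Q ↔ (g : ZMod Q) ∈ Submonoid.closure ({2, 3} : Set (ZMod Q)) := Iff.rfl

lemma card_Gam (Q : ℕ) [NeZero Q] :
    Nat.card (Gam Q) ≤ Nat.card (Submonoid.closure ({2, 3} : Set (ZMod Q))) := by
  refine Nat.card_le_card_of_injective
    (fun g : Gam Q => (⟨((g : (ZMod Q)ˣ) : ZMod Q), g.2⟩ :
      Submonoid.closure ({2, 3} : Set (ZMod Q)))) ?_
  intro g g' h
  have h1 : (((g : (ZMod Q)ˣ) : ZMod Q)) = ((g' : (ZMod Q)ˣ) : ZMod Q) := congrArg Subtype.val h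
  exact Subtype.ext (Units.ext h1)

/-- The values of the walk stay in one coset of `Gam Q`. -/
lemma coset (u c : ℕ → ℤ) (Q : ℕ) [NeZero Q] (hQ6 : Nat.Coprime Q 6)
    (hcop : IsCoprime (c 0) (Q : ℤ))
    (hc : ∀ i, 2 * c (i + 1) = (if u i % 2 = 1 then 3 * c i + Q else c i)) :
    (∃ g ∈ Gam Q, ((g : (ZMod Q)ˣ) : ZMod Q) = 3) ∧
    ∃ b₀ : (ZMod Q)ˣ, ∀ i : ℕ, ∃ g ∈ Gam Q, (c i : ZMod Q) = ((b₀ * g : (ZMod Q)ˣ) : ZMod Q) := by
  have h2 : Nat.Coprime 2 Q := (hQ6.coprime_dvd_right (by norm_num : (2 : ℕ) ∣ 6)).symm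
  have h3 : Nat.Coprime 3 Q := (hQ6.coprime_dvd_right (by norm_num : (3 : ℕ) ∣ 6)).symm
  set u2 := ZMod.unitOfCoprime 2 h2 with hu2
  set u3 := ZMod.unitOfCoprime 3 h3 with hu3
  have e2 : (u2 : ZMod Q) = 2 := by simp [hu2]
  have e3 : (u3 : ZMod Q) = 3 := by simp [hu3]
  have m2 : u2 ∈ Gam Q := by
    rw [mem_Gam, e2]; exact Submonoid.subset_closure (by simp)
  have m3' : u3 ∈ Gam Q := by
    rw [mem_Gam, e3]; exact Submonoid.subset_closure (by simp)
  refine ⟨⟨u3, m3', e3⟩, ?_⟩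
  have hunit : IsUnit ((c 0 : ℤ) : ZMod Q) :=
    (ZMod.coe_int_isUnit_iff_isCoprime (c 0) Q).mpr hcop.symm
  obtain ⟨b₀, hb₀⟩ := hunit
  refine ⟨b₀, fun i => ?_⟩
  induction i with
  | zero => exact ⟨1, (Gam Q).one_mem, by simp [hb₀]⟩
  | succ i ih =>
    obtain ⟨g, hg, hgi⟩ := ih
    have h := congrArg (fun z : ℤ => (z : ZMod Q)) (hc i)
    by_cases ho : u i % 2 = 1
    · refine ⟨g * u2⁻¹ * u3, (Gam Q).mul_mem ((Gam Q).mul_mem hg ((Gam Q).inv_mem m2)) m3', ?_⟩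
      simp only [ho, if_true] at h
      push_cast at h
      rw [hgi] at h
      simp only [ZMod.natCast_self, add_zero] at h
      rw [← e2, ← e3] at h
      have : (c (i + 1) : ZMod Q) = ↑u2⁻¹ * (↑u3 * ↑(b₀ * g)) := by
        rw [← h, ← mul_assoc, Units.inv_mul, one_mul]
      rw [this]
      push_cast
      ring
    · refine ⟨g * u2⁻¹, (Gam Q).mul_mem hg ((Gam Q).inv_mem m2), ?_⟩
      simp only [ho, if_false] at h
      push_cast at h
      rw [hgi] at h
      rw [← e2] at h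
      have : (c (i + 1) : ZMod Q) = ↑u2⁻¹ * ↑(b₀ * g) := by
        rw [← h, ← mul_assoc, Units.inv_mul, one_mul]
      rw [this]
      push_cast
      ring

end Per2

open Per2 in
/-- Row PER2 relative to its inputs. -/
theorem periodic2_of (C : ℕ) (hcore : Core2S C) (hfreq : Freq2S) (horb : OrbitS) :
    ∃ ρ : ℕ, ∀ q : ℕ, Odd q → 1 < q →
    ρ * q ≤ (orderOf (2 : ZMod q)) ^ 2 → ∀ (u c : ℕ → ℤ) (Q : ℕ), Nat.Coprime Q 6 →
    ρ * Q ≤ (orderOf (2 : ZMod q)) ^ 2 →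
    Nat.card (Submonoid.closure ({2, 3} : Set (ZMod Q))) ≤ C * orderOf (2 : ZMod q) →
    -(q : ℤ) < u 0 → u 0 < 0 → IsCoprime (u 0) (q : ℤ) → IsCoprime (c 0) (Q : ℤ) →
    (∀ i, u i % 2 = c i % 2 ∧ 2 * u (i + 1) = (if u i % 2 = 1 then u i - q else u i) ∧
      2 * c (i + 1) = (if u i % 2 = 1 then 3 * c i + Q else c i)) → False := by
  obtain ⟨L₀, δ, ρ₁, hδ, hρ₁, hco⟩ := hcore
  obtain ⟨ρ₂, hρ₂, hf⟩ := hfreq (max L₀ 1) (min δ (1 / 10)) (lt_min hδ (by norm_num))
  refine ⟨⌈ρ₁ ^ 2⌉₊ + ⌈ρ₂ ^ 2⌉₊, ?_⟩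
  intro q hq h1 hρq u c Q hQ6 hρQ hcard hu0 hu1 hcop hcopc hw
  have hpar : ∀ i, u i % 2 = c i % 2 := fun i => (hw i).1
  have hu : ∀ i, 2 * u (i + 1) = (if u i % 2 = 1 then u i - q else u i) := fun i => (hw i).2.1
  have hc : ∀ i, 2 * c (i + 1) = (if u i % 2 = 1 then 3 * c i + Q else c i) :=
    fun i => (hw i).2.2
  -- the constants
  have hc1 : 0 < ⌈ρ₁ ^ 2⌉₊ := Nat.ceil_pos.mpr (by positivity)
  have hc2 : 0 < ⌈ρ₂ ^ 2⌉₊ := Nat.ceil_pos.mpr (by positivity)
  have hn0 : 0 < orderOf (2 : ZMod q) := by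
    by_contra hcon
    have h0 : orderOf (2 : ZMod q) = 0 := by omega
    rw [h0] at hρq
    have : 0 < (⌈ρ₁ ^ 2⌉₊ + ⌈ρ₂ ^ 2⌉₊) * q := by positivity
    omega
  have hnq : ρ₂ * √q ≤ orderOf (2 : ZMod q) := by
    have h2 : (ρ₂ * √q) ^ 2 ≤ ((orderOf (2 : ZMod q) : ℕ) : ℝ) ^ 2 := by
      rw [mul_pow, Real.sq_sqrt (by positivity)]
      have h3 : (((⌈ρ₁ ^ 2⌉₊ + ⌈ρ₂ ^ 2⌉₊) * q : ℕ) : ℝ) ≤ (((orderOf (2 : ZMod q)) ^ 2 : ℕ) : ℝ) := by
        exact_mod_cast hρq
      push_cast at h3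
      have h4 : ρ₂ ^ 2 ≤ (⌈ρ₂ ^ 2⌉₊ : ℝ) := Nat.le_ceil _
      have h5 : (0 : ℝ) ≤ (⌈ρ₁ ^ 2⌉₊ : ℝ) := by positivity
      have h6 : (0 : ℝ) ≤ (q : ℝ) := by positivity
      nlinarith
    exact le_of_sq_le_sq h2 (by positivity)
  have hnQ : ρ₁ * √Q ≤ orderOf (2 : ZMod q) := by
    have h2 : (ρ₁ * √Q) ^ 2 ≤ ((orderOf (2 : ZMod q) : ℕ) : ℝ) ^ 2 := by
      rw [mul_pow, Real.sq_sqrt (by positivity)]
      have h3 : (((⌈ρ₁ ^ 2⌉₊ + ⌈ρ₂ ^ 2⌉₊) * Q : ℕ) : ℝ) ≤ (((orderOf (2 : ZMod q)) ^ 2 : ℕ) : ℝ) := by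
        exact_mod_cast hρQ
      push_cast at h3
      have h4 : ρ₁ ^ 2 ≤ (⌈ρ₁ ^ 2⌉₊ : ℝ) := Nat.le_ceil _
      have h5 : (0 : ℝ) ≤ (⌈ρ₂ ^ 2⌉₊ : ℝ) := by positivity
      have h6 : (0 : ℝ) ≤ (Q : ℝ) := by positivity
      nlinarith
    exact le_of_sq_le_sq h2 (by positivity)
  -- the orbit
  obtain ⟨a₀, ha₀⟩ : ∃ a₀ : ℕ, (a₀ : ℤ) = -u 0 := ⟨(-u 0).toNat, Int.toNat_of_nonneg (by omega)⟩
  have ha₀q : a₀ < q := by omega
  have ha₀c : Nat.Coprime a₀ q := by
    rw [← Nat.isCoprime_iff_coprime, ha₀]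
    exact hcop.neg_left
  obtain ⟨a, ε, ha0, hainj, hapos, hastep⟩ := horb q hq h1 a₀ ha₀q ha₀c
  generalize hN : orderOf (2 : ZMod q) = n at *
  have : NeZero n := ⟨by omega⟩
  have hsub : ∀ i : ℕ, (((i + 1 : ℕ) : ZMod n) - 1) = ((i : ℕ) : ZMod n) := by
    intro i; push_cast; ring
  obtain ⟨q', hq'⟩ := hq
  have hua : ∀ i : ℕ, u i = -(a (i : ZMod n) : ℤ) := by
    intro i
    induction i with
    | zero => simp [ha0, ha₀]
    | succ i ih =>
      have h2 := hastep ((i + 1 : ℕ) : ZMod n)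
      rw [hsub] at h2
      have h3 := hu i
      split_ifs at h2 h3 <;> omega
  have hdig : ∀ i : ℕ, (u i % 2 = 1 ↔ ε ((i + 1 : ℕ) : ZMod n) = true) := by
    intro i
    have h2 := hastep ((i + 1 : ℕ) : ZMod n)
    rw [hsub] at h2
    have h3 := hua i
    by_cases he : ε ((i + 1 : ℕ) : ZMod n) = true
    · rw [if_pos he] at h2
      exact ⟨fun _ => he, fun _ => by omega⟩
    · rw [if_neg he] at h2
      exact ⟨fun h => absurd h (by omega), fun h => absurd h he⟩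
  have huper : ∀ i, u (i + n) = u i := by
    intro i
    rw [hua, hua]
    simp
  have hcper : ∀ i, c (i + n) = c i := fun i => c_periodic u c Q n huper hc i
  have hcmod : ∀ i, c (i % n) = c i := fun i => Function.Periodic.map_mod_nat hcper i
  -- the cyclic walk
  set b : ZMod n → ℤ := fun j => c j.val with hb
  have hbc : ∀ i : ℕ, b (i : ZMod n) = c i := by
    intro i
    simp only [hb, ZMod.val_natCast]
    exact hcmod i
  have hsurj : ∀ j : ZMod n, ∃ i : ℕ, ((i : ℕ) : ZMod n) = j :=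
    fun j => ⟨j.val, ZMod.natCast_zmod_val j⟩
  have hQ0 : Q ≠ 0 := by
    rintro rfl
    simp [Nat.Coprime] at hQ6
  have : NeZero Q := ⟨hQ0⟩
  -- few odd digits
  have hfr : ∀ L ≤ max L₀ 1, ∀ w : Fin L → Bool,
      |(Nat.card {i : ZMod n // ∀ m : Fin L, ε (i - ((m : ℕ) : ZMod n)) = w m} : ℝ) -
          n / 2 ^ L| ≤ (min δ (1 / 10)) * n := by
    have := hf q ⟨q', hq'⟩ h1
    rw [hN] at this
    exact this hnq a ε (by rw [ha0]; exact ha₀c) hainj hapos hastep
  have hk : ∀ i, 5 * kk u i n ≤ 3 * n := by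
    intro i
    have h2 := hfr 1 (le_max_right _ _) (fun _ => true)
    have h3 : kk u i n ≤ Nat.card {i : ZMod n // ∀ m : Fin 1,
        ε (i - ((m : ℕ) : ZMod n)) = (fun _ => true) m} := by
      rw [kk_eq_card, Nat.card_eq_fintype_card, Fintype.card_subtype]
      refine Finset.card_le_card_of_injOn (fun t => ((i + t + 1 : ℕ) : ZMod n)) ?_ ?_
      · intro t ht
        simp only [Finset.coe_filter, Finset.mem_range, Set.mem_ofPred_eq] at ht
        simp only [Finset.coe_filter, Finset.mem_univ, true_and, Set.mem_ofPred_eq]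
        intro m
        have : (m : ℕ) = 0 := by omega
        rw [this, Nat.cast_zero, sub_zero]
        exact (hdig (i + t)).mp ht.2
      · intro t ht t' ht' h
        simp only [Finset.coe_filter, Finset.mem_range, Set.mem_ofPred_eq] at ht ht'
        simp only at h
        rw [ZMod.natCast_eq_natCast_iff] at h
        have h4 : t ≡ t' [MOD n] := by
          have h5 : (i + 1) + t ≡ (i + 1) + t' [MOD n] := by
            have e1 : i + t + 1 = (i + 1) + t := by ring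
            have e2 : i + t' + 1 = (i + 1) + t' := by ring
            rwa [e1, e2] at h
          exact Nat.ModEq.add_left_cancel' _ h5
        exact Nat.ModEq.eq_of_lt_of_lt h4 ht.1 ht'.1
    have h5 : ((kk u i n : ℕ) : ℝ) ≤ n / 2 + n / 10 := by
      have h6 : ((kk u i n : ℕ) : ℝ) ≤ (Nat.card {i : ZMod n // ∀ m : Fin 1,
        ε (i - ((m : ℕ) : ZMod n)) = (fun _ => true) m} : ℝ) := by exact_mod_cast h3
      have h7 := (abs_le.mp h2).2
      have h8 : min δ (1 / 10) * (n : ℝ) ≤ 1 / 10 * n :=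
        mul_le_mul_of_nonneg_right (min_le_right _ _) (by positivity)
      rw [pow_one] at h7
      linarith
    have h6 : (5 : ℝ) * (kk u i n : ℕ) ≤ 3 * n := by linarith
    exact_mod_cast h6
  have hlt : ∀ i, (3 : ℤ) ^ kk u i n < 2 ^ n := by
    intro i
    have h2 : ((3 : ℕ) ^ kk u i n) ^ 5 < (2 ^ n) ^ 5 := by
      calc ((3 : ℕ) ^ kk u i n) ^ 5 = 3 ^ (5 * kk u i n) := by rw [← pow_mul, mul_comm]
        _ ≤ 3 ^ (3 * n) := Nat.pow_le_pow_right (by norm_num) (hk i)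
        _ = 27 ^ n := by rw [pow_mul]; norm_num
        _ < 32 ^ n := Nat.pow_lt_pow_left (by norm_num) (by omega)
        _ = (2 ^ n) ^ 5 := by rw [← pow_mul, mul_comm, pow_mul]; norm_num
    have h3 : (3 : ℕ) ^ kk u i n < 2 ^ n := lt_of_pow_lt_pow_left₀ 5 (by positivity) h2
    exact_mod_cast h3
  have hcnn : ∀ i, 0 ≤ c i := by
    intro i
    obtain ⟨r, hr, h⟩ := walk u c Q hc i n
    rw [hcper] at h
    by_contra hneg
    push Not at hneg
    have h2 := hlt i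
    have h3 : (2 ^ n - 3 ^ kk u i n) * c i = Q * r := by linear_combination h
    have h4 : (0 : ℤ) ≤ Q * r := by positivity
    nlinarith
  have hsys : Sys L₀ δ n Q ε b := by
    refine ⟨Nat.pos_of_ne_zero hQ0, hQ6.coprime_dvd_right (by norm_num), ?_, ?_, ?_, ?_⟩
    · intro j j' h
      obtain ⟨i, rfl⟩ := hsurj j
      obtain ⟨i', rfl⟩ := hsurj j'
      rw [hbc, hbc] at h
      have h2 : ∀ m, u (i + m) % 2 = u (i' + m) % 2 := by
        intro m
        rw [hpar, hpar, digits_eq u c Q hpar hc i i' h m]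
      have h3 := u_eq u q hu i i' h2
      rw [hua, hua] at h3
      exact hainj (by omega)
    · intro j
      obtain ⟨i, rfl⟩ := hsurj j
      rw [hbc]
      exact hcnn i
    · intro j
      obtain ⟨i, hi⟩ := hsurj (j - 1)
      have hj : j = ((i + 1 : ℕ) : ZMod n) := by
        push_cast
        rw [hi]; ring
      rw [hj, hsub, hbc, hbc]
      have h2 := hc i
      have h3 := hdig i
      by_cases ho : u i % 2 = 1
      · rw [if_pos ho] at h2
        rw [if_pos (h3.mp ho)]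
        exact h2
      · rw [if_neg ho] at h2
        rw [if_neg (fun h => ho (h3.mpr h))]
        exact h2
    · intro L hL w
      refine (hfr L (le_trans hL (le_max_left _ _)) w).trans ?_
      exact mul_le_mul_of_nonneg_right (min_le_left _ _) (by positivity)
  obtain ⟨h3, b₀, hb₀⟩ := coset u c Q hQ6 hcopc hc
  refine hco n Q ε b (Gam Q) b₀ (by omega) hsys h3 ?_ ((card_Gam Q).trans hcard) hnQ
  intro j
  obtain ⟨i, rfl⟩ := hsurj j
  rw [hbc]
  exact hb₀ i

end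

end Pool.Agent.Lib.MP_f64c7e_nt.FP
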