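import Pool.Agent.Lib.MP_f64c7e_nt.FP.Reduce
import Pool.Agent.Lib.MP_f64c7e_nt.FP.Per20

/-!
Exact constraints on the denominators of rational fixed points: the orders of 2 and 3.
-/

set_option autoImplicit false

namespace Pool.Agent.Lib.MP_f64c7e_nt.FP

namespace Orders

open Per2

theorem intCast_two_pow {q : ℕ} (m : ℕ) (e : ℤ) (h : (2 : ZMod q) ^ m = (e : ZMod q)) :
    (q : ℤ) ∣ 2 ^ m - e := by
  rw [← ZMod.intCast_zmod_eq_zero_iff_dvd]
  push_cast
  rw [h, sub_self]

theorem order_pos {q : ℕ} (hq : Odd q) : 0 < orderOf (2 : ZMod q) := by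
  have h2 : Nat.Coprime 2 q := hq.coprime_two_left
  have h0 : 0 < q := hq.pos
  have : NeZero q := ⟨h0.ne'⟩
  rw [orderOf_pos_iff, isOfFinOrder_iff_pow_eq_one]
  refine ⟨Nat.totient q, Nat.totient_pos.2 h0, ?_⟩
  have h1 := ZMod.pow_totient (ZMod.unitOfCoprime 2 h2)
  have h3 : ((ZMod.unitOfCoprime 2 h2 ^ Nat.totient q : (ZMod q)ˣ) : ZMod q) = 1 := by
    rw [h1]
    rfl
  rw [Units.val_pow_eq_pow_val, ZMod.coe_unitOfCoprime] at h3
  exact_mod_cast h3

/-- In the open interval the walk is periodic with period the order of 2. -/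
theorem per {q : ℕ} {u c : ℕ → ℤ} (h : Rec q u c) (ho : ∀ i, -(q : ℤ) < u i ∧ u i < 0) (i : ℕ) :
    u (i + orderOf (2 : ZMod q)) = u i := by
  have h1 := dvd_step h (orderOf (2 : ZMod q)) i
  have h2 : (q : ℤ) ∣ 2 ^ orderOf (2 : ZMod q) - 1 :=
    intCast_two_pow _ 1 (by rw [pow_orderOf_eq_one]; norm_num)
  have h3 : (q : ℤ) ∣ u (i + orderOf (2 : ZMod q)) - u i := by
    have h4 := dvd_sub h1 (dvd_mul_of_dvd_left h2 (u (i + orderOf (2 : ZMod q))))
    have e : 2 ^ orderOf (2 : ZMod q) * u (i + orderOf (2 : ZMod q)) - u i -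
        (2 ^ orderOf (2 : ZMod q) - 1) * u (i + orderOf (2 : ZMod q)) =
        u (i + orderOf (2 : ZMod q)) - u i := by ring
    rwa [e] at h4
  have h5 := Int.eq_zero_of_abs_lt_dvd h3 (by
    obtain ⟨a1, a2⟩ := ho i
    obtain ⟨b1, b2⟩ := ho (i + orderOf (2 : ZMod q))
    rw [abs_lt]
    exact ⟨by omega, by omega⟩)
  omega

/-- If `2 ^ m = -1` modulo `q`, then `m` steps reflect the walk. -/
theorem flip {q : ℕ} {u c : ℕ → ℤ} (h : Rec q u c) (ho : ∀ i, -(q : ℤ) < u i ∧ u i < 0) {m : ℕ}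
    (hm : (2 : ZMod q) ^ m = -1) (i : ℕ) : u (i + m) = -(q : ℤ) - u i := by
  have h1 := dvd_step h m i
  have h2 : (q : ℤ) ∣ 2 ^ m - (-1) := intCast_two_pow _ (-1) (by rw [hm]; push_cast; rfl)
  have h3 : (q : ℤ) ∣ u (i + m) + u i + q := by
    have h4 := dvd_sub (dvd_mul_of_dvd_left h2 (u (i + m))) h1
    have h5 := dvd_add h4 (dvd_refl (q : ℤ))
    have e : (2 ^ m - (-1)) * u (i + m) - (2 ^ m * u (i + m) - u i) + q =
        u (i + m) + u i + q := by ring
    rwa [e] at h5
  have h5 := Int.eq_zero_of_abs_lt_dvd h3 (by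
    obtain ⟨a1, a2⟩ := ho i
    obtain ⟨b1, b2⟩ := ho (i + m)
    rw [abs_lt]
    exact ⟨by omega, by omega⟩)
  omega

/-- If `-1` is a power of `2` modulo `q > 2`, the order of `2` is even and half of it gives `-1`. -/
theorem half {q : ℕ} (hq : Odd q) (h1 : 1 < q) {j : ℕ} (hj : (2 : ZMod q) ^ j = -1) :
    ∃ m, orderOf (2 : ZMod q) = 2 * m ∧ (2 : ZMod q) ^ m = -1 := by
  have h2 : 2 < q := by
    rcases hq with ⟨k, hk⟩
    omega
  have : Fact (2 < q) := ⟨h2⟩
  have hne : (-1 : ZMod q) ≠ 1 := ZMod.neg_one_ne_one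
  have hn := order_pos hq
  set n := orderOf (2 : ZMod q) with hndef
  refine ⟨j % n, ?_, ?_⟩
  · have h3 : (2 : ZMod q) ^ (j % n) = -1 := by rw [hndef, pow_mod_orderOf, hj]
    have h4 : (2 : ZMod q) ^ (2 * (j % n)) = 1 := by
      rw [mul_comm, pow_mul, h3]; ring
    have h5 : n ∣ 2 * (j % n) := orderOf_dvd_of_pow_eq_one h4
    have h6 : 0 < j % n := by
      rcases Nat.eq_zero_or_pos (j % n) with h | h
      · rw [h, pow_zero] at h3
        exact absurd h3.symm hne
      · exact h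
    have h7 : j % n < n := Nat.mod_lt _ hn
    obtain ⟨t, ht⟩ := h5
    have h8 : t = 1 := by
      have h9 : t < 2 := by
        by_contra hcon
        push Not at hcon
        have : n * 2 ≤ n * t := Nat.mul_le_mul_left n hcon
        omega
      have h10 : t ≠ 0 := by
        rintro rfl
        omega
      omega
    rw [h8] at ht
    omega
  · rw [hndef, pow_mod_orderOf, hj]

theorem kk_eq_cnt (u : ℕ → ℤ) (m : ℕ) : kk u 0 m = cnt u m := by
  induction m with
  | zero => rfl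
  | succ m ih =>
    rw [kk, cnt, ih, zero_add]
    split_ifs <;> rfl

/-- The difference of the two walks over `m` steps. -/
theorem walkD {q : ℕ} {u c : ℕ → ℤ} (h : Rec q u c) (ho : ∀ i, -(q : ℤ) < u i) (i m : ℕ) :
    ∃ r : ℤ, 0 ≤ r ∧ 2 ^ m * (c (i + m) - u (i + m)) = 3 ^ (kk u i m) * (c i - u i) + r := by
  induction m with
  | zero => exact ⟨0, le_refl _, by simp [kk]⟩
  | succ m ih =>
    obtain ⟨r, hr, hw⟩ := ih
    have e : i + (m + 1) = i + m + 1 := by ring
    by_cases hj : u (i + m) % 2 = 1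
    · obtain ⟨-, h3, h4⟩ := h.odd hj
      have h5 := ho (i + m)
      refine ⟨3 * r + 2 ^ m * (2 * (u (i + m) + q)), ?_, ?_⟩
      · have : (0 : ℤ) ≤ 2 ^ m * (2 * (u (i + m) + q)) := by
          apply mul_nonneg (by positivity)
          omega
        omega
      · rw [e, kk, if_pos hj, pow_succ, pow_succ]
        linear_combination (2 : ℤ) ^ m * (h4 - h3) + 3 * hw
    · obtain ⟨-, h3, h4⟩ := h.even hj
      refine ⟨r, hr, ?_⟩
      rw [e, kk, if_neg hj, pow_succ, add_zero]
      linear_combination (2 : ℤ) ^ m * (h4 - h3) + hw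

/-- A parity that occurs occurs in the first period. -/
theorem first_period {u : ℕ → ℤ} {n : ℕ} (hn : 0 < n) (hper : ∀ i, u (i + n) = u i) (p : ℤ → Prop)
    (h : ∃ i, p (u i)) : ∃ i < n, p (u i) := by
  obtain ⟨i, hi⟩ := h
  refine ⟨i % n, Nat.mod_lt _ hn, ?_⟩
  have : u (i % n) = u i := Function.Periodic.map_mod_nat hper i
  rwa [this]

theorem kk_pos {u : ℕ → ℤ} {n : ℕ} (h : ∃ i < n, u i % 2 = 1) : 0 < kk u 0 n := by
  obtain ⟨i, hi, ho⟩ := h
  rw [kk_eq_card]
  refine Finset.card_pos.2 ⟨i, ?_⟩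
  rw [Finset.mem_filter, Finset.mem_range, zero_add]
  exact ⟨hi, ho⟩

theorem kk_lt {u : ℕ → ℤ} {n : ℕ} (h : ∃ i < n, ¬ u i % 2 = 1) : kk u 0 n < n := by
  obtain ⟨i, hi, ho⟩ := h
  rw [kk_eq_card]
  have h1 : ((Finset.range n).filter fun t => u (0 + t) % 2 = 1) ⊂ Finset.range n := by
    rw [Finset.filter_ssubset]
    refine ⟨i, Finset.mem_range.2 hi, ?_⟩
    rw [zero_add]
    exact ho
  simpa using Finset.card_lt_card h1

/-- In the open interval not all steps are odd. -/
theorem exists_even {q : ℕ} {u c : ℕ → ℤ} (h : Rec q u c) (ho : ∀ i, -(q : ℤ) < u i ∧ u i < 0) :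
    ∃ i, ¬ u i % 2 = 1 := by
  by_contra hcon
  push Not at hcon
  have key : ∀ j : ℕ, 2 ^ j * (u j + q) = u 0 + q := by
    intro j
    induction j with
    | zero => simp
    | succ j ih =>
      obtain ⟨-, h3, -⟩ := h.odd (hcon j)
      rw [pow_succ, ← ih]
      linear_combination (2 : ℤ) ^ j * h3
  have h1 : u 0 + q = 0 := eq_zero_of_two_pow fun j => ⟨u j + q, (key j).symm⟩
  have h2 := (ho 0).1
  omega

end Orders

open Per2 Orders in
/-- **Exact constraints.**  Let `q > 1` be the denominator of a rational odd fixed point, `Q` its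
prime-to-3 part. -/
theorem order_constraint (q : ℕ) (hq : Odd q) (h1 : 1 < q) (u c : ℕ → ℤ) (h : Walk q u c)
    (hodd : Odd (u 0)) (hcop : IsCoprime (u 0) (q : ℤ)) :
    orderOf (3 : ZMod (ordCompl[3] q)) < orderOf (2 : ZMod q) ∧
    (0 < u 0 → 3 ^ orderOf (3 : ZMod (ordCompl[3] q)) < 2 ^ orderOf (2 : ZMod q)) ∧
    ((∃ j : ℕ, (2 : ZMod q) ^ j = -1) → 0 < u 0 ∧
      2 * orderOf (3 : ZMod (ordCompl[3] q)) ∣ orderOf (2 : ZMod q)) := by
  have hodd' : u 0 % 2 = 1 := Int.odd_iff.1 hodd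
  have hn : 0 < orderOf (2 : ZMod q) := order_pos hq
  obtain ⟨b, d, hcd, hU, hcopU, hcopd, hrec⟩ := reduce hq h1 h hcop
  set n := orderOf (2 : ZMod q) with hndef
  set Q : ℕ := ordCompl[3] q with hQ
  set g := orderOf (3 : ZMod Q) with hg
  set U : ℕ → ℤ := fun i => u (b + i) with hUdef
  have hRU : Rec q U (fun i => c (b + i)) := fun i => h.rec (b + i)
  have hper : ∀ i, U (i + n) = U i := fun i => per hRU hU i
  have hdrec : ∀ i, 2 * d (i + 1) = (if U i % 2 = 1 then 3 * d i + (Q : ℕ) else d i) :=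
    fun i => (hrec i).2.2
  have hdper : ∀ i, d (i + n) = d i := fun i => c_periodic U d Q n hper hdrec i
  set k := kk U 0 n with hk
  -- `g` divides `k`
  have hQq : Q ∣ q := Nat.ordCompl_dvd q 3
  have hgk : g ∣ k := by
    obtain ⟨r, -, hr⟩ := walk U d Q hdrec 0 n
    rw [hdper 0, ← hk] at hr
    have h2 : (Q : ℤ) ∣ (2 ^ n - 3 ^ k) * d 0 := ⟨r, by linear_combination hr⟩
    have h3 : (Q : ℤ) ∣ 2 ^ n - 3 ^ k := (hcopd 0).symm.dvd_of_dvd_mul_right h2
    have h4 : (q : ℤ) ∣ 2 ^ n - 1 :=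
      intCast_two_pow _ 1 (by rw [hndef, pow_orderOf_eq_one]; norm_num)
    have h5 : (Q : ℤ) ∣ 2 ^ n - 1 := (Int.natCast_dvd_natCast.2 hQq).trans h4
    have h6 : (Q : ℤ) ∣ 3 ^ k - 1 := by
      have := dvd_sub h5 h3
      have e : (2 : ℤ) ^ n - 1 - (2 ^ n - 3 ^ k) = 3 ^ k - 1 := by ring
      rwa [e] at this
    have h7 : (((3 ^ k - 1 : ℤ)) : ZMod Q) = 0 := (ZMod.intCast_zmod_eq_zero_iff_dvd _ _).2 h6
    apply orderOf_dvd_of_pow_eq_one
    push_cast at h7
    exact sub_eq_zero.1 h7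
  -- `1 ≤ k ≤ n - 1`
  have hk1 : 0 < k := by
    apply kk_pos
    apply first_period hn hper (fun z => z % 2 = 1)
    obtain ⟨i, hi, hi'⟩ := exists_odd_step h.rec b (by have := (hU 0).2; simpa using this.ne)
    obtain ⟨j, rfl⟩ := Nat.exists_eq_add_of_le hi
    exact ⟨j, hi'⟩
  have hk2 : k < n := by
    apply kk_lt
    exact first_period hn hper (fun z => ¬ z % 2 = 1) (exists_even hRU hU)
  have hgle : g ≤ k := Nat.le_of_dvd hk1 hgk
  refine ⟨by omega, ?_, ?_⟩
  · intro hpos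
    have hs := sign_pos h hodd' (by omega)
    set E : ℕ → ℤ := fun i => c (b + i) - u (b + i) with hE
    have hcper : ∀ i, c (b + (i + n)) = c (b + i) := by
      intro i
      have := hdper i
      rw [hcd, hcd, this]
    have hE0 : 0 < c (b + 0) - u (b + 0) := by
      have h2 := (hs (b + (0 + n))).2.2 (by omega)
      have h3 := hper 0
      simp only [hUdef] at h3
      rw [hcper, h3] at h2
      exact h2
    obtain ⟨r, hr, hr'⟩ := walkD hRU (fun i => (hU i).1) 0 n
    have h3 := hper 0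
    simp only [hUdef] at h3 hr'
    rw [hcper, h3] at hr'
    have hkk : kk (fun i => u (b + i)) 0 n = k := rfl
    rw [hkk] at hr'
    have h4 : (3 : ℤ) ^ k ≤ 2 ^ n := by
      by_contra hcon
      push Not at hcon
      nlinarith
    have h5 : (3 : ℤ) ^ k ≠ 2 ^ n := by
      intro h6
      have h7 : Odd ((3 : ℤ) ^ k) := Odd.pow (by decide)
      rw [h6] at h7
      have h8 : Even ((2 : ℤ) ^ n) := (Int.even_pow.2 ⟨even_two, hn.ne'⟩)
      exact (Int.not_odd_iff_even.2 h8) h7
    have h6 : (3 : ℤ) ^ k < 2 ^ n := lt_of_le_of_ne h4 h5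
    have h7 : (3 : ℕ) ^ k < 2 ^ n := by exact_mod_cast h6
    exact lt_of_le_of_lt (Nat.pow_le_pow_right (by norm_num) hgle) h7
  · rintro ⟨j, hj⟩
    obtain ⟨m, hm, hm'⟩ := half hq h1 hj
    have hqodd : (q : ℤ) % 2 = 1 := by
      rcases hq with ⟨t, ht⟩
      omega
    have hnm : n = 2 * m := hm
    have hcount : ∀ {u' c' : ℕ → ℤ}, Rec q u' c' → (∀ i, -(q : ℤ) < u' i ∧ u' i < 0) →
        kk u' 0 n = m := by
      intro u' c' hr' ho'
      have h2 := cnt_flip hqodd (flip hr' ho' hm') m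
      rw [kk_eq_cnt, hnm, two_mul]
      omega
    have hkm : k = m := hcount hRU hU
    refine ⟨?_, ?_⟩
    · by_contra hneg
      push Not at hneg
      have hu1 : ¬ (-(q : ℤ) < u 0) := fun hh => no_unit_interval q hq u c h hh hneg hodd
      have hu2 : u 0 ≠ -(q : ℤ) := by
        intro h2
        rw [h2] at hcop
        have h3 : IsCoprime (q : ℤ) (q : ℤ) := (IsCoprime.neg_left_iff _ _).1 hcop
        have h4 := isCoprime_self.1 h3
        rw [Int.isUnit_iff] at h4
        omega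
      have hu3 : u 0 < -(q : ℤ) := by omega
      -- the first time in the interval
      obtain ⟨a', ha'⟩ := eventually_unit q hq u c h
      have hex : ∃ a, -(q : ℤ) ≤ u a := ⟨a', (ha' a' le_rfl).1⟩
      obtain ⟨a, ha1, ha2⟩ : ∃ a, -(q : ℤ) ≤ u a ∧ ∀ i < a, u i < -(q : ℤ) := by
        classical
        refine ⟨Nat.find hex, Nat.find_spec hex, fun i hi => ?_⟩
        have := Nat.find_min hex hi
        omega
      have ha0 : 1 ≤ a := by
        rcases Nat.eq_zero_or_pos a with h2 | h2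
        · rw [h2] at ha1; omega
        · exact h2
      have ha3 : u a ≤ 0 := by
        obtain ⟨a'', rfl⟩ : ∃ a'', a = a'' + 1 := ⟨a - 1, by omega⟩
        have h2 := ha2 a'' (by omega)
        by_cases hj' : u a'' % 2 = 1
        · obtain ⟨-, h3, -⟩ := h.rec.odd hj'
          omega
        · obtain ⟨-, h3, -⟩ := h.rec.even hj'
          omega
      have hD := (sign_neg h hodd' ha2 a le_rfl).2 ha0
      -- strict inequalities in the tail
      have hcu := coprime_u h.rec hcop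
      have hq1Z : (1 : ℤ) < q := by exact_mod_cast h1
      have hV : ∀ i, -(q : ℤ) < u (a + i) ∧ u (a + i) < 0 := by
        intro i
        obtain ⟨b1, b2⟩ := unit_inv_add h.rec ha1 ha3 i
        refine ⟨lt_of_le_of_ne b1 fun h3 => ?_, lt_of_le_of_ne b2 fun h3 => ?_⟩
        · have h4 := hcu (a + i)
          rw [← h3] at h4
          have h5 : IsCoprime (q : ℤ) (q : ℤ) := (IsCoprime.neg_left_iff _ _).1 h4
          have h6 := isCoprime_self.1 h5
          rw [Int.isUnit_iff] at h6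
          omega
        · have h4 := hcu (a + i)
          rw [h3] at h4
          have h6 := isCoprime_zero_left.1 h4
          rw [Int.isUnit_iff] at h6
          omega
      have hRV : Rec q (fun i => u (a + i)) (fun i => c (a + i)) := fun i => h.rec (a + i)
      have hperV : ∀ i, (fun i => u (a + i)) (i + n) = (fun i => u (a + i)) i :=
        fun i => per hRV hV i
      have hperC : ∀ i, (fun i => c (a + i)) (i + n) = (fun i => c (a + i)) i :=
        fun i => c_periodic (fun i => u (a + i)) (fun i => c (a + i)) q n hperV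
          (fun i => (hRV i).2.2) i
      obtain ⟨r, hr, hr'⟩ := walkD hRV (fun i => (hV i).1) 0 n
      have e1 := hperV 0
      have e2 := hperC 0
      rw [hcount hRV hV] at hr'
      simp only at e1 e2 hr'
      rw [e1, e2] at hr'
      have h5 : (3 : ℤ) ^ m < 2 ^ n := by
        rw [hnm, pow_mul]
        exact pow_lt_pow_left₀ (by norm_num) (by norm_num) (by omega)
      simp only [add_zero] at hr'
      nlinarith
    · rw [hnm, ← hkm]
      exact Nat.mul_dvd_mul_left 2 hgk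

end Pool.Agent.Lib.MP_f64c7e_nt.FP
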