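import Pool.Agent.Lib.MP_f64c7e_nt.FP.Per20
import Pool.Agent.Lib.MP_f64c7e_nt.FP.Core2
import Pool.Agent.Lib.MP_f64c7e_nt.FP.Freq2
import Pool.Agent.Lib.MP_f64c7e_nt.FP.Freq

/-!
The bound for purely periodic walks.
-/

set_option autoImplicit false

namespace Pool.Agent.Lib.MP_f64c7e_nt.FP

theorem periodic2 (C : ℕ) : ∃ ρ : ℕ, ∀ q : ℕ, Odd q → 1 < q →
    ρ * q ≤ (orderOf (2 : ZMod q)) ^ 2 → ∀ (u c : ℕ → ℤ) (Q : ℕ), Nat.Coprime Q 6 →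
    ρ * Q ≤ (orderOf (2 : ZMod q)) ^ 2 →
    Nat.card (Submonoid.closure ({2, 3} : Set (ZMod Q))) ≤ C * orderOf (2 : ZMod q) →
    -(q : ℤ) < u 0 → u 0 < 0 → IsCoprime (u 0) (q : ℤ) → IsCoprime (c 0) (Q : ℤ) →
    (∀ i, u i % 2 = c i % 2 ∧ 2 * u (i + 1) = (if u i % 2 = 1 then u i - q else u i) ∧
      2 * c (i + 1) = (if u i % 2 = 1 then 3 * c i + Q else c i)) → False :=
  periodic2_of C (core2 C) freq2 orbit

end Pool.Agent.Lib.MP_f64c7e_nt.FP
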