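import Pool.Agent.Lib.MP_f64c7e_nt.Padic
import Pool.Agent.Lib.MP_f64c7e_nt.FP.Defs

/-!
The conjugacy map on the 2-adic integers: the recursions for even and odd arguments, and the two integer
walks attached to a rational fixed point.
-/

set_option autoImplicit false

open Finset
open scoped Classical

namespace Pool.Agent.Lib.MP_f64c7e_nt.FP

open Pool.Agent.Lib.MP_f64c7e_nt

noncomputable section

/-- The conjugacy map on the 2-adic integers. -/
def PHI (x : ℤ_[2]) : ℤ_[2] := -∑' k, term x k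

theorem eq_zero_of_forall_dvd {z : ℤ_[2]} (hz : ∀ c : ℕ, (2 : ℤ_[2]) ^ c ∣ z) : z = 0 := by
  by_contra hne
  obtain ⟨c, d, hd, hcd⟩ := WfDvdMonoid.max_power_factor hne prime_two.irreducible
  have h5 := hz (c + 1)
  rw [hcd, pow_succ] at h5
  exact hd ((mul_dvd_mul_iff_left (pow_ne_zero c prime_two.ne_zero)).1 h5)

theorem A_unique {n a : ℕ} {x : ℤ_[2]} (ha : a < 2 ^ n) (h : (2 : ℤ_[2]) ^ n ∣ x - (a : ℤ_[2])) :
    A n x = a := by
  have h1 := dvd_sub_A n x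
  have h2 : (2 : ℤ_[2]) ^ n ∣ (A n x : ℤ_[2]) - (a : ℤ_[2]) := by
    have := dvd_sub h h1
    have e : x - (a : ℤ_[2]) - (x - (A n x : ℤ_[2])) = (A n x : ℤ_[2]) - (a : ℤ_[2]) := by ring
    rwa [e] at this
  rw [natCast_dvd_iff, Nat.mod_eq_of_lt (A_lt n x), Nat.mod_eq_of_lt ha] at h2
  exact h2

theorem A_two_mul (n : ℕ) (y : ℤ_[2]) : A (n + 1) (2 * y) = 2 * A n y := by
  apply A_unique
  · have := A_lt n y
    rw [pow_succ]; omega
  · have h := mul_dvd_mul_left (2 : ℤ_[2]) (dvd_sub_A n y)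
    push_cast
    rw [pow_succ', ← mul_sub]
    exact h

theorem A_two_mul_add_one (n : ℕ) (y : ℤ_[2]) : A (n + 1) (2 * y + 1) = 2 * A n y + 1 := by
  apply A_unique
  · have := A_lt n y
    rw [pow_succ]; omega
  · have h := mul_dvd_mul_left (2 : ℤ_[2]) (dvd_sub_A n y)
    push_cast
    have e : 2 * y + 1 - (2 * (A n y : ℤ_[2]) + 1) = 2 * (y - (A n y : ℤ_[2])) := by ring
    rw [pow_succ', e]
    exact h

theorem PHI_congr (n : ℕ) (x : ℤ_[2]) : (2 : ℤ_[2]) ^ n ∣ PHI x - Phi (A n x) := dvd_Phi x n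

theorem PHI_two_mul (y : ℤ_[2]) : PHI (2 * y) = 2 * PHI y := by
  rw [← sub_eq_zero]
  apply eq_zero_of_forall_dvd
  intro c
  have h1 := dvd_trans (pow_dvd_pow (2 : ℤ_[2]) (Nat.le_succ c)) (PHI_congr (c + 1) (2 * y))
  rw [A_two_mul, Phi_even] at h1
  have h2 := dvd_mul_of_dvd_right (PHI_congr c y) 2
  have h3 := dvd_sub h1 h2
  have e : PHI (2 * y) - 2 * Phi (A c y) - 2 * (PHI y - Phi (A c y)) = PHI (2 * y) - 2 * PHI y := by
    ring
  rwa [e] at h3

theorem three_mul_PHI (y : ℤ_[2]) : 3 * PHI (2 * y + 1) = 2 * PHI y - 1 := by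
  rw [← sub_eq_zero]
  apply eq_zero_of_forall_dvd
  intro c
  have h1 := dvd_trans (pow_dvd_pow (2 : ℤ_[2]) (Nat.le_succ c)) (PHI_congr (c + 1) (2 * y + 1))
  rw [A_two_mul_add_one, Phi_odd] at h1
  have h1' := dvd_mul_of_dvd_right h1 3
  have h2 := dvd_mul_of_dvd_right (PHI_congr c y) 2
  have h3 := dvd_sub h1' h2
  have e : 3 * (PHI (2 * y + 1) - th * (2 * Phi (A c y) - 1)) - 2 * (PHI y - Phi (A c y)) =
      3 * PHI (2 * y + 1) - (2 * PHI y - 1) - (3 * th - 1) * (2 * Phi (A c y) - 1) := by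
    ring
  rw [e, three_mul_th, sub_self, zero_mul, sub_zero] at h3
  exact h3

theorem odd_iff_not_dvd (a : ℤ) : (2 : ℤ_[2]) ∣ (a : ℤ_[2]) ↔ a % 2 = 0 := by
  have := two_pow_dvd_int 1 a
  rw [pow_one, pow_one] at this
  rw [this]
  omega

theorem not_two_dvd_one : ¬ (2 : ℤ_[2]) ∣ 1 := fun h => prime_two.not_isUnit (isUnit_of_dvd_one h)

/-- The parity of `PHI x` is the parity of `x`. -/
theorem two_dvd_PHI (x : ℤ_[2]) : (2 : ℤ_[2]) ∣ PHI x ↔ (2 : ℤ_[2]) ∣ x := by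
  constructor
  · intro h
    by_contra hx
    obtain ⟨y, hy⟩ : ∃ y, x = 2 * y + 1 := by
      have h1 := dvd_sub_A 1 x
      have h2 : A 1 x < 2 := by simpa using A_lt 1 x
      rw [pow_one] at h1
      rcases Nat.eq_zero_or_pos (A 1 x) with h3 | h3
      · rw [h3] at h1
        simp at h1
        exact absurd h1 hx
      · have h4 : A 1 x = 1 := by omega
        rw [h4] at h1
        obtain ⟨y, hy⟩ := h1
        refine ⟨y, ?_⟩
        rw [← hy]; push_cast; ring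
    have h1 := three_mul_PHI y
    rw [← hy] at h1
    have h2 : (2 : ℤ_[2]) ∣ 3 * PHI x := dvd_mul_of_dvd_right h 3
    rw [h1] at h2
    have h3 := dvd_sub (dvd_mul_right 2 (PHI y)) h2
    have e : 2 * PHI y - (2 * PHI y - 1) = 1 := by ring
    rw [e] at h3
    exact not_two_dvd_one h3
  · rintro ⟨y, rfl⟩
    rw [PHI_two_mul]
    exact dvd_mul_right _ _

/-- The shift walk on numerators. -/
def aw (q u : ℤ) : ℕ → ℤ
  | 0 => u
  | i + 1 => if aw q u i % 2 = 1 then (aw q u i - q) / 2 else aw q u i / 2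

/-- The 3x+1 walk on numerators. -/
def bw (Q c : ℤ) : ℕ → ℤ
  | 0 => c
  | i + 1 => if bw Q c i % 2 = 1 then (3 * bw Q c i + Q) / 2 else bw Q c i / 2

theorem dvd_of_mul_eq {q : ℤ} (hq : q % 2 = 1) {w : ℤ_[2]} {a : ℤ} (hw : (q : ℤ_[2]) * w = a) :
    (2 : ℤ_[2]) ∣ w ↔ a % 2 = 0 := by
  have hqn : ¬ (2 : ℤ_[2]) ∣ (q : ℤ_[2]) := by rw [odd_iff_not_dvd]; omega
  rw [← odd_iff_not_dvd, ← hw]
  exact ⟨fun h => dvd_mul_of_dvd_right h _, fun h => (prime_two.dvd_or_dvd h).resolve_left hqn⟩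

theorem walks {q Q u c : ℤ} (hq : q % 2 = 1) (hQ : Q % 2 = 1) {x : ℤ_[2]}
    (hx : (q : ℤ_[2]) * x = u) (hc : (Q : ℤ_[2]) * PHI x = c)
    (i : ℕ) : ∃ y : ℤ_[2], (q : ℤ_[2]) * y = aw q u i ∧ (Q : ℤ_[2]) * PHI y = bw Q c i := by
  have hqn : ¬ (2 : ℤ_[2]) ∣ (q : ℤ_[2]) := by rw [odd_iff_not_dvd]; omega
  have h20 : (2 : ℤ_[2]) ≠ 0 := prime_two.ne_zero
  induction i with
  | zero => exact ⟨x, hx, hc⟩
  | succ i ih =>
    obtain ⟨y, hy, hz⟩ := ih
    have hpy := dvd_of_mul_eq hq hy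
    have hpz := dvd_of_mul_eq hQ hz
    have hpp := two_dvd_PHI y
    by_cases he : aw q u i % 2 = 0
    · have he2 : bw Q c i % 2 = 0 := hpz.1 (hpp.2 (hpy.2 he))
      have he' : ¬ aw q u i % 2 = 1 := by omega
      have he2' : ¬ bw Q c i % 2 = 1 := by omega
      obtain ⟨y', rfl⟩ := hpy.2 he
      rw [PHI_two_mul] at hz
      refine ⟨y', ?_, ?_⟩
      · simp only [aw, if_neg he']
        obtain ⟨d, hd⟩ : ∃ d, aw q u i = 2 * d := ⟨aw q u i / 2, by omega⟩
        have e : aw q u i / 2 = d := by omega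
        rw [e]
        rw [hd] at hy
        push_cast at hy
        apply mul_left_cancel₀ h20
        linear_combination hy
      · simp only [bw, if_neg he2']
        obtain ⟨d, hd⟩ : ∃ d, bw Q c i = 2 * d := ⟨bw Q c i / 2, by omega⟩
        have e : bw Q c i / 2 = d := by omega
        rw [e]
        rw [hd] at hz
        push_cast at hz
        apply mul_left_cancel₀ h20
        linear_combination hz
    · have hao : aw q u i % 2 = 1 := by omega
      have hbo : bw Q c i % 2 = 1 := by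
        have : ¬ bw Q c i % 2 = 0 := fun h => he (hpy.1 (hpp.1 (hpz.2 h)))
        omega
      obtain ⟨d, hd⟩ : ∃ d, aw q u i - q = 2 * d := ⟨(aw q u i - q) / 2, by omega⟩
      obtain ⟨f, hf⟩ : ∃ f, 3 * bw Q c i + Q = 2 * f := ⟨(3 * bw Q c i + Q) / 2, by omega⟩
      have e : (aw q u i - q) / 2 = d := by omega
      have e' : (3 * bw Q c i + Q) / 2 = f := by omega
      simp only [aw, bw, if_pos hao, if_pos hbo, e, e']
      obtain ⟨y', hy'⟩ : ∃ y', y = 2 * y' + 1 := by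
        have h1 : (2 : ℤ_[2]) ∣ (q : ℤ_[2]) * (y - 1) := by
          have h2 : (q : ℤ_[2]) * (y - 1) = ((aw q u i - q : ℤ) : ℤ_[2]) := by
            push_cast; rw [mul_sub, hy]; ring
          rw [h2, hd]; push_cast; exact dvd_mul_right _ _
        obtain ⟨y', hy'⟩ := (prime_two.dvd_or_dvd h1).resolve_left hqn
        exact ⟨y', by rw [← hy']; ring⟩
      have h3 := three_mul_PHI y'
      rw [← hy'] at h3
      refine ⟨y', ?_, ?_⟩
      · apply mul_left_cancel₀ h20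
        have h4 : ((aw q u i - q : ℤ) : ℤ_[2]) = ((2 * d : ℤ) : ℤ_[2]) := by rw [hd]
        push_cast at h4
        rw [hy'] at hy
        linear_combination hy + h4
      · apply mul_left_cancel₀ h20
        have h4 : ((3 * bw Q c i + Q : ℤ) : ℤ_[2]) = ((2 * f : ℤ) : ℤ_[2]) := by rw [hf]
        push_cast at h4
        linear_combination -(Q : ℤ_[2]) * h3 + 3 * hz + h4

/-- **The walks of a rational point with rational image.** -/
theorem phi_walk_general (x : ℤ_[2]) (q Q : ℕ) (hq : Odd q) (hQ : Odd Q) (u₀ c₀ : ℤ)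
    (h : (q : ℤ_[2]) * x = u₀) (h' : (Q : ℤ_[2]) * (-∑' k : ℕ, term x k) = c₀) :
    ∃ u c : ℕ → ℤ, u 0 = u₀ ∧ c 0 = c₀ ∧ ∀ i, u i % 2 = c i % 2 ∧
      2 * u (i + 1) = (if u i % 2 = 1 then u i - q else u i) ∧
      2 * c (i + 1) = (if u i % 2 = 1 then 3 * c i + Q else c i) := by
  have hq' : (q : ℤ) % 2 = 1 := by rcases hq with ⟨k, hk⟩; omega
  have hQ' : (Q : ℤ) % 2 = 1 := by rcases hQ with ⟨k, hk⟩; omega
  have hx : ((q : ℤ) : ℤ_[2]) * x = u₀ := by push_cast; exact h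
  have hc : ((Q : ℤ) : ℤ_[2]) * PHI x = c₀ := by push_cast; exact h'
  refine ⟨aw q u₀, bw Q c₀, rfl, rfl, fun i => ?_⟩
  obtain ⟨y, hy, hz⟩ := walks hq' hQ' hx hc i
  have hpar : aw q u₀ i % 2 = bw Q c₀ i % 2 := by
    have h1 := dvd_of_mul_eq hq' hy
    have h2 := dvd_of_mul_eq hQ' hz
    have h3 := two_dvd_PHI y
    have h4 : aw q u₀ i % 2 = 0 ↔ bw Q c₀ i % 2 = 0 := by rw [← h1, ← h2]; exact h3.symm
    omega
  refine ⟨hpar, ?_, ?_⟩
  · by_cases ho : aw (q : ℤ) u₀ i % 2 = 1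
    · simp only [aw, if_pos ho]; omega
    · simp only [aw, if_neg ho]; omega
  · rw [hpar]
    by_cases ho : bw (Q : ℤ) c₀ i % 2 = 1
    · simp only [bw, if_pos ho]; omega
    · simp only [bw, if_neg ho]; omega

/-- **The walks of a rational fixed point.** -/
theorem phi_walk (x : ℤ_[2]) (hx : -∑' k : ℕ, term x k = x) (q : ℕ) (hq : Odd q) (u₀ : ℤ)
    (h : (q : ℤ_[2]) * x = u₀) :
    ∃ u c : ℕ → ℤ, u 0 = u₀ ∧ c 0 = u₀ ∧ ∀ i, u i % 2 = c i % 2 ∧
      2 * u (i + 1) = (if u i % 2 = 1 then u i - q else u i) ∧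
      2 * c (i + 1) = (if u i % 2 = 1 then 3 * c i + q else c i) :=
  phi_walk_general x q q hq hq u₀ u₀ h (by rw [hx]; exact h)

end

end Pool.Agent.Lib.MP_f64c7e_nt.FP
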