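import Pool.Agent.Lib.MP_f64c7e_nt.FP.Reduce
import Pool.Agent.Lib.MP_f64c7e_nt.FP.Phiw
import Pool.Agent.Lib.MP_f64c7e_nt.FP.Per2

/-!
Rational fixed points of the 3x+1 conjugacy map: from walks to denominators.
-/

set_option autoImplicit false

namespace Pool.Agent.Lib.MP_f64c7e_nt.FP

/-- The order of the subgroup generated by `2` and `3` modulo the prime-to-`3` part of `q`. -/
noncomputable def size23 (q : ℕ) : ℕ :=
  Nat.card (Submonoid.closure ({2, 3} : Set (ZMod (ordCompl[3] q))))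

/-- **The main theorem for walks.** -/
theorem walk_bound (C : ℕ) : ∃ ρ : ℕ, ∀ q : ℕ, Odd q → ∀ u c : ℕ → ℤ, Walk q u c →
    IsCoprime (u 0) (q : ℤ) → size23 q ≤ C * orderOf (2 : ZMod q) →
    (orderOf (2 : ZMod q)) ^ 2 < ρ * q := by
  obtain ⟨ρ, hρ⟩ := periodic2 C
  refine ⟨max ρ 2, fun q hq u c hw hcop hsize => ?_⟩
  by_contra hcon
  push Not at hcon
  have hq0 : 0 < q := hq.pos
  rcases Nat.lt_or_ge 1 q with hq1 | hq1
  swap
  · have hq1' : q = 1 := by omega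
    subst hq1'
    have h1 : orderOf (2 : ZMod 1) = 1 := by
      rw [orderOf_eq_one_iff]; exact Subsingleton.elim _ _
    rw [h1] at hcon
    have := le_max_right ρ 2
    omega
  obtain ⟨b, d, -, h1, h2, h3, h4⟩ := reduce hq hq1 hw hcop
  have hQ6 : Nat.Coprime (ordCompl[3] q) 6 := by
    have hQodd : Odd (ordCompl[3] q) := Odd.of_dvd_nat hq (Nat.ordCompl_dvd q 3)
    have h5 : Nat.Coprime (ordCompl[3] q) 2 := hQodd.coprime_two_right
    exact Nat.Coprime.mul_right h5 (Nat.coprime_ordCompl Nat.prime_three hq0.ne').symm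
  have hρ1 : ρ * q ≤ (orderOf (2 : ZMod q)) ^ 2 :=
    (Nat.mul_le_mul_right q (le_max_left ρ 2)).trans hcon
  exact hρ q hq hq1 hρ1 (fun i => u (b + i)) d _ hQ6
    ((Nat.mul_le_mul_left ρ (Nat.ordCompl_le q 3)).trans hρ1) hsize (h1 0).1 (h1 0).2 (h2 0) (h3 0)
    h4

theorem size23_le (q : ℕ) (hq : 0 < q) : size23 q ≤ q := by
  unfold size23
  have h1 : 0 < ordCompl[3] q := Nat.ordCompl_pos 3 hq.ne'
  have : NeZero (ordCompl[3] q) := ⟨h1.ne'⟩
  calc Nat.card (Submonoid.closure ({2, 3} : Set (ZMod (ordCompl[3] q))))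
      ≤ Nat.card (ZMod (ordCompl[3] q)) :=
        Nat.card_le_card_of_injective _ Subtype.val_injective
    _ = ordCompl[3] q := Nat.card_zmod _
    _ ≤ q := Nat.ordCompl_le q 3

/-- Fixed points with `q ≤ C · ord_q(2)` have bounded denominators. -/
theorem den_bound (C : ℕ) : ∃ B : ℕ, ∀ q : ℕ, Odd q → ∀ u c : ℕ → ℤ, Walk q u c →
    IsCoprime (u 0) (q : ℤ) → q ≤ C * orderOf (2 : ZMod q) → q ≤ B := by
  obtain ⟨ρ, hρ⟩ := walk_bound C
  refine ⟨C ^ 2 * ρ, fun q hq u c hw hcop hC => ?_⟩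
  have h1 := hρ q hq u c hw hcop ((size23_le q hq.pos).trans hC)
  have h2 : q ^ 2 ≤ C ^ 2 * (orderOf (2 : ZMod q)) ^ 2 := by
    rw [← mul_pow]; exact Nat.pow_le_pow_left hC 2
  have h3 : q * q ≤ (C ^ 2 * ρ) * q := by
    calc q * q = q ^ 2 := by ring
      _ ≤ C ^ 2 * (orderOf (2 : ZMod q)) ^ 2 := h2
      _ ≤ C ^ 2 * (ρ * q) := Nat.mul_le_mul_left _ h1.le
      _ = (C ^ 2 * ρ) * q := by ring
  exact Nat.le_of_mul_le_mul_right h3 hq.pos

end Pool.Agent.Lib.MP_f64c7e_nt.FP
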