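import Pool.Agent.Lib.MP_f64c7e_nt.FP.Finq

/-!
Reduction of the walks of a rational fixed point to their purely periodic tails.
-/

set_option autoImplicit false

namespace Pool.Agent.Lib.MP_f64c7e_nt.FP

/-- An odd step happens after every time. -/
theorem exists_odd_step {q : ℕ} {u c : ℕ → ℤ} (h : Rec q u c) (a : ℕ) (ha : u a ≠ 0) :
    ∃ i ≥ a, u i % 2 = 1 := by
  by_contra hcon
  push Not at hcon
  have key : ∀ j : ℕ, 2 ^ j * u (a + j) = u a := by
    intro j
    induction j with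
    | zero => simp
    | succ j ih =>
      have h1 := (h.even (hcon (a + j) (by omega))).2.1
      have h2 : a + (j + 1) = a + j + 1 := by ring
      rw [h2, pow_succ, mul_assoc, h1, ih]
  exact ha (eq_zero_of_two_pow fun j => ⟨u (a + j), (key j).symm⟩)

theorem three_pow_dvd_eventually {q : ℕ} {u c : ℕ → ℤ} (h : Rec q u c) (a : ℕ) (ha : ∀ i ≥ a, u i ≠ 0)
    (v : ℕ) (hv : 3 ^ v ∣ q) : ∀ j ≤ v, ∃ b ≥ a, ∀ i ≥ b, (3 : ℤ) ^ j ∣ c i := by
  have hv' : ∀ j ≤ v, (3 : ℤ) ^ j ∣ (q : ℤ) := fun j hj => by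
    have := (pow_dvd_pow 3 hj).trans hv
    exact_mod_cast this
  have hcop : ∀ j : ℕ, IsCoprime ((3 : ℤ) ^ j) 2 := fun j => IsCoprime.pow_left (by norm_num)
  intro j
  induction j with
  | zero => intro _; exact ⟨a, le_rfl, fun i _ => by simp⟩
  | succ j ih =>
    intro hj
    obtain ⟨b, hb, hb'⟩ := ih (by omega)
    obtain ⟨i₁, hi₁, hodd⟩ := exists_odd_step h b (ha b hb)
    refine ⟨i₁ + 1, by omega, fun i hi => ?_⟩
    induction i, hi using Nat.le_induction with
    | base =>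
      have h1 := (h.odd hodd).2.2
      have h2 : (3 : ℤ) ^ (j + 1) ∣ 2 * c (i₁ + 1) := by
        rw [h1]
        refine dvd_add ?_ (hv' _ hj)
        rw [pow_succ, mul_comm]
        exact mul_dvd_mul_left 3 (hb' i₁ hi₁)
      exact (hcop (j + 1)).dvd_of_dvd_mul_left h2
    | succ i hi ih2 =>
      have h2 : (3 : ℤ) ^ (j + 1) ∣ 2 * c (i + 1) := by
        by_cases ho : u i % 2 = 1
        · rw [(h.odd ho).2.2]
          exact dvd_add (dvd_mul_of_dvd_right ih2 3) (hv' _ hj)
        · rw [(h.even ho).2.2]; exact ih2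
      exact (hcop (j + 1)).dvd_of_dvd_mul_left h2

/-- The numerators of the first walk stay prime to `q`. -/
theorem coprime_u {q : ℕ} {u c : ℕ → ℤ} (h : Rec q u c) (h0 : IsCoprime (u 0) (q : ℤ))
    (i : ℕ) : IsCoprime (u i) (q : ℤ) := by
  induction i with
  | zero => exact h0
  | succ i ih =>
    have h1 : IsCoprime (2 * u (i + 1)) (q : ℤ) := by
      by_cases ho : u i % 2 = 1
      · rw [(h.odd ho).2.1]
        have h2 := (IsCoprime.add_mul_left_left_iff (x := u i) (y := (q : ℤ)) (z := -1)).2 ih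
        have h3 : u i - (q : ℤ) = u i + (q : ℤ) * (-1) := by ring
        rw [h3]
        exact h2
      · rw [(h.even ho).2.1]; exact ih
    exact h1.of_mul_left_right

/-- The numerators of the second walk stay prime to the prime-to-`3` part of `q`. -/
theorem coprime_c {q Q : ℕ} {u c : ℕ → ℤ} (h : Rec q u c) (hQq : Q ∣ q) (hQ3 : Nat.Coprime Q 3)
    (h0 : IsCoprime (c 0) (Q : ℤ)) (i : ℕ) : IsCoprime (c i) (Q : ℤ) := by
  obtain ⟨k, hk⟩ := hQq
  have h3 : IsCoprime (3 : ℤ) (Q : ℤ) := by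
    have := Nat.isCoprime_iff_coprime.2 hQ3
    exact_mod_cast this.symm
  induction i with
  | zero => exact h0
  | succ i ih =>
    have h1 : IsCoprime (2 * c (i + 1)) (Q : ℤ) := by
      by_cases ho : u i % 2 = 1
      · rw [(h.odd ho).2.2]
        have h4 := (IsCoprime.add_mul_left_left_iff (x := 3 * c i) (y := (Q : ℤ)) (z := (k : ℤ))).2
          (h3.mul_left ih)
        have h5 : 3 * c i + (q : ℤ) = 3 * c i + (Q : ℤ) * (k : ℤ) := by rw [hk]; push_cast; ring
        rw [h5]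
        exact h4
      · rw [(h.even ho).2.2]; exact ih
    exact h1.of_mul_left_right

/-- **Reduction to the tail.**  The walks of a rational odd fixed point with denominator `q > 1`
(in lowest terms) have a tail in which the first one runs through `(-q, 0)`, and the second one,
divided by the power of `3` in `q`, is a walk for the prime-to-`3` part `Q` of `q`. -/
theorem reduce {q : ℕ} (hq : Odd q) (hq1 : 1 < q) {u c : ℕ → ℤ} (hw : Walk q u c)
    (hcop : IsCoprime (u 0) (q : ℤ)) : ∃ (b : ℕ) (d : ℕ → ℤ),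
    (∀ i, c (b + i) = 3 ^ q.factorization 3 * d i) ∧
    (∀ i, -(q : ℤ) < u (b + i) ∧ u (b + i) < 0) ∧
    (∀ i, IsCoprime (u (b + i)) (q : ℤ)) ∧ (∀ i, IsCoprime (d i) ((ordCompl[3] q : ℕ) : ℤ)) ∧
    (∀ i, u (b + i) % 2 = d i % 2 ∧
      2 * u (b + (i + 1)) = (if u (b + i) % 2 = 1 then u (b + i) - q else u (b + i)) ∧
      2 * d (i + 1) =
        (if u (b + i) % 2 = 1 then 3 * d i + (ordCompl[3] q : ℕ) else d i)) := by
  have hq0 : 0 < q := hq.pos
  obtain ⟨a, ha⟩ := eventually_unit q hq u c hw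
  have hrec := hw.rec
  have hcu := coprime_u hrec hcop
  have hstrict : ∀ i ≥ a, -(q : ℤ) < u i ∧ u i < 0 := by
    intro i hi
    obtain ⟨h1, h2⟩ := ha i hi
    have hq1Z : (1 : ℤ) < q := by exact_mod_cast hq1
    refine ⟨lt_of_le_of_ne h1 fun h3 => ?_, lt_of_le_of_ne h2 fun h3 => ?_⟩
    · have h4 := hcu i
      rw [← h3] at h4
      have h5 : IsCoprime (q : ℤ) (q : ℤ) := (IsCoprime.neg_left_iff _ _).1 h4
      have h6 := isCoprime_self.1 h5
      rw [Int.isUnit_iff] at h6
      omega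
    · have h4 := hcu i
      rw [h3] at h4
      have h6 := isCoprime_zero_left.1 h4
      rw [Int.isUnit_iff] at h6
      omega
  set v : ℕ := q.factorization 3 with hv
  set Q : ℕ := ordCompl[3] q with hQ
  have hqQ : 3 ^ v * Q = q := Nat.ordProj_mul_ordCompl_eq_self q 3
  have hQ3 : Nat.Coprime Q 3 := (Nat.coprime_ordCompl Nat.prime_three hq0.ne').symm
  have hQdvd : Q ∣ q := Nat.ordCompl_dvd q 3
  obtain ⟨b, hb, hb'⟩ := three_pow_dvd_eventually hrec a (fun i hi => (hstrict i hi).2.ne) v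
    ⟨Q, hqQ.symm⟩ v le_rfl
  have hcc : ∀ i, IsCoprime (c i) (Q : ℤ) := by
    refine coprime_c hrec hQdvd hQ3 ?_
    rw [← hw.1]
    exact hcop.of_isCoprime_of_dvd_right (by exact_mod_cast hQdvd)
  have h3v : (3 : ℤ) ^ v ≠ 0 := by positivity
  choose d hd using fun i : ℕ => hb' (b + i) (by omega)
  refine ⟨b, d, hd, fun i => hstrict _ (by omega), fun i => hcu _, fun i => ?_, fun i => ?_⟩
  · have h1 := hcc (b + i)
    rw [hd i] at h1
    exact h1.of_mul_left_right
  · obtain ⟨h1, h2, h3⟩ := hrec (b + i)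
    have e : b + (i + 1) = b + i + 1 := by ring
    have hqZ : (q : ℤ) = 3 ^ v * Q := by exact_mod_cast hqQ.symm
    have hpar : c (b + i) % 2 = d i % 2 := by
      have h4 : (3 : ℤ) ^ v % 2 = 1 := by
        have : Odd ((3 : ℤ) ^ v) := Odd.pow (by decide)
        exact Int.odd_iff.1 this
      rw [hd i, Int.mul_emod, h4, one_mul, Int.emod_emod_of_dvd _ (dvd_refl 2)]
    refine ⟨h1.trans hpar, ?_, ?_⟩
    · simpa only [e] using h2
    · have h4 := hd (i + 1)
      rw [e] at h4
      apply mul_left_cancel₀ h3v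
      have h5 : (3 : ℤ) ^ v * (2 * d (i + 1)) = 2 * c (b + i + 1) := by rw [h4]; ring
      rw [h5, h3]
      by_cases ho : u (b + i) % 2 = 1
      · rw [if_pos ho, if_pos ho, hd i, hqZ]; ring
      · rw [if_neg ho, if_neg ho, hd i]

end Pool.Agent.Lib.MP_f64c7e_nt.FP
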